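import Pool.Agent.helper6.GE.Str

/-! # GE-Enc: columns

PROOF of `encode`.  Let `e : ℕ → κ` be surjective (`exists_surjective_nat`), `nm i = j + 1` for some
`j` with `e j = i`.  Define `F y` by recursion (strong recursion on the position `m`; e.g. define the
list `G y m : List Bool` of length `m` by `G y 0 = []`, `G y (m + 1) = G y m ++ [next y m (G y m)]`, and
`F y m = next y m (G y m)`, so that `ini (F y) m = G y m`), where for `m = cd j ρ s`
(`j = m.unpair.1`, `ρ` = the decoding of `m.unpair.2.unpair.1`, `s = m.unpair.2.unpair.2`; if the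
decoding is `none` the value is `false`):
`next y m σ = y m` for `j = 0`, and for `j = j' + 1` it is `true` iff every real `g` with `Pre σ g` is in
`O (e j') ρ`.
The equivalence: if `F y (cd (nm i) ρ s) = true` then `F y` itself is in `O i ρ`, as `Pre (ini (F y) m) (F y)`.
If `F y ∈ O i ρ` then, `O i ρ` being open, there is `t` such that all `g` agreeing with `F y` below `t` are
in `O i ρ`; take `s = t` (`cd j ρ s ≥ s`). -/

namespace Pool.Agent.helper6.GE

/-- a set is open iff membership is always decided by a finite part -/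
theorem open_agree {O : Set (ℕ → Bool)} (hO : IsOpen O) {X : ℕ → Bool} (hX : X ∈ O) :
    ∃ t : ℕ, ∀ X' : ℕ → Bool, (∀ n < t, X' n = X n) → X' ∈ O := by
  obtain ⟨I, u, h1, h2⟩ := isOpen_pi_iff.1 hO X hX
  refine ⟨I.sup id + 1, fun X' h => h2 ?_⟩
  intro i hi
  have h3 : X' i = X i := h i (Nat.lt_succ_of_le (Finset.le_sup (f := id) hi))
  rw [h3]
  exact (h1 i hi).2

open Classical in
/-- the value at the position `m`, when the values below `m` are known -/
noncomputable def Enc_next (O : ℕ → List Bool → Set (ℕ → Bool)) (y : ℕ → Bool) (m : ℕ)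
    (σ : List Bool) : Bool :=
  match m.unpair.1 with
  | 0 => y m
  | j + 1 =>
    match (Encodable.decode m.unpair.2.unpair.1 : Option (List Bool)) with
    | none => false
    | some ρ => decide (∀ g : ℕ → Bool, Pre σ g → g ∈ O j ρ)

noncomputable def Enc_G (O : ℕ → List Bool → Set (ℕ → Bool)) (y : ℕ → Bool) : ℕ → List Bool
  | 0 => []
  | m + 1 => Enc_G O y m ++ [Enc_next O y m (Enc_G O y m)]

noncomputable def Enc_F (O : ℕ → List Bool → Set (ℕ → Bool)) (y : ℕ → Bool) (m : ℕ) : Bool :=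
  Enc_next O y m (Enc_G O y m)

theorem Enc_ini (O : ℕ → List Bool → Set (ℕ → Bool)) (y : ℕ → Bool) (m : ℕ) :
    ini (Enc_F O y) m = Enc_G O y m := by
  induction m with
  | zero => rfl
  | succ m ih =>
    rw [ini_succ, ih]
    rfl

theorem Enc_next_congr (O : ℕ → List Bool → Set (ℕ → Bool)) {y y' : ℕ → Bool} {m : ℕ}
    (h : y' m = y m) (σ : List Bool) : Enc_next O y' m σ = Enc_next O y m σ := by
  unfold Enc_next
  rw [h]

theorem Enc_loc (O : ℕ → List Bool → Set (ℕ → Bool)) {y y' : ℕ → Bool} {t : ℕ}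
    (h : ∀ n < t, y' n = y n) : ∀ n ≤ t, Enc_G O y' n = Enc_G O y n := by
  intro n
  induction n with
  | zero =>
    intro _
    rfl
  | succ n ih =>
    intro hn
    show Enc_G O y' n ++ [Enc_next O y' n (Enc_G O y' n)] =
      Enc_G O y n ++ [Enc_next O y n (Enc_G O y n)]
    rw [ih (by omega), Enc_next_congr O (h n (by omega))]

theorem Enc_zero (O : ℕ → List Bool → Set (ℕ → Bool)) (y : ℕ → Bool) (ρ : List Bool) (s : ℕ) :
    Enc_F O y (cd 0 ρ s) = y (cd 0 ρ s) := by
  unfold Enc_F Enc_next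
  have h1 : (cd 0 ρ s).unpair.1 = 0 := by
    unfold cd
    rw [Nat.unpair_pair]
  rw [h1]

theorem Enc_succ (O : ℕ → List Bool → Set (ℕ → Bool)) (y : ℕ → Bool) (j : ℕ) (ρ : List Bool)
    (s : ℕ) : Enc_F O y (cd (j + 1) ρ s) = true ↔
      ∀ g : ℕ → Bool, Pre (ini (Enc_F O y) (cd (j + 1) ρ s)) g → g ∈ O j ρ := by
  have h1 : (cd (j + 1) ρ s).unpair.1 = j + 1 := by
    unfold cd
    rw [Nat.unpair_pair]
  have h2 : (Encodable.decode (cd (j + 1) ρ s).unpair.2.unpair.1 : Option (List Bool)) =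
      some ρ := by
    unfold cd
    rw [Nat.unpair_pair, Nat.unpair_pair]
    exact Encodable.encodek ρ
  rw [Enc_ini]
  unfold Enc_F Enc_next
  rw [h1]
  simp only
  rw [h2]
  simp only [decide_eq_true_eq]

theorem encode {κ : Type} [Countable κ] [Nonempty κ] (O : κ → List Bool → Set (ℕ → Bool))
    (hO : ∀ i ρ, IsOpen (O i ρ)) :
    ∃ (F : (ℕ → Bool) → ℕ → Bool) (nm : κ → ℕ),
      (∀ y y' : ℕ → Bool, ∀ t, (∀ n < t, y' n = y n) → ∀ n < t, F y' n = F y n) ∧
      (∀ y ρ, (∃ s, F y (cd 0 ρ s) = true) ↔ ∃ s, y (cd 0 ρ s) = true) ∧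
      ∀ y i ρ, (∃ s, F y (cd (nm i) ρ s) = true) ↔ F y ∈ O i ρ := by
  obtain ⟨e, he⟩ := exists_surjective_nat κ
  choose r hr using he
  set O' : ℕ → List Bool → Set (ℕ → Bool) := fun j ρ => O (e j) ρ with hO'
  refine ⟨Enc_F O', fun i => r i + 1, ?_, ?_, ?_⟩
  · intro y y' t h n hn
    show Enc_next O' y' n (Enc_G O' y' n) = Enc_next O' y n (Enc_G O' y n)
    rw [Enc_loc O' h n hn.le, Enc_next_congr O' (h n hn)]
  · intro y ρ
    simp only [Enc_zero]
  · intro y i ρ
    have hOi : O' (r i) ρ = O i ρ := by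
      rw [hO']
      simp only [hr]
    constructor
    · rintro ⟨s, hs⟩
      rw [Enc_succ, hOi] at hs
      exact hs _ (pre_ini _ _)
    · intro h
      obtain ⟨t, ht⟩ := open_agree (hO i ρ) h
      refine ⟨t, ?_⟩
      rw [Enc_succ, hOi]
      intro g hg
      apply ht
      intro n hn
      have h1 : ini g (cd (r i + 1) ρ t) = ini (Enc_F O' y) (cd (r i + 1) ρ t) := by
        have h2 := hg
        unfold Pre at h2
        rw [ini_length] at h2
        exact h2
      rw [ini_eq_iff] at h1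
      apply h1
      refine hn.trans_le ?_
      unfold cd
      exact (Nat.right_le_pair _ _).trans (Nat.right_le_pair _ _)

end Pool.Agent.helper6.GE
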