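import Pool.Agent.helper6.GE.Defs

/-! # GE-Str: strings and reals -/

namespace Pool.Agent.helper6.GE

theorem ini_length (g : ℕ → Bool) (n : ℕ) : (ini g n).length = n := by
  simp [ini]

theorem ini_getElem (g : ℕ → Bool) (n i : ℕ) (h : i < (ini g n).length) : (ini g n)[i] = g i := by
  simp [ini]

theorem ini_eq_iff {g h : ℕ → Bool} {n : ℕ} : ini g n = ini h n ↔ ∀ i < n, g i = h i := by
  simp [ini]

theorem ini_succ (g : ℕ → Bool) (n : ℕ) : ini g (n + 1) = ini g n ++ [g n] := by
  simp [ini, List.range_succ]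

theorem ini_take {g : ℕ → Bool} {m n : ℕ} (h : m ≤ n) : (ini g n).take m = ini g m := by
  unfold ini
  rw [← List.map_take, List.take_range, min_eq_left h]

theorem ini_prefix {g : ℕ → Bool} {m n : ℕ} (h : m ≤ n) : ini g m <+: ini g n := by
  rw [← ini_take h]
  exact List.take_prefix _ _

theorem pre_ini (g : ℕ → Bool) (n : ℕ) : Pre (ini g n) g := by
  unfold Pre
  rw [ini_length]

theorem pre_iff {σ : List Bool} {g : ℕ → Bool} :
    Pre σ g ↔ ∀ i (h : i < σ.length), σ[i] = g i := by
  unfold Pre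
  constructor
  · intro h i hi
    have := ini_getElem g σ.length i (by rw [h]; exact hi)
    simp only [h] at this
    exact this
  · intro h
    apply List.ext_getElem
    · rw [ini_length]
    · intro i h1 h2
      rw [ini_getElem, h i h2]

theorem pre_nil (g : ℕ → Bool) : Pre [] g := rfl

theorem Pre.eq_ini {σ : List Bool} {g : ℕ → Bool} (h : Pre σ g) {n : ℕ} (hn : σ.length = n) :
    σ = ini g n := by
  rw [← hn]
  exact h.symm

theorem Pre.le {σ τ : List Bool} {g : ℕ → Bool} (h : Pre σ g) (h' : Pre τ g)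
    (hl : σ.length ≤ τ.length) : σ <+: τ := by
  rw [← h, ← h']
  exact ini_prefix hl

theorem Pre.comp {σ τ : List Bool} {g : ℕ → Bool} (h : Pre σ g) (h' : Pre τ g) :
    σ <+: τ ∨ τ <+: σ := by
  rcases le_total σ.length τ.length with hl | hl
  · exact Or.inl (h.le h' hl)
  · exact Or.inr (h'.le h hl)

theorem Pre.mono {σ τ : List Bool} {g : ℕ → Bool} (h : Pre τ g) (hs : σ <+: τ) : Pre σ g := by
  rw [pre_iff] at h ⊢
  intro i hi
  rw [hs.getElem hi]
  exact h i _

theorem ini_prefix_iff {g : ℕ → Bool} {n : ℕ} {τ : List Bool} :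
    ini g n <+: τ ↔ n ≤ τ.length ∧ ∀ i (h : i < τ.length), i < n → τ[i] = g i := by
  constructor
  · intro h
    refine ⟨by simpa [ini_length] using h.length_le, fun i hi hin => ?_⟩
    have := h.getElem (i := i) (by rw [ini_length]; exact hin)
    rw [ini_getElem] at this
    exact this.symm
  · rintro ⟨h1, h2⟩
    rw [List.prefix_iff_eq_take]
    apply List.ext_getElem
    · rw [ini_length, List.length_take, min_eq_left h1]
    · intro i hi hi'
      rw [ini_getElem, List.getElem_take]
      rw [ini_length] at hi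
      rw [h2 i (by omega) hi]

theorem Inc.symm {σ τ : List Bool} (h : Inc σ τ) : Inc τ σ := ⟨h.2, h.1⟩

theorem Inc.left {σ σ' τ : List Bool} (h : Inc σ τ) (hs : σ <+: σ') : Inc σ' τ := by
  refine ⟨fun h1 => h.1 (hs.trans h1), fun h1 => ?_⟩
  rcases List.prefix_or_prefix_of_prefix hs h1 with h2 | h2
  · exact h.1 h2
  · exact h.2 h2

theorem Inc.right {σ τ τ' : List Bool} (h : Inc σ τ) (hs : τ <+: τ') : Inc σ τ' :=
  (h.symm.left hs).symm

theorem Inc.not_pre {σ τ : List Bool} {g : ℕ → Bool} (h : Inc σ τ) (h' : Pre τ g) :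
    ¬ Pre σ g := by
  intro h1
  rcases h1.comp h' with h2 | h2
  · exact h.1 h2
  · exact h.2 h2

/-- a string off the real `g` is incompatible with long initial segments of `g` -/
theorem inc_ini {σ : List Bool} {g : ℕ → Bool} (h : ¬ Pre σ g) {n : ℕ} (hn : σ.length ≤ n) :
    Inc σ (ini g n) := by
  refine ⟨fun h1 => h ((pre_ini g n).mono h1), fun h1 => h ?_⟩
  have h2 : (ini g n).length = σ.length := by
    have := h1.length_le
    rw [ini_length] at this ⊢
    omega
  have h3 : ini g n = σ := h1.eq_of_length h2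
  rw [← h3]
  exact pre_ini g n

/-- if neither `σ` nor `τ` is off the long string `ν`, they are comparable -/
theorem inc_or {σ τ ν : List Bool} (h : Inc σ τ) (h1 : σ.length ≤ ν.length)
    (h2 : τ.length ≤ ν.length) : Inc σ ν ∨ Inc τ ν := by
  by_contra hcon
  push Not at hcon
  have key : ∀ ρ : List Bool, ρ.length ≤ ν.length → ¬ Inc ρ ν → ρ <+: ν := by
    intro ρ hρ hn
    unfold Inc at hn
    rw [not_and_or, not_not, not_not] at hn
    rcases hn with h3 | h3
    · exact h3
    · have h4 := h3.eq_of_length (le_antisymm h3.length_le hρ)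
      rw [h4]
  rcases List.prefix_or_prefix_of_prefix (key σ h1 hcon.1) (key τ h2 hcon.2) with h3 | h3
  · exact h.1 h3
  · exact h.2 h3

theorem exists_ne_of_ne {g h : ℕ → Bool} (hne : g ≠ h) : ∃ n, ∀ m, n ≤ m → ini g m ≠ ini h m := by
  obtain ⟨i, hi⟩ := Function.ne_iff.mp hne
  refine ⟨i + 1, fun m hm he => hi ?_⟩
  rw [ini_eq_iff] at he
  exact he i (by omega)

/-- the longer one of two comparable strings -/
theorem exists_longer {σ τ : List Bool} (h : σ <+: τ ∨ τ <+: σ) :
    ∃ ν, (ν = σ ∨ ν = τ) ∧ σ <+: ν ∧ τ <+: ν := by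
  rcases h with h | h
  · exact ⟨τ, Or.inr rfl, h, List.prefix_refl _⟩
  · exact ⟨σ, Or.inl rfl, List.prefix_refl _, h⟩

end Pool.Agent.helper6.GE
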