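import Mathlib.Computability.RecursiveIn
import Pool.Agent.helper6.GE.Str

/-! # GE-Gen: `1`-genericity relative to a real; the columns are computably enumerable -/

namespace Pool.Agent.helper6.GE

/-- the characteristic function of the real `X` as an oracle -/
def oracleOf (X : ℕ → Bool) : ℕ →. ℕ := fun n => Part.some (if X n = true then 1 else 0)

/-- the set `D` of strings is computably enumerable (`Σ⁰₁`) relative to `X`: it is the domain of a
partial function which is recursive in `X` -/
def CEIn (X : ℕ → Bool) (D : Set (List Bool)) : Prop :=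
  ∃ f : ℕ →. ℕ, Nat.RecursiveIn {oracleOf X} f ∧ ∀ ρ : List Bool, ρ ∈ D ↔ (f (Encodable.encode ρ)).Dom

/-- `g` is `1`-generic relative to `X`: it meets or avoids every set of strings which is `Σ⁰₁` relative
to `X` -/
def OneGen (X g : ℕ → Bool) : Prop := ∀ D : Set (List Bool), CEIn X D → Dec g D

/-- PROOF: `f a = rfind s. 1 - X (pair j (pair a s)) = 0`; `cd j ρ s = pair j (pair (encode ρ) s)`. -/
theorem column_ce (X : ℕ → Bool) (j : ℕ) : CEIn X {ρ | ∃ s, X (cd j ρ s) = true} := by
  let O : Set (ℕ →. ℕ) := {oracleOf X}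
  -- the function `p ↦ pair j p`
  have h1 : Nat.RecursiveIn O fun p => Part.some (Nat.pair j p) := by
    have : Nat.Primrec fun p => Nat.pair j p :=
      Nat.Primrec.pair (Nat.Primrec.const j) Nat.Primrec.id
    exact Nat.Primrec.recursiveIn this
  have h2 : Nat.RecursiveIn O (oracleOf X) := Nat.RecursiveIn.oracle _ rfl
  have h3 : Nat.RecursiveIn O fun n => Part.some (1 - n) := by
    have : Nat.Primrec fun n => 1 - n := by
      have h4 := Nat.Primrec.sub.comp (Nat.Primrec.pair (Nat.Primrec.const 1) Nat.Primrec.id)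
      refine h4.of_eq fun n => ?_
      simp [Nat.unpaired]
    exact Nat.Primrec.recursiveIn this
  have h5 := Nat.RecursiveIn.rfind (Nat.RecursiveIn.comp h3 (Nat.RecursiveIn.comp h2 h1))
  refine ⟨_, h5, fun ρ => ?_⟩
  rw [Set.mem_ofPred_eq, Nat.rfind_dom']
  constructor
  · rintro ⟨s, hs⟩
    refine ⟨s, ?_, fun {m} _ => ?_⟩
    · have hs' : X (Nat.pair j (Nat.pair (Encodable.encode ρ) s)) = true := hs
      simp [oracleOf, hs']
    · simp [oracleOf]
  · rintro ⟨s, hs, -⟩
    refine ⟨s, ?_⟩
    by_contra h6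
    have h7 : X (Nat.pair j (Nat.pair (Encodable.encode ρ) s)) = false := by
      simpa [cd] using h6
    simp [oracleOf, h7] at hs

end Pool.Agent.helper6.GE
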