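import Pool.Agent.helper6.GE.Big

/-! # GE-Tour: elementary facts on tournaments, alive sets and initial segments -/

namespace Pool.Agent.helper6.GE

variable {T : ℕ → ℕ → Bool}

theorem TransOn.mono {S S' : Set ℕ} (h : TransOn T S) (hs : S' ⊆ S) : TransOn T S' :=
  fun x hx y hy z hz => h x (hs hx) y (hs hy) z (hs hz)

theorem Tour.asymm (hT : Tour T) {x y : ℕ} (h : T x y = true) : T y x = false := by
  have hne : x ≠ y := by
    rintro rfl
    rw [hT.1 x] at h
    exact Bool.false_ne_true h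
  rw [hT.2 y x hne.symm, h]
  rfl

theorem Tour.ne (hT : Tour T) {x y : ℕ} (h : T x y = true) : x ≠ y := by
  rintro rfl
  rw [hT.1 x] at h
  exact Bool.false_ne_true h

theorem Tour.of_false (hT : Tour T) {x y : ℕ} (hne : x ≠ y) (h : T x y = false) :
    T y x = true := by
  rw [hT.2 y x hne.symm, h]
  rfl

theorem Al.congr {N : Finset ℕ} {w w' : ℕ → Bool} (h : Al T N w) (hw : ∀ x ∈ N, w' x = w x) :
    Al T N w' := by
  refine ⟨h.1, fun x hx z hz h1 h2 => ?_⟩
  rw [hw x hx]
  rw [hw z hz] at h2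
  exact h.2 x hx z hz h1 h2

theorem al_empty (T : ℕ → ℕ → Bool) (w : ℕ → Bool) : Al T ∅ w := by
  refine ⟨fun x hx => ?_, fun x hx => ?_⟩
  · simp at hx
  · simp at hx

/-- the union of an alive set with a transitive set of elements with the right pattern is
transitive -/
theorem al_union (hT : Tour T) {N : Finset ℕ} {w : ℕ → Bool} (h : Al T N w) {S : Set ℕ}
    (hS : ∀ x ∈ S, ∀ v ∈ N, T v x = w v) (hTS : TransOn T S) : TransOn T ((N : Set ℕ) ∪ S) := by
  have hlt : ∀ x ∈ S, ∀ v ∈ N, T x v = true → w v = false := by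
    intro x hx v hv h1
    rw [← hS x hx v hv]
    exact hT.asymm h1
  have hgt : ∀ x ∈ S, ∀ v ∈ N, w v = false → x ≠ v → T x v = true := by
    intro x hx v hv h1 hne
    have := hS x hx v hv
    rw [h1] at this
    exact hT.of_false hne.symm this
  intro x hx y hy z hz hxy hyz
  have hxz : x ≠ z := by
    rintro rfl
    rw [hT.asymm hxy] at hyz
    exact Bool.false_ne_true hyz
  rcases hx with hx | hx <;> rcases hy with hy | hy <;> rcases hz with hz | hz
  · exact h.1 x hx y hy z hz hxy hyz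
  · have h1 : w y = true := by rw [← hS z hz y hy]; exact hyz
    rw [hS z hz x hx]
    exact h.2 x hx y hy hxy h1
  · have h1 : w x = true := by rw [← hS y hy x hx]; exact hxy
    have h2 : w z = false := hlt y hy z hz hyz
    by_contra h3
    have h4 : T x z = false := by simpa using h3
    have h5 := h.2 z hz x hx (hT.of_false hxz h4) h1
    rw [h2] at h5
    exact Bool.false_ne_true h5
  · have h1 : w x = true := by rw [← hS y hy x hx]; exact hxy
    rw [hS z hz x hx, h1]
  · have h1 : w y = false := hlt x hx y hy hxy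
    refine hgt x hx z hz ?_ hxz
    by_contra h2
    have h3 : w z = true := by simpa using h2
    have h4 := h.2 y hy z hz hyz h3
    rw [h1] at h4
    exact Bool.false_ne_true h4
  · have h1 : w y = false := hlt x hx y hy hxy
    rw [hS z hz y hy, h1] at hyz
    exact absurd hyz Bool.false_ne_true
  · exact hgt x hx z hz (hlt y hy z hz hyz) hxz
  · exact hTS x hx y hy z hz hxy hyz

/-- an alive set can be enlarged by a transitive finite set on which the pattern is constant -/
theorem al_union_fin (hT : Tour T) {N : Finset ℕ} {w : ℕ → Bool} (h : Al T N w) {B : Finset ℕ}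
    (hB : ∀ x ∈ B, ∀ v ∈ N, T v x = w v) (hTB : TransOn T (B : Set ℕ))
    (hc : ∃ e, ∀ x ∈ B, w x = e) : Al T (N ∪ B) w := by
  obtain ⟨e, he⟩ := hc
  refine ⟨?_, ?_⟩
  · rw [Finset.coe_union]
    exact al_union hT h (fun x hx v hv => hB x hx v hv) hTB
  · intro x hx z hz hxz hwz
    rcases Finset.mem_union.mp hx with hx | hx <;> rcases Finset.mem_union.mp hz with hz | hz
    · exact h.2 x hx z hz hxz hwz
    · rw [← hB z hz x hx]
      exact hxz
    · have h1 := hB x hx z hz
      rw [hT.asymm hxz, hwz] at h1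
      exact absurd h1 Bool.false_ne_true
    · rw [he x hx, ← he z hz]
      exact hwz

/-- the second kind of bases: `A` is turned around -/
theorem al_flip (hT : Tour T) {F A C : Finset ℕ} {w v : ℕ → Bool} {e0 : Bool}
    (hw : Al T (F ∪ A) w) (hv : Al T (F ∪ A) v) (hvw : ∀ x ∈ F, v x = w x)
    (hA : ∀ x ∈ A, w x = e0) (hC : ∀ x ∈ C, ∀ z ∈ F ∪ A, T z x = w z)
    (hTC : TransOn T (C : Set ℕ)) (hve : ∀ x ∈ C, v x = !e0) : Al T (F ∪ A ∪ C) v := by
  refine ⟨?_, ?_⟩
  · rw [Finset.coe_union]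
    exact al_union hT hw (fun x hx z hz => hC x hx z hz) hTC
  · intro x hx z hz hxz hvz
    rcases Finset.mem_union.mp hx with hx | hx <;> rcases Finset.mem_union.mp hz with hz | hz
    · exact hv.2 x hx z hz hxz hvz
    · have h1 : w x = true := by rw [← hC z hz x hx]; exact hxz
      rcases Finset.mem_union.mp hx with hx' | hx'
      · rw [hvw x hx', h1]
      · rw [hve z hz, ← hA x hx', h1] at hvz
        exact absurd hvz Bool.false_ne_true
    · have h1 : w z = false := by
        rw [← hC x hx z hz]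
        exact hT.asymm hxz
      rcases Finset.mem_union.mp hz with hz' | hz'
      · rw [hvw z hz', h1] at hvz
        exact absurd hvz Bool.false_ne_true
      · rw [hve x hx, ← hA z hz', h1]
        rfl
    · rw [hve x hx, ← hve z hz]
      exact hvz

theorem seg_refl (F : Finset ℕ) : Seg F (F : Set ℕ) :=
  ⟨subset_rfl, fun _ hx hx' => absurd hx hx'⟩

theorem seg_trans {F F' : Finset ℕ} {S : Set ℕ} (h : Seg F (F' : Set ℕ)) (h' : Seg F' S) :
    Seg F S := by
  refine ⟨h.1.trans h'.1, fun x hx hxF z hz => ?_⟩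
  by_cases hx' : x ∈ F'
  · exact h.2 x hx' hxF z hz
  · exact h'.2 x hx hx' z (h.1 hz)

theorem seg_union {N : Finset ℕ} {b : ℕ} (hN : ∀ x ∈ N, x < b) {B : Finset ℕ} {S : Set ℕ}
    (hS : ∀ x ∈ S, b ≤ x) (h : Seg B S) : Seg (N ∪ B) ((N : Set ℕ) ∪ S) := by
  refine ⟨?_, fun x hx hxF z hz => ?_⟩
  · rw [Finset.coe_union]
    exact Set.union_subset_union_right _ h.1
  · rw [Finset.mem_union, not_or] at hxF
    have hxS : x ∈ S := by
      rcases hx with hx | hx
      · exact absurd hx hxF.1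
      · exact hx
    rcases Finset.mem_union.mp hz with hz | hz
    · exact lt_of_lt_of_le (hN z hz) (hS x hxS)
    · exact h.2 x hxS hxF.2 z hz

theorem seg_left {N : Finset ℕ} {b : ℕ} (hN : ∀ x ∈ N, x < b) {S : Set ℕ}
    (hS : ∀ x ∈ S, b ≤ x) : Seg N ((N : Set ℕ) ∪ S) := by
  refine ⟨Set.subset_union_left, fun x hx hxF z hz => ?_⟩
  rcases hx with hx | hx
  · exact absurd hx hxF
  · exact lt_of_lt_of_le (hN z hz) (hS x hx)

theorem seg_union_fin {N : Finset ℕ} {b : ℕ} (hN : ∀ x ∈ N, x < b) {B B' : Finset ℕ}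
    (hS : ∀ x ∈ B', b ≤ x) (h : Seg B (B' : Set ℕ)) :
    Seg (N ∪ B) ((N ∪ B' : Finset ℕ) : Set ℕ) := by
  rw [Finset.coe_union]
  exact seg_union hN (fun x hx => hS x hx) h

theorem seg_left_fin {N : Finset ℕ} {b : ℕ} (hN : ∀ x ∈ N, x < b) {B : Finset ℕ}
    (hS : ∀ x ∈ B, b ≤ x) : Seg N ((N ∪ B : Finset ℕ) : Set ℕ) := by
  rw [Finset.coe_union]
  exact seg_left hN (fun x hx => hS x hx)

/-- long initial segments of an infinite set -/
theorem exists_seg {S : Set ℕ} (hS : S.Infinite) {B : Finset ℕ} (hB : Seg B S) (b : ℕ) :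
    ∃ B' : Finset ℕ, Seg B' S ∧ Seg B (B' : Set ℕ) ∧ ∃ x ∈ B', b ≤ x := by
  classical
  obtain ⟨x0, hx0, hb⟩ := hS.exists_gt (max b (B.sup id))
  have hfin : {x | x ∈ S ∧ x ≤ x0}.Finite := (Set.finite_Iic x0).subset fun x hx => hx.2
  refine ⟨hfin.toFinset, ⟨?_, ?_⟩, ⟨?_, ?_⟩, x0, ?_, ?_⟩
  · intro x hx
    simp at hx
    exact hx.1
  · intro x hx hx' z hz
    simp at hx' hz
    exact lt_of_le_of_lt hz.2 (hx' hx)
  · intro x hx
    simp
    refine ⟨hB.1 hx, ?_⟩
    have h1 : x ≤ B.sup id := Finset.le_sup (f := id) hx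
    exact h1.trans ((le_max_right _ _).trans hb.le)
  · intro x hx hx' z hz
    simp at hx
    exact hB.2 x hx.1 hx' z hz
  · simp
    exact hx0
  · exact (le_max_left _ _).trans hb.le

theorem res_congr {b : ℕ} {w w' : ℕ → Bool} (h : ∀ v < b, w v = w' v) :
    Res T b w = Res T b w' := by
  ext x
  simp only [Res, Set.mem_ofPred_eq]
  refine and_congr_right fun _ => forall₂_congr fun v hv => ?_
  rw [h v hv]

theorem pat_spec (T : ℕ → ℕ → Bool) (U : Ultrafilter ℕ) (v : ℕ) :
    ∀ᶠ y in (U : Filter ℕ), T v y = pat T U v := by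
  classical
  unfold pat
  by_cases h : ∀ᶠ y in (U : Filter ℕ), T v y = true
  · rw [decide_eq_true h]
    exact h
  · rw [decide_eq_false h]
    have h1 := Ultrafilter.eventually_not.mpr h
    filter_upwards [h1] with y hy
    simpa using hy

theorem res_pat_mem (T : ℕ → ℕ → Bool) {U : Ultrafilter ℕ} (hU : (U : Filter ℕ) ≤ Filter.cofinite)
    (b : ℕ) : Res T b (pat T U) ∈ (U : Filter ℕ) := by
  have h1 : ∀ᶠ y in (U : Filter ℕ), ∀ v ∈ Finset.range b, T v y = pat T U v := by
    rw [Filter.eventually_all_finset]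
    exact fun v _ => pat_spec T U v
  have h2 : ∀ᶠ y in (U : Filter ℕ), b ≤ y := by
    have h3 : ∀ᶠ y in Filter.cofinite, b ≤ y := by
      rw [Nat.cofinite_eq_atTop]
      exact Filter.eventually_ge_atTop b
    exact hU h3
  filter_upwards [h1, h2] with y hy hy'
  exact ⟨hy', fun v hv => hy v (Finset.mem_range.mpr hv)⟩

theorem res_pat_infinite (T : ℕ → ℕ → Bool) {U : Ultrafilter ℕ}
    (hU : (U : Filter ℕ) ≤ Filter.cofinite) (b : ℕ) : (Res T b (pat T U)).Infinite := by
  intro hfin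
  have h1 := res_pat_mem T hU b
  have h2 : (Res T b (pat T U))ᶜ ∈ (U : Filter ℕ) := hU hfin.compl_mem_cofinite
  have h3 := Filter.inter_mem h1 h2
  rw [Set.inter_compl_self] at h3
  exact U.neBot.ne (Filter.empty_mem_iff_bot.mp h3)

theorem fam_ibig (T : ℕ → ℕ → Bool) (hT : Tour T) {R : Set ℕ} (hR : R.Infinite) :
    IBig (Fam T R) := by
  intro K m c
  obtain ⟨x, hx, hm⟩ := hR.exists_gt m
  refine ⟨{x}, ⟨⟨Finset.singleton_nonempty x, ?_, ?_⟩, ?_⟩, c x, ?_⟩
  · simpa using hx
  · intro a ha b hb d hd h1 h2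
    simp at ha hb hd
    subst ha hb hd
    exact h1
  · simpa using hm
  · simp

end Pool.Agent.helper6.GE
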