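import Pool.Agent.helper6.GE.Open
import Pool.Agent.helper6.GE.Enc
import Pool.Agent.helper6.GE.Gen
import Pool.Agent.helper6.GE.Tour

/-! # GE-Arn: the arena of a reduction

PROOF.  Let `κ` be the type of all `(p, q, P, n1)` (`Par × Σ q, (Fin (q + 1) → List Bool) × ℕ`,
countable), `O i ρ = {X | ρ ∈ Dset (VV (Φ X) (Lab Φ Ψ X) p) q P n1}`, open by `dset_open`; `F, nm` from
`encode`.  `T y = Φ (F y)`, `L y = Lab Φ Ψ (F y)`, `Psi y S = Ψ (F y) (chi S)`.

`Stat`: `tour` by hypothesis; `nil`: trivial; `sound`: take `X' = X` in `Lab`; `mono`: `seg_trans`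
(prove it here for this case or import GE-Tour); `compl`: `Ψ` is continuous on the domain, so there is
`t` such that `Ψ X' H'` agrees with `Ψ X (chi S)` below `n` for all `X'` agreeing with `X`, `H'`
agreeing with `chi S` below `t` with `Sol (Φ X') H'`; with `b = t`: if `F` is an initial segment of `S`
with an element `≥ t`, and also an initial segment of `S'`, then `S` and `S'` agree below `t`.
`gen`: `column_ce` for the column `nm i`, `encode` and `hgen`.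
`Tloc`: `Φ` is continuous, so the finitely many values depend on a finite part of `F y`, thus of `y`.
`Lloc`: the witness `t` of `Lab`.  `decW`: `column_ce` for the column `0`, and `encode`. -/

namespace Pool.Agent.helper6.GE

/-- the domain of the second functional: pairs of an instance and a solution -/
def Doms (Φ : (ℕ → Bool) → ℕ → ℕ → Bool) : Set ((ℕ → Bool) × (ℕ → Bool)) :=
  {z | Sol (Φ z.1) {n | z.2 n = true}}

theorem Arn_par_countable : Countable Par := by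
  have h : Function.Injective fun p : Par => (p.b, p.w, p.N, p.K, p.m) := by
    rintro ⟨b, w, N, K, m⟩ ⟨b', w', N', K', m'⟩ h
    simp only [Prod.mk.injEq] at h
    obtain ⟨rfl, rfl, rfl, rfl, rfl⟩ := h
    rfl
  exact h.countable

theorem Arn_chi (S : Set ℕ) : {n | chi S n = true} = S := by
  ext n
  simp [chi]

theorem Arn_seg {F : Finset ℕ} {S : Set ℕ} (h : Seg F S) {x : ℕ} (hx : x ∈ F) {i : ℕ} (hi : i ≤ x) :
    i ∈ S ↔ i ∈ F := by
  constructor
  · intro hS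
    by_contra hF
    have := h.2 i hS hF x hx
    omega
  · exact fun hF => h.1 hF

theorem Arn_chi_eq {F : Finset ℕ} {S S' : Set ℕ} (h : Seg F S) (h' : Seg F S') {x : ℕ} (hx : x ∈ F)
    {i : ℕ} (hi : i ≤ x) : chi S' i = chi S i := by
  have h1 := Arn_seg h hx hi
  have h2 := Arn_seg h' hx hi
  unfold chi
  simp only [h1, h2]

/-- continuity on the domain, in terms of finite parts -/
theorem Arn_cont {Φ : (ℕ → Bool) → ℕ → ℕ → Bool} {Ψ : (ℕ → Bool) × (ℕ → Bool) → ℕ → Bool}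
    (hΨ : ContinuousOn Ψ (Doms Φ)) {z : (ℕ → Bool) × (ℕ → Bool)} (hz : z ∈ Doms Φ) (n : ℕ) :
    ∃ t : ℕ, ∀ z' ∈ Doms Φ, (∀ i < t, z'.1 i = z.1 i) → (∀ i < t, z'.2 i = z.2 i) →
      ∀ i < n, Ψ z' i = Ψ z i := by
  have h1 : {g : ℕ → Bool | ∀ i < n, g i = Ψ z i} ∈ nhds (Ψ z) :=
    (Open_cyl (Ψ z) n).mem_nhds fun i _ => rfl
  have h2 := hΨ z hz h1
  rw [Filter.mem_map, mem_nhdsWithin] at h2
  obtain ⟨U, hU, hzU, hsub⟩ := h2
  have h3 : U ∈ nhds (z.1, z.2) := hU.mem_nhds hzU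
  rw [mem_nhds_prod_iff] at h3
  obtain ⟨u, hu, v, hv, huv⟩ := h3
  obtain ⟨u', hu'u, hu'o, hzu⟩ := mem_nhds_iff.mp hu
  obtain ⟨v', hv'v, hv'o, hzv⟩ := mem_nhds_iff.mp hv
  obtain ⟨t1, ht1⟩ := open_agree hu'o hzu
  obtain ⟨t2, ht2⟩ := open_agree hv'o hzv
  refine ⟨max t1 t2, fun z' hz' ha hb => ?_⟩
  have h4 : z' ∈ U := huv ⟨hu'u (ht1 _ fun i hi => ha i (hi.trans_le (le_max_left _ _))),
    hv'v (ht2 _ fun i hi => hb i (hi.trans_le (le_max_right _ _)))⟩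
  exact hsub ⟨h4, hz'⟩

theorem arena_of {Φ : (ℕ → Bool) → ℕ → ℕ → Bool} {Ψ : (ℕ → Bool) × (ℕ → Bool) → ℕ → Bool}
    (hΦ : Continuous Φ) (hT : ∀ X, Tour (Φ X)) (hΨ : ContinuousOn Ψ (Doms Φ))
    (hgen : ∀ z ∈ Doms Φ, OneGen z.1 (Ψ z)) : Nonempty Arena := by
  have := Arn_par_countable
  have : Nonempty (Par × Σ q : ℕ, (Fin (q + 1) → List Bool) × ℕ) :=
    ⟨⟨⟨0, ∅, fun _ => ∅, 0, 0⟩, ⟨0, fun _ => [], 0⟩⟩⟩
  obtain ⟨F, nm, hloc, hW, hcol⟩ := encode
    (κ := Par × Σ q : ℕ, (Fin (q + 1) → List Bool) × ℕ)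
    (fun i ρ => {X | ρ ∈ Dset (VV (Φ X) (Lab Φ (fun X h => Ψ (X, h)) X) i.1) i.2.1 i.2.2.1 i.2.2.2})
    (fun i ρ => dset_open hΦ _ _ _ _ _ _)
  have hdom : ∀ X S, Sol (Φ X) S → (X, chi S) ∈ Doms Φ := by
    intro X S hS
    show Sol (Φ X) {n | chi S n = true}
    rw [Arn_chi]
    exact hS
  refine ⟨{
    T := fun y => Φ (F y)
    L := fun y => Lab Φ (fun X h => Ψ (X, h)) (F y)
    Psi := fun y S => Ψ (F y, chi S)
    stat := fun y => {
      tour := hT _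
      nil := ?_
      sound := ?_
      compl := ?_
      mono := ?_
      gen := ?_ }
    Tloc := ?_
    Lloc := ?_
    decW := ?_ }⟩
  · exact fun G _ => ⟨0, fun X' _ S _ _ => pre_nil _⟩
  · rintro S hS G - hseg ρ ⟨t, ht⟩
    exact ht (F y) (fun _ _ => rfl) S hS hseg
  · intro S hS n
    obtain ⟨t, ht⟩ := Arn_cont hΨ (hdom (F y) S hS) n
    refine ⟨t, fun G hG hx => ?_⟩
    obtain ⟨x, hx, htx⟩ := hx
    refine ⟨t, fun X' hX' S' hS' hG' => ?_⟩
    have h1 := ht (X', chi S') (hdom X' S' hS') hX'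
      (fun i hi => Arn_chi_eq hG hG' hx (by omega))
    show ini _ _ = _
    rw [ini_length, ini_eq_iff]
    exact h1
  · rintro G G' - hseg ρ ⟨t, ht⟩
    exact ⟨t, fun X' hX' S hS hG' => ht X' hX' S hS (seg_trans hseg hG')⟩
  · intro S hS p q P n1
    have h1 := hgen _ (hdom (F y) S hS)
    refine h1 _ ?_
    have h2 := column_ce (F y) (nm (p, ⟨q, P, n1⟩))
    have h3 : {ρ | ∃ s, F y (cd (nm (p, ⟨q, P, n1⟩)) ρ s) = true} =
        Dset (VV (Φ (F y)) (Lab Φ (fun X h => Ψ (X, h)) (F y)) p) q P n1 := by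
      ext ρ
      exact hcol y (p, ⟨q, P, n1⟩) ρ
    rw [h3] at h2
    exact h2
  · intro y b
    obtain ⟨t, ht⟩ := open_agree (Open_loc hΦ (F y) b) (X := F y) (fun x _ z _ => rfl)
    exact ⟨t, fun y' hy' => ht (F y') (hloc y y' t hy')⟩
  · rintro y G ρ ⟨t, ht⟩
    refine ⟨t, fun y' hy' => ⟨t, fun X' hX' => ht X' fun n hn => ?_⟩⟩
    rw [hX' n hn, hloc y y' t hy' n hn]
  · intro y S hS
    refine hgen _ (hdom (F y) S hS) _ ?_
    have h2 := column_ce (F y) 0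
    have h3 : {ρ | ∃ s, F y (cd 0 ρ s) = true} = W y := by
      ext ρ
      exact hW y ρ
    rw [h3] at h2
    exact h2

end Pool.Agent.helper6.GE
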