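import Pool.Agent.helper6.GE.Off

/-! # GE-BL: finitely many big families with incompatible labels

PROOF of `bl_fin`, by induction on `M` (for all `G`).  `M = 0`: trivial.  `M + 1`: let `N' = N (last)`,
`A0` the family of `off_ibig` for `N'` and `G`, `g : Fin 3 → ℕ → Bool` from `lim_vec` for `A0` and `N'`.
Apply the induction hypothesis to the first `M` triples and the finite set `G ∪ {g 0, g 1, g 2}`.  Let
`n ≥ n0` be larger than the lengths of all labels `r a i B`, `B ∈ A a`.  By `big_finite` and
`lim_vec` there is a finite `K`-big family `A'` of sets `B'`, each in `Fam`, extendible, with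
`Seg B B'` for some `B ∈ A0` and `L (N' i ∪ B') (ini (g i) n)`.  Such a `B` has labels `ρ i` of
`N' i ∪ B`, off `G`; by `Stat.mono` they are labels of `N' i ∪ B'` (`seg_union_fin`), so comparable
with `ini (g i) n` (`Bas.comp`); the label `r' i B'` is the longer one of the two (`exists_longer`);
it is off `G` and extends `l' i = ini (g i) n`.  The old labels are off `g i`, and shorter than
`n`, so incompatible with `ini (g i) n` (`inc_ini`) and with its extensions. -/

namespace Pool.Agent.helper6.GE

variable {T : ℕ → ℕ → Bool} {L : Finset ℕ → List Bool → Prop} {Psi : Set ℕ → ℕ → Bool}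

/-- the output of the lemma -/
structure BLOut (T : ℕ → ℕ → Bool) (L : Finset ℕ → List Bool → Prop) (b : ℕ) (w : ℕ → Bool)
    {ι : Type} (N : ι → Fin 3 → Finset ℕ) (K n0 : ℕ) (G : Finset (ℕ → Bool)) where
  A : ι → Finset (Finset ℕ)
  l : ι → Fin 3 → List Bool
  r : ι → Fin 3 → Finset ℕ → List Bool
  big : ∀ a, Big K (A a : Set (Finset ℕ))
  fam : ∀ a, ∀ B ∈ A a, B ∈ Fam T (Res T b w)
  ext : ∀ a, ∀ B ∈ A a, Ext T (Res T b w) B
  len : ∀ a i, n0 ≤ (l a i).length
  pre : ∀ a i, ∀ B ∈ A a, l a i <+: r a i B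
  lab : ∀ a i, ∀ B ∈ A a, L (N a i ∪ B) (r a i B)
  off : ∀ a i, ∀ B ∈ A a, ∀ g ∈ G, ¬ Pre (r a i B) g
  inc : ∀ a a', a ≠ a' → ∀ i i', ∀ B ∈ A a, ∀ B' ∈ A a', Inc (r a i B) (r a' i' B')

/-- one family: big families of sets with labels extending initial segments of arbitrary length of
three fixed reals, all labels off `G` -/
theorem BL_one (st : Stat T L Psi) {b : ℕ} {w : ℕ → Bool} (hR : (Res T b w).Infinite)
    (N' : Fin 3 → Finset ℕ) (hN : ∀ i, Bas T b w (N' i)) (K : ℕ) (G : Finset (ℕ → Bool)) :
    ∃ g : Fin 3 → ℕ → Bool, ∀ n, ∃ (A' : Finset (Finset ℕ)) (r' : Fin 3 → Finset ℕ → List Bool),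
      Big K (A' : Set (Finset ℕ)) ∧ ∀ B ∈ A', B ∈ Fam T (Res T b w) ∧ Ext T (Res T b w) B ∧
        ∀ i, ini (g i) n <+: r' i B ∧ L (N' i ∪ B) (r' i B) ∧ ∀ g' ∈ G, ¬ Pre (r' i B) g' := by
  obtain ⟨g, hg⟩ := lim_vec st hN (off_ibig st hR hN G) fun B hB => hB.1
  refine ⟨g, fun n => ?_⟩
  obtain ⟨F, hF, hbig⟩ := big_finite (hg n K 0)
  have key : ∀ i : Fin 3, ∀ B : Finset ℕ, ∃ r : List Bool, B ∈ F → ini (g i) n <+: r ∧
      L (N' i ∪ B) r ∧ ∀ g' ∈ G, ¬ Pre r g' := by
    intro i B
    by_cases hB : B ∈ F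
    · obtain ⟨⟨hfam, hext, ⟨B0, ⟨hB0f, hB0⟩, hseg⟩, hl⟩, -⟩ := hF hB
      obtain ⟨ρ, hρ, hoff⟩ := hB0 i
      have hlt : ∀ x ∈ B, b ≤ x := fun x hx => (hfam.2.1 hx).1
      have hs : Seg (N' i ∪ B0) ((N' i ∪ B : Finset ℕ) : Set ℕ) := seg_union_fin (hN i).lt hlt hseg
      have hne : (N' i ∪ B0).Nonempty := hB0f.1.mono Finset.subset_union_right
      have h1 : L (N' i ∪ B) ρ := st.mono _ _ hne hs ρ hρ
      obtain ⟨ν, hν, h2, h3⟩ := exists_longer ((hN i).comp st hfam.1 hext h1 (hl i))
      refine ⟨ν, fun _ => ⟨h3, ?_, fun g' hg' hp => hoff g' hg' (hp.mono h2)⟩⟩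
      rcases hν with rfl | rfl
      · exact h1
      · exact hl i
    · exact ⟨[], fun h => absurd h hB⟩
  choose r' hr' using key
  exact ⟨F, r', hbig, fun B hB => ⟨(hF hB).1.1, (hF hB).1.2.1, fun i => hr' i B hB⟩⟩

theorem BL_all (st : Stat T L Psi) {b : ℕ} {w : ℕ → Bool} (hR : (Res T b w).Infinite)
    (K n0 : ℕ) (ι : Type) [Finite ι] : ∀ (N : ι → Fin 3 → Finset ℕ),
    (∀ a i, Bas T b w (N a i)) → ∀ G : Finset (ℕ → Bool), Nonempty (BLOut T L b w N K n0 G) := by
  classical
  induction ι using Finite.induction_empty_option with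
  | @of_equiv α β e ih =>
    intro N hN G
    obtain ⟨o⟩ := ih (fun a => N (e a)) (fun a i => hN _ i) G
    refine ⟨{
      A := fun a => o.A (e.symm a)
      l := fun a => o.l (e.symm a)
      r := fun a => o.r (e.symm a)
      big := fun a => o.big _
      fam := fun a => o.fam _
      ext := fun a => o.ext _
      len := fun a => o.len _
      pre := fun a => o.pre _
      lab := fun a i B hB => ?_
      off := fun a => o.off _
      inc := fun a a' haa i i' B hB B' hB' =>
        o.inc _ _ (fun h => haa (e.symm.injective h)) i i' B hB B' hB' }⟩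
    have := o.lab (e.symm a) i B hB
    simpa using this
  | h_empty =>
    intro N hN G
    exact ⟨{
      A := fun a => a.elim
      l := fun a => a.elim
      r := fun a => a.elim
      big := fun a => a.elim
      fam := fun a => a.elim
      ext := fun a => a.elim
      len := fun a => a.elim
      pre := fun a => a.elim
      lab := fun a => a.elim
      off := fun a => a.elim
      inc := fun a => a.elim }⟩
  | @h_option α _ ih =>
    intro N hN G
    obtain ⟨g, hg⟩ := BL_one st hR (N none) (hN none) K G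
    obtain ⟨o⟩ := ih (fun a => N (some a)) (fun a i => hN _ i) (G ∪ Finset.univ.image g)
    have hbd : ∃ n, n0 ≤ n ∧ ∀ a i, ∀ B ∈ o.A a, (o.r a i B).length ≤ n := by
      refine ⟨max n0 (Finset.univ.sup fun a : α => Finset.univ.sup fun i : Fin 3 =>
        (o.A a).sup fun B => (o.r a i B).length), le_max_left _ _, fun a i B hB => ?_⟩
      refine le_trans ?_ (le_max_right _ _)
      have h1 : (o.r a i B).length ≤ (o.A a).sup fun B => (o.r a i B).length :=
        Finset.le_sup (f := fun B => (o.r a i B).length) hB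
      have h2 : ((o.A a).sup fun B => (o.r a i B).length) ≤ Finset.univ.sup fun i : Fin 3 =>
          (o.A a).sup fun B => (o.r a i B).length :=
        Finset.le_sup (f := fun i : Fin 3 => (o.A a).sup fun B => (o.r a i B).length)
          (Finset.mem_univ i)
      have h3 := Finset.le_sup (f := fun a : α => Finset.univ.sup fun i : Fin 3 =>
          (o.A a).sup fun B => (o.r a i B).length) (Finset.mem_univ a)
      exact h1.trans (h2.trans h3)
    obtain ⟨n, hn0, hn⟩ := hbd
    obtain ⟨A', r', hbig, hA'⟩ := hg n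
    have hinc : ∀ a i i', ∀ B ∈ o.A a, ∀ B' ∈ A', Inc (o.r a i B) (r' i' B') := by
      intro a i i' B hB B' hB'
      have h1 : ¬ Pre (o.r a i B) (g i') :=
        o.off a i B hB (g i') (Finset.mem_union_right _
          (Finset.mem_image_of_mem g (Finset.mem_univ i')))
      exact (inc_ini h1 (hn a i B hB)).right ((hA' B' hB').2.2 i').1
    refine ⟨{
      A := fun a => match a with
        | none => A'
        | some a => o.A a
      l := fun a => match a with
        | none => fun i => ini (g i) n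
        | some a => o.l a
      r := fun a => match a with
        | none => r'
        | some a => o.r a
      big := ?_
      fam := ?_
      ext := ?_
      len := ?_
      pre := ?_
      lab := ?_
      off := ?_
      inc := ?_ }⟩
    · rintro (_ | a)
      · exact hbig
      · exact o.big a
    · rintro (_ | a)
      · exact fun B hB => (hA' B hB).1
      · exact o.fam a
    · rintro (_ | a)
      · exact fun B hB => (hA' B hB).2.1
      · exact o.ext a
    · rintro (_ | a) i
      · simpa [ini_length] using hn0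
      · exact o.len a i
    · rintro (_ | a) i
      · exact fun B hB => ((hA' B hB).2.2 i).1
      · exact o.pre a i
    · rintro (_ | a) i
      · exact fun B hB => ((hA' B hB).2.2 i).2.1
      · exact o.lab a i
    · rintro (_ | a) i
      · exact fun B hB => ((hA' B hB).2.2 i).2.2
      · exact fun B hB g' hg' => o.off a i B hB g' (Finset.mem_union_left _ hg')
    · rintro (_ | a) (_ | a') haa i i' B hB B' hB'
      · exact absurd rfl haa
      · exact (hinc a' i' i B' hB' B hB).symm
      · exact hinc a i i' B hB B' hB'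
      · exact o.inc a a' (fun h => haa (by rw [h])) i i' B hB B' hB'

theorem bl_fin (st : Stat T L Psi) {b : ℕ} {w : ℕ → Bool} (hR : (Res T b w).Infinite) (M : ℕ)
    (N : Fin M → Fin 3 → Finset ℕ) (hN : ∀ a i, Bas T b w (N a i)) (K n0 : ℕ)
    (G : Finset (ℕ → Bool)) : Nonempty (BLOut T L b w N K n0 G) :=
  BL_all st hR K n0 (Fin M) N hN G

theorem bl (st : Stat T L Psi) {b : ℕ} {w : ℕ → Bool} (hR : (Res T b w).Infinite) {ι : Type}
    [Finite ι] (N : ι → Fin 3 → Finset ℕ) (hN : ∀ a i, Bas T b w (N a i)) (K n0 : ℕ) :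
    Nonempty (BLOut T L b w N K n0 ∅) :=
  BL_all st hR K n0 ι N hN ∅

end Pool.Agent.helper6.GE
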