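import Pool.Agent.helper6.GE.Defs

/-! # GE-Big: big families -/

namespace Pool.Agent.helper6.GE

open Filter Topology

theorem big_mono {K : ℕ} {A B : Set (Finset ℕ)} (h : Big K A) (hs : A ⊆ B) : Big K B := by
  intro c
  obtain ⟨C, hC, k, hk⟩ := h c
  exact ⟨C, hs hC, k, hk⟩

theorem big_le {K K' : ℕ} {A : Set (Finset ℕ)} (hK : K ≤ K') (h : Big K' A) : Big K A := by
  intro c
  obtain ⟨C, hC, k, hk⟩ := h fun n => Fin.castLE hK (c n)
  rcases C.eq_empty_or_nonempty with hE | ⟨z, hz⟩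
  · exact ⟨C, hC, c 0, fun x hx => by rw [hE] at hx; exact absurd hx (Finset.notMem_empty x)⟩
  · refine ⟨C, hC, c z, fun x hx => ?_⟩
    have := (hk x hx).trans (hk z hz).symm
    exact Fin.castLE_injective hK this

theorem big_fintype {κ : Type*} [Fintype κ] {A : Set (Finset ℕ)} (h : Big (Fintype.card κ) A)
    (c : ℕ → κ) : ∃ B ∈ A, ∃ k, ∀ x ∈ B, c x = k := by
  obtain ⟨B, hB, k, hk⟩ := h fun n => Fintype.equivFin κ (c n)
  exact ⟨B, hB, (Fintype.equivFin κ).symm k, fun x hx => by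
    rw [← hk x hx, Equiv.symm_apply_apply]⟩

theorem big_union {K K' : ℕ} {A B : Set (Finset ℕ)} (h : Big (K * K') (A ∪ B)) :
    Big K A ∨ Big K' B := by
  by_contra hcon
  push Not at hcon
  obtain ⟨h1, h2⟩ := hcon
  unfold Big at h1 h2
  push Not at h1 h2
  obtain ⟨c1, hc1⟩ := h1
  obtain ⟨c2, hc2⟩ := h2
  have h' : Big (Fintype.card (Fin K × Fin K')) (A ∪ B) := by
    rw [Fintype.card_prod, Fintype.card_fin, Fintype.card_fin]
    exact h
  obtain ⟨C, hC, k, hk⟩ := big_fintype h' fun n => (c1 n, c2 n)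
  rcases hC with hC | hC
  · obtain ⟨x, hx, hx'⟩ := hc1 C hC k.1
    exact hx' (congrArg Prod.fst (hk x hx))
  · obtain ⟨x, hx, hx'⟩ := hc2 C hC k.2
    exact hx' (congrArg Prod.snd (hk x hx))

/-- compactness -/
theorem big_finite {K : ℕ} {A : Set (Finset ℕ)} (h : Big K A) :
    ∃ F : Finset (Finset ℕ), (F : Set (Finset ℕ)) ⊆ A ∧ Big K (F : Set (Finset ℕ)) := by
  classical
  by_contra hcon
  push Not at hcon
  -- the closed sets of colourings with no monochromatic member `B`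
  let Z : A → Set (ℕ → Fin K) := fun B => {c | ¬ ∃ k, ∀ x ∈ B.1, c x = k}
  have hclosed : ∀ B, IsClosed (Z B) := by
    intro B
    have : (Z B)ᶜ = ⋃ k, ⋂ x ∈ B.1, ((fun c : ℕ → Fin K => c x) ⁻¹' {k}) := by
      ext c
      simp [Z]
    rw [← isOpen_compl_iff, this]
    refine isOpen_iUnion fun k => ?_
    refine isOpen_biInter_finset fun x _ => ?_
    exact (isOpen_discrete {k}).preimage (continuous_apply x)
  have hne : (⋂ B, Z B).Nonempty := by
    refine CompactSpace.iInter_nonempty hclosed fun t => ?_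
    have h1 := hcon (t.image Subtype.val) (by
      intro B hB
      simp only [Finset.coe_image, Set.mem_image] at hB
      obtain ⟨B', _, rfl⟩ := hB
      exact B'.2)
    unfold Big at h1
    push Not at h1
    obtain ⟨c, hc⟩ := h1
    refine ⟨c, ?_⟩
    simp only [Set.mem_iInter]
    intro B hB
    simp only [Z, Set.mem_ofPred_eq, not_exists, not_forall]
    intro k
    obtain ⟨x, hx, hx'⟩ := hc B.1 (by
      simp only [Finset.coe_image, Set.mem_image]
      exact ⟨B, hB, rfl⟩) k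
    exact ⟨x, hx, hx'⟩
  obtain ⟨c, hc⟩ := hne
  obtain ⟨B, hB, hk⟩ := h c
  simp only [Set.mem_iInter] at hc
  exact hc ⟨B, hB⟩ hk

theorem ibig_mono {A B : Set (Finset ℕ)} (h : IBig A) (hs : A ⊆ B) : IBig B :=
  fun K m => big_mono (h K m) fun _ hC => ⟨hs hC.1, hC.2⟩

theorem ibig_beyond {A : Set (Finset ℕ)} (h : IBig A) (m : ℕ) :
    IBig {B | B ∈ A ∧ ∀ x ∈ B, m < x} := by
  intro K m'
  refine big_mono (h K (max m m')) ?_
  rintro B ⟨h1, h2⟩
  exact ⟨⟨h1, fun x hx => lt_of_le_of_lt (le_max_left _ _) (h2 x hx)⟩,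
    fun x hx => lt_of_le_of_lt (le_max_right _ _) (h2 x hx)⟩

/-- an infinitely big family has members beyond `m` on which a colouring by a finite type is
constant -/
theorem ibig_fintype {κ : Type*} [Fintype κ] {A : Set (Finset ℕ)} (h : IBig A) (m : ℕ)
    (c : ℕ → κ) : ∃ B ∈ A, (∀ x ∈ B, m < x) ∧ ∃ k, ∀ x ∈ B, c x = k := by
  obtain ⟨B, hB, hk⟩ := big_fintype (h (Fintype.card κ) m) c
  exact ⟨B, hB.1, hB.2, hk⟩

theorem ibig_union {A B : Set (Finset ℕ)} (h : IBig (A ∪ B)) : IBig A ∨ IBig B := by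
  by_contra hcon
  push Not at hcon
  obtain ⟨h1, h2⟩ := hcon
  unfold IBig at h1 h2
  push Not at h1 h2
  obtain ⟨K1, m1, h1⟩ := h1
  obtain ⟨K2, m2, h2⟩ := h2
  have h3 : Big (K1 * K2) ({B | B ∈ A ∧ ∀ x ∈ B, m1 < x} ∪ {C | C ∈ B ∧ ∀ x ∈ C, m2 < x}) := by
    refine big_mono (h (K1 * K2) (max m1 m2)) ?_
    rintro C ⟨hC, hx⟩
    rcases hC with hC | hC
    · exact Or.inl ⟨hC, fun x hx' => lt_of_le_of_lt (le_max_left _ _) (hx x hx')⟩
    · exact Or.inr ⟨hC, fun x hx' => lt_of_le_of_lt (le_max_right _ _) (hx x hx')⟩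
  rcases big_union h3 with h4 | h4
  · exact h1 h4
  · exact h2 h4

theorem not_ibig_empty : ¬ IBig (∅ : Set (Finset ℕ)) := by
  intro h
  obtain ⟨B, hB, _⟩ := h 1 0 fun _ => 0
  exact hB.1

theorem ibig_finset {ι : Type*} (s : Finset ι) (A : ι → Set (Finset ℕ))
    (h : IBig (⋃ i ∈ s, A i)) : ∃ i ∈ s, IBig (A i) := by
  classical
  induction s using Finset.induction_on with
  | empty => simp at h; exact absurd h not_ibig_empty
  | insert a s _ ih =>
    rw [Finset.set_biUnion_insert] at h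
    rcases ibig_union h with h1 | h1
    · exact ⟨a, Finset.mem_insert_self a s, h1⟩
    · obtain ⟨i, hi, h2⟩ := ih h1
      exact ⟨i, Finset.mem_insert_of_mem hi, h2⟩

/-- one of finitely many families covering an infinitely big family is infinitely big -/
theorem ibig_cover {ι : Type*} [Finite ι] (A : ι → Set (Finset ℕ)) {B : Set (Finset ℕ)}
    (h : IBig B) (hs : ∀ C ∈ B, ∃ i, C ∈ A i) : ∃ i, IBig (A i) := by
  classical
  obtain ⟨_⟩ := nonempty_fintype ι
  obtain ⟨i, -, hi⟩ := ibig_finset (Finset.univ : Finset ι) A (ibig_mono h fun C hC => by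
    obtain ⟨i, hi⟩ := hs C hC
    simp only [Finset.mem_univ, Set.iUnion_true, Set.mem_iUnion]
    exact ⟨i, hi⟩)
  exact ⟨i, hi⟩

/-- a `32`-big family has a `4`-big part on which a given pattern is constant -/
theorem big_colour {Z : Finset (Finset ℕ)} (h : Big 32 (Z : Set (Finset ℕ))) (w : ℕ → Bool) :
    ∃ e, Big 4 {C | C ∈ Z ∧ ∀ x ∈ C, w x = e} := by
  by_contra hcon
  push Not at hcon
  unfold Big at hcon
  push Not at hcon
  choose c hc using hcon
  have h' : Big (Fintype.card (Bool × Fin 4 × Fin 4)) (Z : Set (Finset ℕ)) := by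
    simpa using h
  obtain ⟨C, hC, k, hk⟩ := big_fintype h' fun n => (w n, c true n, c false n)
  rcases hk1 : k.1 with _ | _
  · obtain ⟨x, hx, hx'⟩ := hc false C ⟨hC, fun x hx => by rw [← hk1, ← hk x hx]⟩ k.2.2
    exact hx' (by rw [← hk x hx])
  · obtain ⟨x, hx, hx'⟩ := hc true C ⟨hC, fun x hx => by rw [← hk1, ← hk x hx]⟩ k.2.1
    exact hx' (by rw [← hk x hx])

end Pool.Agent.helper6.GE
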