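import Mathlib

/-!
# Project GE (helper6, MP_7873ca_lc): `GEN_1` is not Weihrauch reducible to `EM`

Definitions.  Strings are `List Bool`, reals are `ℕ → Bool`, a tournament is a function
`T : ℕ → ℕ → Bool` (`T x y = true` means `x → y`).  The paper proof of the project is
`/team-store/helper6_ge_proof.md`.
-/

namespace Pool.Agent.helper6.GE

/-! ### strings and reals -/

/-- initial segment of length `n` of a real -/
def ini (g : ℕ → Bool) (n : ℕ) : List Bool := (List.range n).map g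

/-- `σ` is an initial segment of the real `g` -/
def Pre (σ : List Bool) (g : ℕ → Bool) : Prop := ini g σ.length = σ

/-- incompatible strings -/
def Inc (σ τ : List Bool) : Prop := ¬ σ <+: τ ∧ ¬ τ <+: σ

/-- the real `g` meets `D` (some initial segment is in `D`) or avoids `D` (some initial segment has
no extension in `D`) -/
def Dec (g : ℕ → Bool) (D : Set (List Bool)) : Prop :=
  (∃ n, ini g n ∈ D) ∨ ∃ n, ∀ τ ∈ D, ¬ ini g n <+: τ

/-! ### tournaments -/

/-- `T` is a tournament -/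
def Tour (T : ℕ → ℕ → Bool) : Prop :=
  (∀ x, T x x = false) ∧ ∀ x y, x ≠ y → T x y = !T y x

/-- `T` is transitive on `S` -/
def TransOn (T : ℕ → ℕ → Bool) (S : Set ℕ) : Prop :=
  ∀ x ∈ S, ∀ y ∈ S, ∀ z ∈ S, T x y = true → T y z = true → T x z = true

/-- `S` is a solution: infinite and transitive -/
def Sol (T : ℕ → ℕ → Bool) (S : Set ℕ) : Prop := S.Infinite ∧ TransOn T S

/-- the finite set `F` is an initial segment of `S` -/
def Seg (F : Finset ℕ) (S : Set ℕ) : Prop :=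
  (F : Set ℕ) ⊆ S ∧ ∀ x ∈ S, x ∉ F → ∀ z ∈ F, z < x

/-- the node `N` is alive for the pattern `w` (`w v = true` means `v → y` for the future
elements `y`): `N` is transitive and `N ∪ {y}` is transitive for all `y` with pattern `w` -/
def Al (T : ℕ → ℕ → Bool) (N : Finset ℕ) (w : ℕ → Bool) : Prop :=
  TransOn T (N : Set ℕ) ∧ ∀ x ∈ N, ∀ z ∈ N, T x z = true → w z = true → w x = true

/-- the elements `≥ b` whose pattern on `[0, b)` is `w` -/
def Res (T : ℕ → ℕ → Bool) (b : ℕ) (w : ℕ → Bool) : Set ℕ :=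
  {x | b ≤ x ∧ ∀ v < b, T v x = w v}

/-- the nonempty finite transitive subsets of `R` -/
def Fam (T : ℕ → ℕ → Bool) (R : Set ℕ) : Set (Finset ℕ) :=
  {B | B.Nonempty ∧ (B : Set ℕ) ⊆ R ∧ TransOn T (B : Set ℕ)}

/-- `B` is an initial segment of a solution inside `R` -/
def Ext (T : ℕ → ℕ → Bool) (R : Set ℕ) (B : Finset ℕ) : Prop :=
  ∃ S : Set ℕ, S ⊆ R ∧ Sol T S ∧ Seg B S

/-- the limit pattern along an ultrafilter -/
noncomputable def pat (T : ℕ → ℕ → Bool) (U : Ultrafilter ℕ) (v : ℕ) : Bool := by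
  classical exact decide (∀ᶠ y in (U : Filter ℕ), T v y = true)

/-! ### big families of finite sets -/

/-- every colouring with `K` colours is constant on some member of `A` -/
def Big (K : ℕ) (A : Set (Finset ℕ)) : Prop :=
  ∀ c : ℕ → Fin K, ∃ B ∈ A, ∃ k, ∀ x ∈ B, c x = k

/-- the members beyond any bound are `K`-big for all `K` -/
def IBig (A : Set (Finset ℕ)) : Prop :=
  ∀ K m : ℕ, Big K {B | B ∈ A ∧ ∀ x ∈ B, m < x}

/-! ### the sets of strings which the reals have to decide -/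

/-- parameters of `VV` -/
structure Par where
  b : ℕ
  w : Finset ℕ
  N : Fin 3 → Finset ℕ
  K : ℕ
  m : ℕ

/-- the vectors of strings of length `n` which are labels of all members of a finite big family -/
def VV (T : ℕ → ℕ → Bool) (L : Finset ℕ → List Bool → Prop) (p : Par) (n : ℕ) :
    Set (Fin 3 → List Bool) :=
  {l | (∀ i, (l i).length = n) ∧ ∃ A : Finset (Finset ℕ), Big p.K (A : Set (Finset ℕ)) ∧
    ∀ B ∈ A, B ∈ Fam T (Res T p.b fun v => decide (v ∈ p.w)) ∧ (∀ x ∈ B, p.m < x) ∧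
      ∀ i, L (p.N i ∪ B) (l i)}

/-- the strings `ρ` extending `P 0` for which no tuple of reals extending `P`, the first one
extending `ρ`, hits all vectors of `V n`, `n ≥ n1` -/
def Dset (V : ℕ → Set (Fin 3 → List Bool)) (q : ℕ) (P : Fin (q + 1) → List Bool) (n1 : ℕ) :
    Set (List Bool) :=
  {ρ | P 0 <+: ρ ∧ ¬ ∃ x : Fin (q + 1) → ℕ → Bool, (∀ j, Pre (P j) (x j)) ∧ Pre ρ (x 0) ∧
    ∀ n, n1 ≤ n → ∀ l ∈ V n, ∃ i j, Pre (l i) (x j)}

/-- the static data: a tournament, labels `L F ρ` (the string `ρ` is forced by the finite initial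
segment `F` of the solution), and the functional -/
structure Stat (T : ℕ → ℕ → Bool) (L : Finset ℕ → List Bool → Prop) (Psi : Set ℕ → ℕ → Bool) :
    Prop where
  tour : Tour T
  nil : ∀ F : Finset ℕ, F.Nonempty → L F []
  sound : ∀ S, Sol T S → ∀ F : Finset ℕ, F.Nonempty → Seg F S → ∀ ρ, L F ρ → Pre ρ (Psi S)
  compl : ∀ S, Sol T S → ∀ n, ∃ b, ∀ F : Finset ℕ, Seg F S → (∃ x ∈ F, b ≤ x) →
    L F (ini (Psi S) n)
  mono : ∀ F F' : Finset ℕ, F.Nonempty → Seg F (F' : Set ℕ) → ∀ ρ, L F ρ → L F' ρ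
  gen : ∀ S, Sol T S → ∀ (p : Par) (q : ℕ) (P : Fin (q + 1) → List Bool) (n1 : ℕ),
    Dec (Psi S) (Dset (VV T L p) q P n1)

/-! ### items -/

/-- an item: creation step, source node, bound, pattern on `[0, b)`, the two bases (for the two
colours of the sets in `Z`), the family `Z`, the labels of `N e ∪ C`, the active colour (`none`: both
colours are active) -/
structure Item where
  c : ℕ
  src : Finset ℕ
  b : ℕ
  u : ℕ → Bool
  N : Bool → Finset ℕ
  Z : Finset (Finset ℕ)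
  r : Bool → Finset ℕ → List Bool
  act : Option Bool

/-- the colour `e` is active -/
def Item.Actv (θ : Item) (e : Bool) : Prop := θ.act = none ∨ θ.act = some e

/-- the patterns treated by the item -/
def Item.Dom (θ : Item) (w : ℕ → Bool) : Prop :=
  (∀ v < θ.b, w v = θ.u v) ∧ ∀ e, θ.act = some e → ∀ C ∈ θ.Z, ¬ ∀ x ∈ C, w x = !e

/-- the item is correct for the tournament `T` and the labels `L`; all elements are `< β` -/
structure Item.OK (T : ℕ → ℕ → Bool) (L : Finset ℕ → List Bool → Prop) (β : ℕ) (θ : Item) :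
    Prop where
  hb : θ.b ≤ β
  N_lt : ∀ e, ∀ x ∈ θ.N e, x < θ.b
  seg : ∀ e, Seg θ.src (θ.N e : Set ℕ)
  Zne : ∀ C ∈ θ.Z, C.Nonempty
  Zlt : ∀ C ∈ θ.Z, ∀ x ∈ C, θ.b ≤ x ∧ x < β
  al : ∀ e, θ.Actv e → ∀ C ∈ θ.Z, ∀ w : ℕ → Bool, (∀ v < θ.b, w v = θ.u v) →
    (∀ x ∈ C, w x = e) → Al T (θ.N e ∪ C) w
  lab : ∀ e, θ.Actv e → ∀ C ∈ θ.Z, L (θ.N e ∪ C) (θ.r e C) ∧ θ.c ≤ (θ.r e C).length
  big : Big (if θ.act = none then 32 else 4) (θ.Z : Set (Finset ℕ))

/-- the labels of different active classes are incompatible -/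
def Sep (S : Set Item) : Prop :=
  ∀ θ ∈ S, ∀ θ' ∈ S, ∀ e e', θ.Actv e → θ'.Actv e' → (θ ≠ θ' ∨ e ≠ e') →
    ∀ C ∈ θ.Z, ∀ C' ∈ θ'.Z, Inc (θ.r e C) (θ'.r e' C')

/-! ### the arena -/

/-- coding of the columns -/
def cd (j : ℕ) (ρ : List Bool) (s : ℕ) : ℕ := Nat.pair j (Nat.pair (Encodable.encode ρ) s)

/-- the set of strings enumerated by `y` -/
def W (y : ℕ → Bool) : Set (List Bool) := {ρ | ∃ s, y (cd 0 ρ s) = true}

/-- a family of static data depending continuously on `y`, such that all reals `Psi y S` decide the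
set `W y` -/
structure Arena where
  T : (ℕ → Bool) → ℕ → ℕ → Bool
  L : (ℕ → Bool) → Finset ℕ → List Bool → Prop
  Psi : (ℕ → Bool) → Set ℕ → ℕ → Bool
  stat : ∀ y, Stat (T y) (L y) (Psi y)
  Tloc : ∀ y (b : ℕ), ∃ t : ℕ, ∀ y', (∀ n < t, y' n = y n) → ∀ x < b, ∀ z < b, T y' x z = T y x z
  Lloc : ∀ y F ρ, L y F ρ → ∃ t : ℕ, ∀ y', (∀ n < t, y' n = y n) → L y' F ρ
  decW : ∀ y S, Sol (T y) S → Dec (Psi y S) (W y)

/-- a state of the construction after `n` acts -/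
structure St (A : Arena) (n : ℕ) where
  y : ℕ → Bool
  t : ℕ
  β : ℕ
  S : Set Item
  fin : S.Finite
  y0 : ∀ m, t ≤ m → y m = false
  tn : n ≤ t
  Tst : ∀ y', (∀ m < t, y' m = y m) → ∀ x < β, ∀ z < β, A.T y' x z = A.T y x z
  Lst : ∀ y', (∀ m < t, y' m = y m) → ∀ θ ∈ S, ∀ e, θ.Actv e → ∀ C ∈ θ.Z,
    A.L y' (θ.N e ∪ C) (θ.r e C)
  ok : ∀ θ ∈ S, θ.OK (A.T y) (A.L y) β ∧ θ.c ≤ n
  sep : Sep S
  sepW : ∀ θ ∈ S, ∀ e, θ.Actv e → ∀ C ∈ θ.Z, ∀ τ ∈ W y, Inc τ (θ.r e C)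
  cover : ∀ w : ℕ → Bool, ∃ θ ∈ S, θ.Dom w

/-- the transition from a state to the next one: the colour `e` of the item `θ` is served -/
structure Nxt {A : Arena} {n : ℕ} (s : St A n) (s' : St A (n + 1)) where
  θ : Item
  e : Bool
  Z' : Finset (Finset ℕ)
  half : Item
  tau : Finset ℕ → List Bool
  mem : θ ∈ s.S
  actv : θ.Actv e
  sub : Z' ⊆ θ.Z
  agree : ∀ m < s.t, s'.y m = s.y m
  ht : s.t ≤ s'.t
  hβ : s.β ≤ s'.β
  htau : ∀ C ∈ Z', θ.r e C <+: tau C ∧ tau C ∈ W s'.y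
  half_c : half.c = θ.c
  half_src : half.src = θ.src
  half_act : half.act ≠ none
  new : ∀ θ' ∈ s'.S, (θ' ∈ s.S ∧ θ' ≠ θ) ∨ (θ.act = none ∧ θ' = half) ∨
    (θ'.c = n + 1 ∧ ∃ C ∈ Z', θ'.src = θ.N e ∪ C)

end Pool.Agent.helper6.GE
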