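import Pool.Agent.helper6.GE.Ram
import Pool.Agent.helper6.GE.Str

/-! # GE-ExtL: extendible labelled families and limit vectors

Throughout `R = Res T b w`, `N : Fin 3 → Finset ℕ` three finite subsets of `[0, b)` alive for `w`. -/

namespace Pool.Agent.helper6.GE

variable {T : ℕ → ℕ → Bool} {L : Finset ℕ → List Bool → Prop} {Psi : Set ℕ → ℕ → Bool}

/-- a finite subset of `[0, b)` alive for `w` -/
structure Bas (T : ℕ → ℕ → Bool) (b : ℕ) (w : ℕ → Bool) (N : Finset ℕ) : Prop where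
  lt : ∀ x ∈ N, x < b
  al : Al T N w

theorem Bas.sol (st : Stat T L Psi) {b : ℕ} {w : ℕ → Bool} {N : Finset ℕ} (hN : Bas T b w N)
    {S : Set ℕ} (hS : S ⊆ Res T b w) (hSol : Sol T S) : Sol T ((N : Set ℕ) ∪ S) := by
  refine ⟨hSol.1.mono Set.subset_union_right, ?_⟩
  refine al_union st.tour hN.al ?_ hSol.2
  intro x hx v hv
  exact (hS hx).2 v (hN.lt v hv)

theorem Bas.seg {b : ℕ} {w : ℕ → Bool} {N : Finset ℕ} (hN : Bas T b w N)
    {S : Set ℕ} (hS : S ⊆ Res T b w) {B : Finset ℕ} (hB : Seg B S) :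
    Seg (N ∪ B) ((N : Set ℕ) ∪ S) := by
  exact seg_union hN.lt (fun x hx => (hS hx).1) hB

/-- the labels of `N ∪ B`, `B` a nonempty initial segment of a solution `S`, are initial segments of
`Psi (N ∪ S)` -/
theorem Bas.pre (st : Stat T L Psi) {b : ℕ} {w : ℕ → Bool} {N : Finset ℕ} (hN : Bas T b w N)
    {S : Set ℕ} (hS : S ⊆ Res T b w) (hSol : Sol T S) {B : Finset ℕ} (hne : B.Nonempty)
    (hB : Seg B S) {ρ : List Bool} (hρ : L (N ∪ B) ρ) : Pre ρ (Psi ((N : Set ℕ) ∪ S)) := by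
  exact st.sound _ (Bas.sol st hN hS hSol) _ (hne.mono Finset.subset_union_right)
    (Bas.seg hN hS hB) ρ hρ

/-- two labels of `N ∪ B`, `B` extendible, are comparable -/
theorem Bas.comp (st : Stat T L Psi) {b : ℕ} {w : ℕ → Bool} {N : Finset ℕ} (hN : Bas T b w N)
    {B : Finset ℕ} (hne : B.Nonempty) (hB : Ext T (Res T b w) B) {ρ ρ' : List Bool}
    (hρ : L (N ∪ B) ρ) (hρ' : L (N ∪ B) ρ') : ρ <+: ρ' ∨ ρ' <+: ρ := by
  obtain ⟨S, hS, hSol, hseg⟩ := hB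
  exact (Bas.pre st hN hS hSol hne hseg hρ).comp (Bas.pre st hN hS hSol hne hseg hρ')

/-- a label of `F` is an initial segment of every longer label of `F ∪ C`, `C` extendible -/
theorem Bas.ext_label (st : Stat T L Psi) {b : ℕ} {w : ℕ → Bool} {F : Finset ℕ}
    (hN : Bas T b w F) (hF : F.Nonempty) {C : Finset ℕ} (hne : C.Nonempty)
    (hC : Ext T (Res T b w) C) {ρ ρ' : List Bool} (hρ : L F ρ) (hρ' : L (F ∪ C) ρ')
    (hl : ρ.length ≤ ρ'.length) : ρ <+: ρ' := by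
  have h1 : L (F ∪ C) ρ := by
    refine st.mono F (F ∪ C) hF ?_ ρ hρ
    obtain ⟨S, hS, -, hseg⟩ := hC
    exact seg_left_fin hN.lt fun x hx => (hS (hseg.1 hx)).1
  rcases Bas.comp st hN hne hC h1 hρ' with h2 | h2
  · exact h2
  · rw [h2.eq_of_length (le_antisymm h2.length_le hl)]

/-- PROOF: `N i ∪ S` is a solution; `Stat.compl` gives bounds `b i`; `exists_seg` with the maximum of
the `b i`. -/
theorem lab_at (st : Stat T L Psi) {b : ℕ} {w : ℕ → Bool} {N : Fin 3 → Finset ℕ}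
    (hN : ∀ i, Bas T b w (N i)) {S : Set ℕ} (hS : S ⊆ Res T b w) (hSol : Sol T S) {B : Finset ℕ}
    (hB : Seg B S) (n : ℕ) :
    ∃ B' : Finset ℕ, Seg B (B' : Set ℕ) ∧ Seg B' S ∧ B'.Nonempty ∧
      ∀ i, L (N i ∪ B') (ini (Psi ((N i : Set ℕ) ∪ S)) n) := by
  have h1 : ∀ i, ∃ c : ℕ, ∀ F : Finset ℕ, Seg F ((N i : Set ℕ) ∪ S) → (∃ x ∈ F, c ≤ x) →
      L F (ini (Psi ((N i : Set ℕ) ∪ S)) n) := fun i => st.compl _ (Bas.sol st (hN i) hS hSol) n
  choose c hc using h1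
  obtain ⟨B', h2, h3, x, hx, hxc⟩ := exists_seg hSol.1 hB (∑ i, c i)
  refine ⟨B', h3, h2, ⟨x, hx⟩, fun i => ?_⟩
  refine hc i (N i ∪ B') (Bas.seg (hN i) hS h2) ⟨x, Finset.mem_union_right _ hx, ?_⟩
  have h4 : c i ≤ ∑ i, c i := Finset.single_le_sum (fun _ _ => Nat.zero_le _) (Finset.mem_univ i)
  omega

/-- PROOF: given `K, m, c` take `m', c'` from `key_mono` (for `R = Res T b w`); by `ibig_fintype`
some `B ∈ A` beyond `m'` is `c'`-constant; this gives `S`, and `lab_at` gives `B'`. -/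
theorem ext_ibig (st : Stat T L Psi) {b : ℕ} {w : ℕ → Bool} {N : Fin 3 → Finset ℕ}
    (hN : ∀ i, Bas T b w (N i)) {A : Set (Finset ℕ)} (hA : IBig A)
    (hAF : A ⊆ Fam T (Res T b w)) (n : ℕ) :
    IBig {B' | B' ∈ Fam T (Res T b w) ∧ Ext T (Res T b w) B' ∧ (∃ B ∈ A, Seg B (B' : Set ℕ)) ∧
      ∀ i, ∃ r : List Bool, r.length = n ∧ L (N i ∪ B') r} := by
  intro K m c
  obtain ⟨m', -, c', H⟩ := key_mono st.tour (Res T b w) c m
  obtain ⟨B, hB, hBm, hk⟩ := ibig_fintype hA m' c'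
  obtain ⟨S, hS, hSol, hseg, hSm, k, hSk⟩ := H B (hAF hB) hBm hk
  obtain ⟨B', h1, h2, h3, h4⟩ := lab_at st hN hS hSol hseg n
  refine ⟨B', ⟨⟨⟨h3, h2.1.trans hS, hSol.2.mono h2.1⟩, ⟨S, hS, hSol, h2⟩, ⟨B, hB, h1⟩,
    fun i => ⟨_, ini_length _ _, h4 i⟩⟩, fun x hx => hSm x (h2.1 hx)⟩, k,
    fun x hx => hSk x (h2.1 hx)⟩

end Pool.Agent.helper6.GE
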