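import Pool.Agent.helper6.GE.Defs

/-! # GE-Fib: every item is served at most twice; the sources of the created items

PROOF of `fibre_finite`.  For `n ≥ a` put `φ n = Σ (if θ.act = none then 2 else 1)` over the
`θ ∈ (s n).S` with `θ.c = a`.  By `Nxt.new` (for `n ≥ a` the new items have `c = n + 1 ≠ a`, and
`half.c = θ.c`, `half.act ≠ none`) `φ (n + 1) ≤ φ n`, and `φ (n + 1) < φ n` if `(d n).θ.c = a`.  So
there are at most `φ a` numbers `m ≥ a` with `(d m).θ.c = a`.

PROOF of `src_of_created`: induction on `n`.  `n = m + 1`: by `Nxt.new`; the items of `s m` have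
`c ≤ m` (`St.ok`), also `half` (`half_c`, `mem`).  Step: by `Nxt.new` for `n`: old item: induction
hypothesis; `half`: `half_c`, `half_src`, `mem`, induction hypothesis; new item: `c = n + 1 ≠ m + 1`. -/

namespace Pool.Agent.helper6.GE

open Classical in
/-- the potential -/
noncomputable def Fib_phi {A : Arena} (s : ∀ n, St A n) (a n : ℕ) : ℕ :=
  ∑ θ ∈ (s n).fin.toFinset.filter (fun θ => θ.c = a), (if θ.act = none then 2 else 1)

theorem Fib_le {A : Arena} (s : ∀ n, St A n) (d : ∀ n, Nxt (s n) (s (n + 1))) {a n : ℕ}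
    (hn : a ≤ n) : Fib_phi s a (n + 1) ≤ Fib_phi s a n ∧
      ((d n).θ.c = a → Fib_phi s a (n + 1) < Fib_phi s a n) := by
  classical
  set S := (s n).fin.toFinset.filter (fun θ => θ.c = a) with hS
  set S' := (s (n + 1)).fin.toFinset.filter (fun θ => θ.c = a) with hS'
  have e1 : Fib_phi s a (n + 1) = ∑ θ ∈ S', (if θ.act = none then 2 else 1) := by
    rw [hS']
    unfold Fib_phi
    congr
  have e2 : Fib_phi s a n = ∑ θ ∈ S, (if θ.act = none then 2 else 1) := by
    rw [hS]
    unfold Fib_phi
    congr
  have hnew : ∀ θ' ∈ S', (θ' ∈ S ∧ θ' ≠ (d n).θ) ∨ ((d n).θ.act = none ∧ θ' = (d n).half) := by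
    intro θ' h'
    rw [hS', Finset.mem_filter, Set.Finite.mem_toFinset] at h'
    rcases (d n).new θ' h'.1 with h1 | h1 | h1
    · left
      refine ⟨?_, h1.2⟩
      rw [hS, Finset.mem_filter, Set.Finite.mem_toFinset]
      exact ⟨h1.1, h'.2⟩
    · right
      exact h1
    · have := h1.1
      have := h'.2
      omega
  by_cases hθ : (d n).θ.c = a
  · have hmem : (d n).θ ∈ S := by
      rw [hS, Finset.mem_filter, Set.Finite.mem_toFinset]
      exact ⟨(d n).mem, hθ⟩
    have hsum := Finset.sum_erase_add S (fun θ : Item => if θ.act = none then 2 else 1) hmem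
    have hlt : Fib_phi s a (n + 1) < Fib_phi s a n := by
      rw [e1, e2, ← hsum]
      by_cases hact : (d n).θ.act = none
      · have hsub : S' ⊆ insert (d n).half (S.erase (d n).θ) := by
          intro θ' h'
          rcases hnew θ' h' with h1 | h1
          · exact Finset.mem_insert_of_mem (Finset.mem_erase.2 ⟨h1.2, h1.1⟩)
          · rw [h1.2]
            exact Finset.mem_insert_self _ _
        have h1 : ∑ θ ∈ S', (if θ.act = none then 2 else 1) ≤
            ∑ θ ∈ insert (d n).half (S.erase (d n).θ), (if θ.act = none then 2 else 1) :=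
          Finset.sum_le_sum_of_subset hsub
        have h2 : ∑ θ ∈ insert (d n).half (S.erase (d n).θ), (if θ.act = none then 2 else 1) ≤
            1 + ∑ θ ∈ S.erase (d n).θ, (if θ.act = none then 2 else 1) := by
          by_cases hin : (d n).half ∈ S.erase (d n).θ
          · rw [Finset.insert_eq_of_mem hin]
            omega
          · rw [Finset.sum_insert hin, if_neg (d n).half_act]
        simp only [if_pos hact]
        omega
      · have hsub : S' ⊆ S.erase (d n).θ := by
          intro θ' h'
          rcases hnew θ' h' with h1 | h1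
          · exact Finset.mem_erase.2 ⟨h1.2, h1.1⟩
          · exact absurd h1.1 hact
        have h1 : ∑ θ ∈ S', (if θ.act = none then 2 else 1) ≤
            ∑ θ ∈ S.erase (d n).θ, (if θ.act = none then 2 else 1) :=
          Finset.sum_le_sum_of_subset hsub
        simp only [if_neg hact]
        omega
    exact ⟨hlt.le, fun _ => hlt⟩
  · refine ⟨?_, fun h => absurd h hθ⟩
    rw [e1, e2]
    apply Finset.sum_le_sum_of_subset
    intro θ' h'
    rcases hnew θ' h' with h1 | h1
    · exact h1.1
    · exfalso
      rw [hS', Finset.mem_filter] at h'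
      have h2 := h'.2
      rw [h1.2, (d n).half_c] at h2
      exact hθ h2

theorem fibre_finite {A : Arena} (s : ∀ n, St A n) (d : ∀ n, Nxt (s n) (s (n + 1))) (a : ℕ) :
    {m | (d m).θ.c = a}.Finite := by
  obtain ⟨N, hN, hmin⟩ : ∃ N, a ≤ N ∧ ∀ n, a ≤ n → Fib_phi s a N ≤ Fib_phi s a n := by
    have hne : (Fib_phi s a '' Set.Ici a).Nonempty := ⟨_, a, Set.mem_Ici.2 le_rfl, rfl⟩
    obtain ⟨N, hN, hv⟩ := Nat.sInf_mem hne
    refine ⟨N, hN, fun n hn => ?_⟩
    rw [hv]
    exact Nat.sInf_le ⟨n, hn, rfl⟩
  have hanti : ∀ n, N ≤ n → Fib_phi s a n ≤ Fib_phi s a N := by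
    intro n hn
    induction n, hn using Nat.le_induction with
    | base => exact le_rfl
    | succ n hn ih => exact (Fib_le s d (hN.trans hn)).1.trans ih
  refine (Set.finite_lt_nat N).subset ?_
  intro m hm
  by_contra hlt
  have hNm : N ≤ m := not_lt.1 hlt
  have h1 := (Fib_le s d (hN.trans hNm)).2 hm
  have h2 := hmin (m + 1) (by omega)
  have h3 := hanti m hNm
  omega

/-- the sources of the items created in the act `m` -/
theorem src_of_created {A : Arena} (s : ∀ n, St A n) (d : ∀ n, Nxt (s n) (s (n + 1))) (m : ℕ) :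
    ∀ n, m < n → ∀ θ' ∈ (s n).S, θ'.c = m + 1 →
      ∃ C ∈ (d m).Z', θ'.src = (d m).θ.N (d m).e ∪ C := by
  intro n
  induction n with
  | zero =>
    intro h
    omega
  | succ n ih =>
    intro hm θ' h' hc
    rcases Nat.lt_succ_iff_lt_or_eq.1 hm with h | h
    · rcases (d n).new θ' h' with h1 | h1 | h1
      · exact ih h θ' h1.1 hc
      · rw [h1.2, (d n).half_c] at hc
        rw [h1.2, (d n).half_src]
        exact ih h _ (d n).mem hc
      · have := h1.1
        omega
    · subst h
      rcases (d m).new θ' h' with h1 | h1 | h1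
      · have := ((s m).ok θ' h1.1).2
        omega
      · rw [h1.2, (d m).half_c] at hc
        have := ((s m).ok _ (d m).mem).2
        omega
      · exact h1.2

end Pool.Agent.helper6.GE
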