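import Pool.Agent.helper6.GE.Str

/-! # GE-HS: the hitting lemma

PROOF.  Strong induction on `G.card`.  Let `hit` hold; `G` is not empty (as `V n0` is not empty), so
`G = {h 0, …, h q}` with `h : Fin (q + 1) → ℕ → Bool` injective.

For `k : ℕ` put `P j = ini (h j) k` and `D = Dset V q P n0`.  `h 0` does not meet `D`: if
`ini (h 0) n ∈ D`, then the tuple `x = h` contradicts the definition of `Dset`.  So (`hG`) `h 0` avoids
`D`: there is `n` with `¬ ini (h 0) n <+: τ` for all `τ ∈ D`.  With `n' = max n k` and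
`ρ = ini (h 0) n' ++ [!h 0 n']` we get `ρ ∉ D`, so there is `x k : Fin (q + 1) → ℕ → Bool` with
`Pre (ini (h j) k) (x k j)` for all `j`, `Pre ρ (x k 0)`, so `x k 0 ≠ h 0`, hitting all `l ∈ V n`,
`n ≥ n0`.

Let `A k = {j | x k j = h j}` (a `Finset`), so `0 ∉ A k`.  There is `A` with `A k = A` for infinitely
many `k` (pigeonhole, `Finite.exists_infinite_fiber`).  Choose `k 0 < k 1 < k 2 < k 3` among them such
that
(a) `ini (h j) (k 0) ≠ ini (h j') (k 0)` for `j ≠ j'`, (b) `ini (x (k t) j) (k t') ≠ ini (h j) (k t')`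
for `t < t'`, `j ∉ A`.
Then for `t ≠ t'` and `j, j' ∉ A` we have `x (k t) j ≠ x (k t') j'`: if `j ≠ j'` by (a), if `j = j'` by
(b) (`x (k t') j` extends `ini (h j) (k t')`).  Let `n1 ≥ n0` be such that the initial segments of
length `n ≥ n1` of these are different (`exists_ne_of_ne`).

CLAIM: for `n ≥ n1`, `l ∈ V n` there are `i`, `j ∈ A` with `Pre (l i) (h j)`.  Otherwise for all
`t < 4` there are `i t`, `j t` with `Pre (l (i t)) (x (k t) (j t))`, and `j t ∉ A` (for `j ∈ A` we have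
`x (k t) j = h j`).  By pigeonhole `i t = i t'` for some `t ≠ t'`; then
`ini (x (k t) (j t)) n = l (i t) = ini (x (k t') (j t')) n`, a contradiction.

So the image of `A` under `h` is a set `G'` with `G'.card ≤ A.card < q + 1` to which the induction
hypothesis applies (with `n1` in place of `n0`). -/

namespace Pool.Agent.helper6.GE

/-- if a real extends the initial segment of `h` of length `k`, it agrees with `h` up to `k` -/
theorem HS_pre_ini {g h : ℕ → Bool} {k m : ℕ} (hm : m ≤ k) (hp : Pre (ini h k) g) :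
    ini g m = ini h m := by
  have h1 : ini g k = ini h k := by
    have := hp
    unfold Pre at this
    rw [ini_length] at this
    exact this
  rw [← ini_take hm, h1, ini_take hm]

/-- the tuple obtained from the fact that `h 0` avoids the set `Dset` -/
theorem HS_tuple (V : ℕ → Set (Fin 3 → List Bool)) (q : ℕ) (h : Fin (q + 1) → ℕ → Bool)
    (n0 : ℕ) (hit : ∀ n, n0 ≤ n → ∀ l ∈ V n, ∃ i j, Pre (l i) (h j)) (k : ℕ)
    (hdec : Dec (h 0) (Dset V q (fun j => ini (h j) k) n0)) :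
    ∃ x : Fin (q + 1) → ℕ → Bool, (∀ j, Pre (ini (h j) k) (x j)) ∧ x 0 ≠ h 0 ∧
      ∀ n, n0 ≤ n → ∀ l ∈ V n, ∃ i j, Pre (l i) (x j) := by
  rcases hdec with ⟨n, hn⟩ | ⟨n, hn⟩
  · exfalso
    exact hn.2 ⟨h, fun j => pre_ini _ _, pre_ini _ _, hit⟩
  · set n' := max n k with hn'
    set ρ : List Bool := ini (h 0) n' ++ [!h 0 n'] with hρ
    have h1 : ini (h 0) n <+: ρ :=
      (ini_prefix (le_max_left _ _)).trans (List.prefix_append _ _)
    have h2 : ini (h 0) k <+: ρ :=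
      (ini_prefix (le_max_right _ _)).trans (List.prefix_append _ _)
    have h3 : ρ ∉ Dset V q (fun j => ini (h j) k) n0 := fun hc => hn ρ hc h1
    have h4 : ∃ x : Fin (q + 1) → ℕ → Bool, (∀ j, Pre (ini (h j) k) (x j)) ∧ Pre ρ (x 0) ∧
        ∀ n, n0 ≤ n → ∀ l ∈ V n, ∃ i j, Pre (l i) (x j) := by
      by_contra hc
      exact h3 ⟨h2, hc⟩
    obtain ⟨x, hx1, hx2, hx3⟩ := h4
    refine ⟨x, hx1, ?_, hx3⟩
    intro he
    rw [pre_iff] at hx2
    have hlen : ρ.length = n' + 1 := by simp [hρ, ini_length]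
    have h5 := hx2 n' (by omega)
    have h6 : ρ[n']'(by omega) = !h 0 n' := by
      simp only [hρ]
      rw [List.getElem_append_right (by rw [ini_length])]
      simp [ini_length]
    rw [h6, he] at h5
    revert h5
    cases h 0 n' <;> simp

theorem HS_bound {ι : Type*} [Fintype ι] (p : ι → ℕ → Prop)
    (h : ∀ i, ∃ n, ∀ m, n ≤ m → p i m) : ∃ n, ∀ m, n ≤ m → ∀ i, p i m := by
  choose f hf using h
  refine ⟨Finset.univ.sup f, fun m hm i => hf i m (le_trans (Finset.le_sup (Finset.mem_univ i)) hm)⟩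

theorem hitting (V : ℕ → Set (Fin 3 → List Bool)) (hlen : ∀ n, ∀ l ∈ V n, ∀ i, (l i).length = n)
    (hne : ∀ n, (V n).Nonempty) (G : Finset (ℕ → Bool))
    (hG : ∀ g ∈ G, ∀ (q : ℕ) (P : Fin (q + 1) → List Bool) (n1 : ℕ), Dec g (Dset V q P n1))
    (n0 : ℕ) (hit : ∀ n, n0 ≤ n → ∀ l ∈ V n, ∃ i, ∃ g ∈ G, Pre (l i) g) : False := by
  classical
  induction hN : G.card using Nat.strong_induction_on generalizing G n0 with
  | _ N ih =>
  -- enumeration of `G`
  have hGne : G.Nonempty := by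
    obtain ⟨l, hl⟩ := hne n0
    obtain ⟨i, g, hg, -⟩ := hit n0 le_rfl l hl
    exact ⟨g, hg⟩
  obtain ⟨q, hq⟩ : ∃ q, N = q + 1 := by
    have := hGne.card_pos
    exact ⟨N - 1, by omega⟩
  have hcard : G.card = q + 1 := by omega
  let e : G ≃ Fin (q + 1) := G.equivFinOfCardEq hcard
  let h : Fin (q + 1) → ℕ → Bool := fun j => (e.symm j : ℕ → Bool)
  have hinj : Function.Injective h := fun a b hab => e.symm.injective (Subtype.ext hab)
  have hmem : ∀ j, h j ∈ G := fun j => (e.symm j).2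
  have hsurj : ∀ g ∈ G, ∃ j, h j = g := fun g hg => ⟨e ⟨g, hg⟩, by simp [h]⟩
  have hit' : ∀ n, n0 ≤ n → ∀ l ∈ V n, ∃ i j, Pre (l i) (h j) := by
    intro n hn l hl
    obtain ⟨i, g, hg, hp⟩ := hit n hn l hl
    obtain ⟨j, rfl⟩ := hsurj g hg
    exact ⟨i, j, hp⟩
  -- the tuples
  have htup := fun k => HS_tuple V q h n0 hit' k (hG (h 0) (hmem 0) q _ n0)
  choose x hx1 hx2 hx3 using htup
  -- the pigeonhole principle
  obtain ⟨A, hA⟩ := Finite.exists_infinite_fiber
    (fun k : ℕ => (Finset.univ.filter fun j => x k j = h j : Finset (Fin (q + 1))))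
  have hK : (Set.Infinite {k : ℕ | (Finset.univ.filter fun j => x k j = h j) = A}) := by
    have := hA
    rw [Set.infinite_coe_iff] at this
    exact this
  set K : Set ℕ := {k : ℕ | (Finset.univ.filter fun j => x k j = h j) = A} with hKdef
  have hKA : ∀ k ∈ K, ∀ j, j ∈ A ↔ x k j = h j := by
    intro k hk j
    have hk' : (Finset.univ.filter fun j => x k j = h j) = A := hk
    rw [← hk']
    simp
  -- separation of the `h j`
  obtain ⟨s0, hs0⟩ := HS_bound
    (fun (p : Fin (q + 1) × Fin (q + 1)) m => p.1 ≠ p.2 → ini (h p.1) m ≠ ini (h p.2) m) (by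
      rintro ⟨a, b⟩
      by_cases hab : a = b
      · exact ⟨0, fun m _ hne => absurd hab hne⟩
      · obtain ⟨n, hn⟩ := exists_ne_of_ne (fun hc => hab (hinj hc) : h a ≠ h b)
        exact ⟨n, fun m hm _ => hn m hm⟩)
  have hs : ∀ k, ∃ s, ∀ m, s ≤ m → ∀ j, x k j ≠ h j → ini (x k j) m ≠ ini (h j) m := by
    intro k
    refine HS_bound (fun j m => x k j ≠ h j → ini (x k j) m ≠ ini (h j) m) fun j => ?_
    by_cases hj : x k j = h j
    · exact ⟨0, fun m _ hne => absurd hj hne⟩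
    · obtain ⟨n, hn⟩ := exists_ne_of_ne hj
      exact ⟨n, fun m hm _ => hn m hm⟩
  choose s hs using hs
  -- four indices
  obtain ⟨k0, hk0, h0⟩ := hK.exists_gt s0
  obtain ⟨k1, hk1, h1⟩ := hK.exists_gt (max s0 (s k0))
  obtain ⟨k2, hk2, h2⟩ := hK.exists_gt (max (max s0 (s k0)) (s k1))
  obtain ⟨k3, hk3, h3⟩ := hK.exists_gt (max (max (max s0 (s k0)) (s k1)) (s k2))
  simp only [max_lt_iff] at h1 h2 h3
  let kk : Fin 4 → ℕ := ![k0, k1, k2, k3]
  have hkk : ∀ t, kk t ∈ K := by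
    intro t
    fin_cases t <;> simpa [kk]
  have hkk0 : ∀ t, s0 ≤ kk t := by
    intro t
    fin_cases t <;> simp [kk] <;> omega
  have hkks : ∀ t t', t < t' → s (kk t) ≤ kk t' := by
    intro t t' htt
    fin_cases t <;> fin_cases t' <;> simp [kk] at htt ⊢ <;> omega
  have hnelt : ∀ t t' : Fin 4, t < t' → ∀ j, j ∉ A → x (kk t) j ≠ x (kk t') j := by
    intro t t' htt j hj he
    have hne1 : x (kk t) j ≠ h j := fun hc => hj ((hKA _ (hkk t) j).mpr hc)
    have h5 := hs (kk t) (kk t') (hkks t t' htt) j hne1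
    apply h5
    rw [he]
    exact HS_pre_ini le_rfl (hx1 (kk t') j)
  have hnex : ∀ t t' : Fin 4, t ≠ t' → ∀ j j', j ∉ A → j' ∉ A → x (kk t) j ≠ x (kk t') j' := by
    intro t t' htt j j' hj hj' he
    by_cases hjj : j = j'
    · subst hjj
      rcases lt_or_gt_of_ne htt with hlt | hlt
      · exact hnelt t t' hlt j hj he
      · exact hnelt t' t hlt j hj he.symm
    · have h5 := HS_pre_ini (hkk0 t) (hx1 (kk t) j)
      have h6 := HS_pre_ini (hkk0 t') (hx1 (kk t') j')
      rw [he, h6] at h5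
      exact hs0 s0 le_rfl (j', j) (fun hc => hjj hc.symm) h5
  obtain ⟨n1, hn1⟩ := HS_bound
    (fun (p : (Fin 4 × Fin 4) × (Fin (q + 1) × Fin (q + 1))) m =>
      p.1.1 ≠ p.1.2 → p.2.1 ∉ A → p.2.2 ∉ A →
        ini (x (kk p.1.1) p.2.1) m ≠ ini (x (kk p.1.2) p.2.2) m) (by
      rintro ⟨⟨t, t'⟩, ⟨j, j'⟩⟩
      by_cases hc : t ≠ t' ∧ j ∉ A ∧ j' ∉ A
      · obtain ⟨n, hn⟩ := exists_ne_of_ne (hnex t t' hc.1 j j' hc.2.1 hc.2.2)
        exact ⟨n, fun m hm _ _ _ => hn m hm⟩
      · exact ⟨0, fun m _ h1 h2 h3 => absurd ⟨h1, h2, h3⟩ hc⟩)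
  -- the claim
  have claim : ∀ n, max n0 n1 ≤ n → ∀ l ∈ V n, ∃ i, ∃ g ∈ A.image h, Pre (l i) g := by
    intro n hn l hl
    by_contra hcon
    have hcon' : ∀ i, ∀ j ∈ A, ¬ Pre (l i) (h j) := by
      intro i j hj hp
      exact hcon ⟨i, h j, Finset.mem_image_of_mem h hj, hp⟩
    have h6 : ∀ t : Fin 4, ∃ i : Fin 3, ∃ j, j ∉ A ∧ Pre (l i) (x (kk t) j) := by
      intro t
      obtain ⟨i, j, hp⟩ := hx3 (kk t) n (le_trans (le_max_left _ _) hn) l hl
      refine ⟨i, j, fun hj => ?_, hp⟩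
      rw [(hKA _ (hkk t) j).mp hj] at hp
      exact hcon' i j hj hp
    choose ii jj hjj hpp using h6
    obtain ⟨t, t', htt, hii⟩ := Fintype.exists_ne_map_eq_of_card_lt ii (by simp)
    have h7 := (hpp t).eq_ini (hlen n l hl (ii t))
    have h8 := (hpp t').eq_ini (hlen n l hl (ii t'))
    rw [← hii, h7] at h8
    exact hn1 n (le_trans (le_max_right _ _) hn) ((t, t'), (jj t, jj t')) htt (hjj t) (hjj t') h8
  have h0A : (0 : Fin (q + 1)) ∉ A := fun hc => hx2 k0 ((hKA k0 hk0 0).mp hc)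
  have hcardA : (A.image h).card < N := by
    have h9 : A.card < (Finset.univ : Finset (Fin (q + 1))).card :=
      Finset.card_lt_card (Finset.ssubset_univ_iff.mpr fun hc => h0A (hc ▸ Finset.mem_univ _))
    rw [Finset.card_univ, Fintype.card_fin] at h9
    have h10 := Finset.card_image_le (s := A) (f := h)
    omega
  refine ih _ hcardA (A.image h) ?_ (max n0 n1) claim rfl
  intro g hg
  obtain ⟨j, -, rfl⟩ := Finset.mem_image.mp hg
  exact hG _ (hmem j)

end Pool.Agent.helper6.GE
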