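import Pool.Agent.helper6.GE.Defs

/-! # GE-Konig: the infinite path

PROOF of `konig`.  Say that `m' ` is a child of `m` if `q m' = m + 1`.  Every `m` with `q m ≠ 0` is a child
of `q m - 1 < m`.  Call `m` big if infinitely many `m'` are descendants of `m` (reflexive transitive
closure of being a child; or by well-founded recursion).  Infinitely many `m` are descendants of one of the
finitely many roots (`q m = 0`), so some root is big; if `m` is big then one of its finitely many
children is big.  Recursion gives the path. -/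


namespace Pool.Agent.helper6.GE

theorem konig (q : ℕ → ℕ) (hq : ∀ m, q m ≤ m) (hfin : ∀ a, {m | q m = a}.Finite) :
    ∃ a : ℕ → ℕ, q (a 0) = 0 ∧ ∀ k, q (a (k + 1)) = a k + 1 := by
  classical
  let R : ℕ → ℕ → Prop := fun m m' => q m' = m + 1
  let Dn : ℕ → Set ℕ := fun m => {m' | Relation.ReflTransGen R m m'}
  have hroot : ∀ m, ∃ r, q r = 0 ∧ m ∈ Dn r := by
    intro m
    induction m using Nat.strong_induction_on with
    | _ m ih =>
      rcases Nat.eq_zero_or_pos (q m) with h0 | h0
      · exact ⟨m, h0, Relation.ReflTransGen.refl⟩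
      · obtain ⟨m0, hm0⟩ : ∃ m0, q m = m0 + 1 := ⟨q m - 1, by omega⟩
        have hlt : m0 < m := by
          have := hq m
          omega
        obtain ⟨r, hr, hd⟩ := ih m0 hlt
        exact ⟨r, hr, Relation.ReflTransGen.tail hd hm0⟩
  obtain ⟨r, hr0, hr⟩ : ∃ r, q r = 0 ∧ (Dn r).Infinite := by
    by_contra hno
    push Not at hno
    have h1 : (⋃ r ∈ {m | q m = 0}, Dn r).Finite :=
      (hfin 0).biUnion fun r hr => hno r hr
    refine Set.infinite_univ (α := ℕ) (h1.subset ?_)
    intro m _
    obtain ⟨r, hr, hd⟩ := hroot m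
    exact Set.mem_biUnion (show r ∈ {m | q m = 0} from hr) hd
  have hstep : ∀ m, (Dn m).Infinite → ∃ m', q m' = m + 1 ∧ (Dn m').Infinite := by
    intro m hm
    by_contra hno
    push Not at hno
    have h1 : (⋃ r ∈ {m' | q m' = m + 1}, Dn r).Finite :=
      (hfin (m + 1)).biUnion fun r hr => hno r hr
    refine hm (((Set.finite_singleton m).union h1).subset ?_)
    intro m' hm'
    rcases Relation.ReflTransGen.cases_head hm' with h | ⟨c, hc, h⟩
    · left
      exact h.symm
    · right
      exact Set.mem_biUnion (show c ∈ {m' | q m' = m + 1} from hc) h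
  choose! g hg1 hg2 using hstep
  let a : ℕ → ℕ := fun k => g^[k] r
  have ha : ∀ k, (Dn (a k)).Infinite := by
    intro k
    induction k with
    | zero => exact hr
    | succ k ih =>
      show (Dn (g^[k + 1] r)).Infinite
      rw [Function.iterate_succ_apply']
      exact hg2 _ ih
  refine ⟨a, hr0, fun k => ?_⟩
  show q (g^[k + 1] r) = g^[k] r + 1
  rw [Function.iterate_succ_apply']
  exact hg1 _ (ha k)

end Pool.Agent.helper6.GE
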