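import Pool.Agent.helper6.GE.Step
import Pool.Agent.helper6.GE.Konig
import Pool.Agent.helper6.GE.Fib

/-! # GE-Lim: the limit of the construction

PROOF of `no_run`.  Let `y m = (s (m + 1)).y m`.  Then `y` agrees with `(s n).y` below `(s n).t`
(`Nxt.agree`, `Nxt.ht`, `St.tn`).  `q m = (d m).θ.c`; `q m ≤ m` by `St.ok`; `konig` gives the path
`a`.  By `src_of_created` (with `m = a k`, `n = a (k + 1)`, `θ' = (d (a (k + 1))).θ`) there is
`C k ∈ (d (a k)).Z'` with `G k := (d (a (k + 1))).θ.src = (d (a k)).θ.N e ∪ C k`, `e = (d (a k)).e`.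

`G k` is an initial segment of `G (k + 1)` (`Item.OK.seg` and `seg_left_fin`), properly (`C (k + 1)` is
nonempty with elements `≥ θ.b`), and transitive for `A.T y` (`Item.OK.al` for the pattern which is
`θ.u` below `θ.b` and `e` otherwise, and `St.Tst`).  `H = ⋃ G k` is a solution for `A.T y`, with
`Seg (G k) H`.  `A.L y (G k) (ρ k)`, `ρ k = (d (a k)).θ.r e (C k)`, by `St.Lst`; so
`Pre (ρ k) (Psi y H)` (`Stat.sound`), and `(ρ k).length ≥ (d (a k)).θ.c`, which is `≥ k`
(`= a (k - 1) + 1` for `k > 0`).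

`A.decW y H`: (1) if `ini (Psi y H) n ∈ W y`, then there is a position `m = cd 0 (ini (Psi y H) n) j`
with `y m = true`, so `(s N).y m = true` for all `N > m`; for `k` with `a k > m` this string is
incompatible with `ρ k` by `St.sepW`, but both are initial segments of `Psi y H`.  (2) if
`¬ ini (Psi y H) n <+: τ` for all `τ ∈ W y`, take `k = n`: `ini (Psi y H) n <+: ρ n <+: tau (C n)` and
`tau (C n) ∈ W (s (a n + 1)).y ⊆ W y` (the position `m` with `(s (a n + 1)).y m = true` is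
`< (s (a n + 1)).t` by `St.y0`). -/

namespace Pool.Agent.helper6.GE

theorem Lim_tmono {A : Arena} (s : ∀ n, St A n) (d : ∀ n, Nxt (s n) (s (n + 1))) {n n' : ℕ}
    (h : n ≤ n') : (s n).t ≤ (s n').t :=
  monotone_nat_of_le_succ (f := fun n => (s n).t) (fun n => (d n).ht) h

theorem Lim_agree {A : Arena} (s : ∀ n, St A n) (d : ∀ n, Nxt (s n) (s (n + 1))) {n n' : ℕ}
    (h : n ≤ n') : ∀ m < (s n).t, (s n').y m = (s n).y m := by
  induction n', h using Nat.le_induction with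
  | base => intro m _; rfl
  | succ k hk ih =>
    intro m hm
    rw [(d k).agree m (lt_of_lt_of_le hm (Lim_tmono s d hk)), ih m hm]

/-- the limit -/
def Lim_y {A : Arena} (s : ∀ n, St A n) (m : ℕ) : Bool := (s (m + 1)).y m

theorem Lim_y_agree {A : Arena} (s : ∀ n, St A n) (d : ∀ n, Nxt (s n) (s (n + 1))) (n : ℕ) :
    ∀ m < (s n).t, Lim_y s m = (s n).y m := by
  intro m hm
  unfold Lim_y
  rcases le_total (m + 1) n with h | h
  · exact (Lim_agree s d h m (lt_of_lt_of_le (Nat.lt_succ_self m) (s (m + 1)).tn)).symm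
  · exact Lim_agree s d h m hm

theorem Lim_W_sub {A : Arena} (s : ∀ n, St A n) (d : ∀ n, Nxt (s n) (s (n + 1))) (n : ℕ) :
    W (s n).y ⊆ W (Lim_y s) := by
  rintro τ ⟨j, hj⟩
  refine ⟨j, ?_⟩
  have hlt : cd 0 τ j < (s n).t := by
    by_contra h
    rw [(s n).y0 _ (not_lt.1 h)] at hj
    exact Bool.false_ne_true hj
  rw [Lim_y_agree s d n _ hlt, hj]

theorem Lim_W_ex {A : Arena} (s : ∀ n, St A n) (d : ∀ n, Nxt (s n) (s (n + 1))) {τ : List Bool}
    (h : τ ∈ W (Lim_y s)) : ∃ N, ∀ n, N ≤ n → τ ∈ W (s n).y := by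
  obtain ⟨j, hj⟩ := h
  refine ⟨cd 0 τ j + 1, fun n hn => ⟨j, ?_⟩⟩
  rw [Lim_agree s d hn _ (lt_of_lt_of_le (Nat.lt_succ_self _) (s (cd 0 τ j + 1)).tn)]
  exact hj

theorem no_run {A : Arena} (s : ∀ n, St A n) (d : ∀ n, Nxt (s n) (s (n + 1))) : False := by
  classical
  obtain ⟨a, ha0, ha⟩ := konig (fun m => (d m).θ.c) (fun m => ((s m).ok _ (d m).mem).2)
    (fun m => fibre_finite s d m)
  have hlt : ∀ k, a k < a (k + 1) := by
    intro k
    have h1 := ha k
    have h2 := ((s (a (k + 1))).ok _ (d (a (k + 1))).mem).2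
    omega
  have hmono : StrictMono a := strictMono_nat_of_lt_succ hlt
  have hak : ∀ k, k ≤ a k := fun k => hmono.le_apply
  have hck : ∀ k, k ≤ (d (a k)).θ.c := by
    intro k
    rcases k with _ | k
    · exact Nat.zero_le _
    · have h1 := ha k
      have := hak k
      omega
  have hsrc : ∀ k, ∃ C ∈ (d (a k)).Z', (d (a (k + 1))).θ.src =
      (d (a k)).θ.N (d (a k)).e ∪ C := fun k =>
    src_of_created s d (a k) (a (k + 1)) (hlt k) _ (d (a (k + 1))).mem (ha k)
  choose C hCZ' hC using hsrc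
  have hCZ : ∀ k, C k ∈ (d (a k)).θ.Z := fun k => (d (a k)).sub (hCZ' k)
  have hok : ∀ k, (d (a k)).θ.OK (A.T (s (a k)).y) (A.L (s (a k)).y) (s (a k)).β :=
    fun k => ((s (a k)).ok _ (d (a k)).mem).1
  set y := Lim_y s with hy
  have hyk : ∀ k, ∀ m < (s (a k)).t, y m = (s (a k)).y m := fun k => Lim_y_agree s d (a k)
  let G : ℕ → Finset ℕ := fun k => (d (a k)).θ.N (d (a k)).e ∪ C k
  have hGseg1 : ∀ k, Seg (G k) (((d (a (k + 1))).θ.N (d (a (k + 1))).e : Finset ℕ) : Set ℕ) := by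
    intro k
    have h1 := (hok (k + 1)).seg (d (a (k + 1))).e
    rw [hC k] at h1
    exact h1
  have hGseg : ∀ k, Seg (G k) (G (k + 1) : Set ℕ) := by
    intro k
    refine seg_trans (hGseg1 k) ?_
    exact seg_left_fin ((hok (k + 1)).N_lt _) (fun x hx => ((hok (k + 1)).Zlt _ (hCZ _) x hx).1)
  have hGseg' : ∀ i j, i ≤ j → Seg (G i) (G j : Set ℕ) := by
    intro i j hij
    induction j, hij using Nat.le_induction with
    | base => exact seg_refl _
    | succ k _ ih => exact seg_trans ih (hGseg k)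
  have hGsub : ∀ i j, i ≤ j → G i ⊆ G j := fun i j hij => by
    have := (hGseg' i j hij).1
    exact_mod_cast this
  have hne : ∀ k, (G k).Nonempty := by
    intro k
    obtain ⟨x, hx⟩ := (hok k).Zne _ (hCZ k)
    exact ⟨x, Finset.mem_union_right _ hx⟩
  -- transitivity
  have hGβ : ∀ k, ∀ x ∈ G k, x < (s (a k)).β := by
    intro k x hx
    rcases Finset.mem_union.1 hx with h | h
    · exact lt_of_lt_of_le ((hok k).N_lt _ x h) (hok k).hb
    · exact ((hok k).Zlt _ (hCZ k) x h).2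
  have hGtr : ∀ k, TransOn (A.T y) (G k : Set ℕ) := by
    intro k
    have h1 := (hok k).al (d (a k)).e (d (a k)).actv (C k) (hCZ k)
      (fun v => if v < (d (a k)).θ.b then (d (a k)).θ.u v else (d (a k)).e)
      (fun v hv => if_pos hv)
      (fun x hx => if_neg (not_lt.2 ((hok k).Zlt _ (hCZ k) x hx).1))
    have h2 := (s (a k)).Tst y (hyk k)
    intro x hx z hz w hw
    rw [h2 x (hGβ k x hx) z (hGβ k z hz), h2 z (hGβ k z hz) w (hGβ k w hw),
      h2 x (hGβ k x hx) w (hGβ k w hw)]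
    exact h1.1 x hx z hz w hw
  let H : Set ℕ := ⋃ k, (G k : Set ℕ)
  have hGH : ∀ k, (G k : Set ℕ) ⊆ H := fun k => Set.subset_iUnion (fun k => (G k : Set ℕ)) k
  have hHtr : TransOn (A.T y) H := by
    intro x hx z hz w hw
    obtain ⟨i, hi⟩ := Set.mem_iUnion.1 hx
    obtain ⟨j, hj⟩ := Set.mem_iUnion.1 hz
    obtain ⟨k, hk⟩ := Set.mem_iUnion.1 hw
    have hi' : x ∈ G (max i (max j k)) := hGsub _ _ (le_max_left _ _) (by exact_mod_cast hi)
    have hj' : z ∈ G (max i (max j k)) :=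
      hGsub _ _ ((le_max_left _ _).trans (le_max_right _ _)) (by exact_mod_cast hj)
    have hk' : w ∈ G (max i (max j k)) :=
      hGsub _ _ ((le_max_right _ _).trans (le_max_right _ _)) (by exact_mod_cast hk)
    exact hGtr _ x hi' z hj' w hk'
  have hxk : ∀ k, ∃ x ∈ C k, True := fun k => by
    obtain ⟨x, hx⟩ := (hok k).Zne _ (hCZ k)
    exact ⟨x, hx, trivial⟩
  choose x hxC _ using hxk
  have hxG : ∀ k, x k ∈ G k := fun k => Finset.mem_union_right _ (hxC k)
  have hxlt : ∀ k, x k < x (k + 1) := by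
    intro k
    have h1 : x k ∈ (d (a (k + 1))).θ.N (d (a (k + 1))).e := by
      have := (hGseg1 k).1 (by exact_mod_cast hxG k)
      exact_mod_cast this
    exact lt_of_lt_of_le ((hok (k + 1)).N_lt _ _ h1) ((hok (k + 1)).Zlt _ (hCZ (k + 1)) _ (hxC _)).1
  have hHinf : H.Infinite := by
    refine Set.infinite_of_injective_forall_mem (strictMono_nat_of_lt_succ hxlt).injective ?_
    intro k
    exact hGH k (by exact_mod_cast hxG k)
  have hsol : Sol (A.T y) H := ⟨hHinf, hHtr⟩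
  have hsegH : ∀ k, Seg (G k) H := by
    intro k
    refine ⟨hGH k, fun z hz hzG v hv => ?_⟩
    obtain ⟨j, hj⟩ := Set.mem_iUnion.1 hz
    rcases le_total j k with h | h
    · exact absurd (hGsub j k h (by exact_mod_cast hj)) hzG
    · exact (hGseg' k j h).2 z hj hzG v hv
  let ρ : ℕ → List Bool := fun k => (d (a k)).θ.r (d (a k)).e (C k)
  have hρ : ∀ k, Pre (ρ k) (A.Psi y H) := by
    intro k
    refine (A.stat y).sound H hsol (G k) (hne k) (hsegH k) (ρ k) ?_
    exact (s (a k)).Lst y (hyk k) _ (d (a k)).mem _ (d (a k)).actv _ (hCZ k)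
  have hρl : ∀ k, k ≤ (ρ k).length := fun k =>
    (hck k).trans ((hok k).lab _ (d (a k)).actv _ (hCZ k)).2
  rcases A.decW y H hsol with ⟨n, hn⟩ | ⟨n, hn⟩
  · obtain ⟨N, hN⟩ := Lim_W_ex s d hn
    have h1 := hN (a N) (hak N)
    have h2 := (s (a N)).sepW _ (d (a N)).mem _ (d (a N)).actv _ (hCZ N) _ h1
    exact h2.not_pre (hρ N) (pre_ini _ _)
  · have h1 : ini (A.Psi y H) n <+: ρ n :=
      (pre_ini _ _).le (hρ n) (by rw [ini_length]; exact hρl n)
    obtain ⟨h2, h3⟩ := (d (a n)).htau (C n) (hCZ' n)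
    exact hn _ (Lim_W_sub s d _ h3) (h1.trans h2)

theorem no_arena (A : Arena) : False := by
  obtain ⟨s, ⟨d⟩⟩ := exists_run A
  exact no_run s d

end Pool.Agent.helper6.GE
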