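import Pool.Agent.helper6.GE.ExtL

/-! # GE-LimV: limit vectors -/

namespace Pool.Agent.helper6.GE

variable {T : ℕ → ℕ → Bool} {L : Finset ℕ → List Bool → Prop} {Psi : Set ℕ → ℕ → Bool}

/-- the family of a vector of strings -/
def LimV_fam (T : ℕ → ℕ → Bool) (L : Finset ℕ → List Bool → Prop) (b : ℕ) (w : ℕ → Bool)
    (N : Fin 3 → Finset ℕ) (A : Set (Finset ℕ)) (l : Fin 3 → List Bool) : Set (Finset ℕ) :=
  {B' | B' ∈ Fam T (Res T b w) ∧ Ext T (Res T b w) B' ∧ (∃ B ∈ A, Seg B (B' : Set ℕ)) ∧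
    ∀ i, L (N i ∪ B') (l i)}

theorem LimV_step (st : Stat T L Psi) {b : ℕ} {w : ℕ → Bool} {N : Fin 3 → Finset ℕ}
    (hN : ∀ i, Bas T b w (N i)) {A : Set (Finset ℕ)} {n : ℕ} {l : Fin 3 → List Bool}
    (hl : ∀ i, (l i).length = n) (h : IBig (LimV_fam T L b w N A l)) :
    ∃ l' : Fin 3 → List Bool, ((∀ i, (l' i).length = n + 1) ∧
      IBig (LimV_fam T L b w N A l')) ∧ ∀ i, l i <+: l' i := by
  have h1 := ext_ibig st hN h (fun B hB => hB.1) (n + 1)
  obtain ⟨l', hl'⟩ := ibig_cover (ι := Fin 3 → List.Vector Bool (n + 1))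
    (fun l' => {B'' | B'' ∈ Fam T (Res T b w) ∧ Ext T (Res T b w) B'' ∧
      (∃ B' ∈ LimV_fam T L b w N A l, Seg B' (B'' : Set ℕ)) ∧
      ∀ i, L (N i ∪ B'') (l' i).1}) h1 (by
        rintro B'' ⟨c1, c2, c3, c4⟩
        choose r hr1 hr2 using c4
        exact ⟨fun i => ⟨r i, hr1 i⟩, c1, c2, c3, hr2⟩)
  refine ⟨fun i => (l' i).1, ⟨fun i => (l' i).2, ibig_mono hl' ?_⟩, ?_⟩
  · rintro B'' ⟨c1, c2, ⟨B', ⟨-, -, ⟨B, hB, hBB⟩, -⟩, hB''⟩, c4⟩
    exact ⟨c1, c2, ⟨B, hB, seg_trans hBB hB''⟩, c4⟩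
  · obtain ⟨B'', ⟨⟨c1, c2, ⟨B', ⟨d1, -, -, d4⟩, hB''⟩, c4⟩, -⟩, -⟩ := hl' 1 0 fun _ => 0
    intro i
    have e1 : L (N i ∪ B'') (l i) := by
      refine st.mono (N i ∪ B') (N i ∪ B'') ?_ ?_ _ (d4 i)
      · exact d1.1.mono Finset.subset_union_right
      · exact seg_union_fin (hN i).lt (fun x hx => (c1.2.1 hx).1) hB''
    rcases Bas.comp st (hN i) c1.1 c2 e1 (c4 i) with e2 | e2
    · exact e2
    · have e3 := e2.length_le
      rw [hl i, (l' i).2] at e3
      omega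

theorem LimV_snoc {σ τ : List Bool} (h : σ <+: τ) {n : ℕ} (hσ : σ.length = n)
    (hτ : τ.length = n + 1) : τ = σ ++ [τ.getD n false] := by
  obtain ⟨t, rfl⟩ := h
  rw [List.length_append, hσ] at hτ
  obtain ⟨a, rfl⟩ := List.length_eq_one_iff.1 (by omega : t.length = 1)
  subst hσ
  simp [List.getD]

/-- PROOF: for a vector `l` of strings let `𝒜 l` be the family of all `B' ∈ Fam`, extendible, with
`Seg B B'` for some `B ∈ A` and `L (N i ∪ B') (l i)` for all `i`.  The family of the vector `[], [], []`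
is `IBig` by `ext_ibig` (`n = 0`).  If the family of `l` (all lengths `n`) is `IBig`, then by `ext_ibig`
(for this family and `n + 1`) and `ibig_cover` (finitely many vectors of strings of length `n + 1`)
there is a vector `l'` of strings of length `n + 1` such that the family of all `B'' ∈ Fam`,
extendible, with `Seg B' B''` for some `B'` in the family of `l` and `L (N i ∪ B'') (l' i)`, is `IBig`;
it is contained in the family of `l'`, and (as it is not empty) `l i <+: l' i`, because `l i` is also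
a label of `N i ∪ B''` (`Stat.mono`) and two labels are comparable (`Bas.comp`).  Recursion gives a
sequence of vectors, and `g i` is its limit. -/
theorem lim_vec (st : Stat T L Psi) {b : ℕ} {w : ℕ → Bool} {N : Fin 3 → Finset ℕ}
    (hN : ∀ i, Bas T b w (N i)) {A : Set (Finset ℕ)} (hA : IBig A)
    (hAF : A ⊆ Fam T (Res T b w)) :
    ∃ g : Fin 3 → ℕ → Bool, ∀ n,
      IBig {B' | B' ∈ Fam T (Res T b w) ∧ Ext T (Res T b w) B' ∧ (∃ B ∈ A, Seg B (B' : Set ℕ)) ∧
        ∀ i, L (N i ∪ B') (ini (g i) n)} := by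
  have h0 : (∀ i : Fin 3, ((fun _ => []) i : List Bool).length = 0) ∧
      IBig (LimV_fam T L b w N A fun _ => []) := by
    refine ⟨fun _ => rfl, ibig_mono (ext_ibig st hN hA hAF 0) ?_⟩
    rintro B' ⟨c1, c2, c3, c4⟩
    refine ⟨c1, c2, c3, fun i => ?_⟩
    obtain ⟨r, hr, hL⟩ := c4 i
    rw [List.length_eq_zero_iff] at hr
    rw [hr] at hL
    exact hL
  have hstep : ∀ (n : ℕ) (l : {l : Fin 3 → List Bool // (∀ i, (l i).length = n) ∧
      IBig (LimV_fam T L b w N A l)}), ∃ l' : {l : Fin 3 → List Bool //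
      (∀ i, (l i).length = n + 1) ∧ IBig (LimV_fam T L b w N A l)}, ∀ i, l.1 i <+: l'.1 i := by
    intro n l
    obtain ⟨l', h1, h2⟩ := LimV_step st hN l.2.1 l.2.2
    exact ⟨⟨l', h1⟩, h2⟩
  choose nxt hnxt using hstep
  let seq : (n : ℕ) → {l : Fin 3 → List Bool // (∀ i, (l i).length = n) ∧
      IBig (LimV_fam T L b w N A l)} :=
    fun n => Nat.rec ⟨fun _ => [], h0⟩ (fun n l => nxt n l) n
  have hseq : ∀ n i, (seq n).1 i <+: (seq (n + 1)).1 i := fun n i => hnxt n (seq n) i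
  refine ⟨fun i k => ((seq (k + 1)).1 i).getD k false, fun n => ?_⟩
  have key : ∀ n i, (seq n).1 i = ini (fun k => ((seq (k + 1)).1 i).getD k false) n := by
    intro n i
    induction n with
    | zero =>
      have := (seq 0).2.1 i
      rw [List.length_eq_zero_iff] at this
      rw [this]
      rfl
    | succ n ih =>
      rw [ini_succ, ← ih]
      exact LimV_snoc (hseq n i) ((seq n).2.1 i) ((seq (n + 1)).2.1 i)
  refine ibig_mono (seq n).2.2 ?_
  rintro B' ⟨c1, c2, c3, c4⟩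
  refine ⟨c1, c2, c3, fun i => ?_⟩
  rw [← key n i]
  exact c4 i

end Pool.Agent.helper6.GE
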