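import Pool.Agent.helper6.GE.Lim
import Pool.Agent.helper6.GE.Arn

/-! # GE-Main: `GEN_1` is not Weihrauch reducible to `EM`, even by continuous functionals -/

namespace Pool.Agent.helper6.GE

theorem no_reduction :
    ¬ ∃ (Φ : (ℕ → Bool) → ℕ → ℕ → Bool) (Ψ : (ℕ → Bool) × (ℕ → Bool) → ℕ → Bool),
      Continuous Φ ∧ (∀ X, Tour (Φ X)) ∧ ContinuousOn Ψ (Doms Φ) ∧
      ∀ z ∈ Doms Φ, OneGen z.1 (Ψ z) := by
  rintro ⟨Φ, Ψ, h1, h2, h3, h4⟩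
  obtain ⟨A⟩ := arena_of h1 h2 h3 h4
  exact no_arena A

end Pool.Agent.helper6.GE
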