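import Pool.Agent.helper6.GE.BL

/-! # GE-MkItem: one item

Situation: `w` is the limit pattern, `F ⊆ [0, b)` is alive for `w` and for the pattern `v`, and
`v = w` on `F`.  `A false, A true ⊆ Res T b w` are transitive sets of elements `< b1` on which `w` and
`v` are constant, and `s p` is a label of `F ∪ A p`; `s false` and `s true` are incompatible.  `Z` is a
finite `32`-big family of transitive extendible subsets of `Res T b1 w`, `r i C` is a label of
`N i ∪ C`, `N = (F, F ∪ A false, F ∪ A true)`, extending the long string `l i`.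

PROOF.  `l 0` is longer than `s false`, `s true`, so `l 0` is incompatible with `s p` for some `p`
(`inc_or`).  Let `A = A p`, `w = e0` on `A` (`A` is nonempty), `i1 = 1` if `p = false` and `i1 = 2` if
`p = true`.  The item: `src = F`, `b = b1`, `u = v`, `N e0 = F`, `N (!e0) = F ∪ A`, `r e0 = r 0`,
`r (!e0) = r i1`, `act = none`.

* `F ∪ C` is alive for every pattern `v'` with `v' = v` on `[0, b1)` and `v' = e0` on `C`:
  `al_union_fin` (for `z ∈ F`, `x ∈ C`: `T z x = w z = v z`).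
* `F ∪ A` is alive for `w` and for `v` (`al_union_fin`; for `z ∈ F`, `x ∈ A`: `T z x = w z = v z`), so
  `F ∪ A ∪ C` is alive for every `v'` with `v' = v` on `[0, b1)` and `v' = !e0` on `C`: `al_flip`.
* `s p` is a label of `F ∪ A`, `r i1 C` is a longer label of `F ∪ A ∪ C`, so `s p <+: r i1 C`
  (`Bas.ext_label` for the base `F ∪ A` and the bound `b1`); so `r i1 C` is incompatible with `l 0` and
  with `r 0 C'`.
* `beta <+: r i C` for all three `i` by `Bas.ext_label` (for `F` and `C`, respectively the extendible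
  sets and `F ∪ A p ∪ C`: `beta` is an initial segment of `Psi (F ∪ A p ∪ S)` by soundness as `F` is
  an initial segment of this solution). -/

namespace Pool.Agent.helper6.GE

variable {T : ℕ → ℕ → Bool} {L : Finset ℕ → List Bool → Prop} {Psi : Set ℕ → ℕ → Bool}

theorem mk_item (st : Stat T L Psi) {w v : ℕ → Bool} {b b1 β c : ℕ} (hb : b ≤ b1) (hb1 : b1 ≤ β)
    {F : Finset ℕ} (hF : Bas T b w F) (hv : Al T F v) (hvw : ∀ x ∈ F, v x = w x)
    {A : Bool → Finset ℕ} (hAF : ∀ p, A p ∈ Fam T (Res T b w)) (hAlt : ∀ p, ∀ x ∈ A p, x < b1)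
    (hAw : ∀ p, ∃ e, ∀ x ∈ A p, w x = e) (hAv : ∀ p, ∃ e, ∀ x ∈ A p, v x = e)
    {s : Bool → List Bool} (hs : ∀ p, L (F ∪ A p) (s p)) (hinc : Inc (s false) (s true))
    {Z : Finset (Finset ℕ)} (hZ : Big 32 (Z : Set (Finset ℕ)))
    (hZF : ∀ C ∈ Z, C ∈ Fam T (Res T b1 w)) (hZE : ∀ C ∈ Z, Ext T (Res T b1 w) C)
    (hZlt : ∀ C ∈ Z, ∀ x ∈ C, x < β)
    {l : Fin 3 → List Bool} {r : Fin 3 → Finset ℕ → List Bool}
    (hlr : ∀ i, ∀ C ∈ Z, l i <+: r i C)
    (hr : ∀ i, ∀ C ∈ Z, L ((![F, F ∪ A false, F ∪ A true] : Fin 3 → Finset ℕ) i ∪ C) (r i C))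
    (hls : ∀ i p, (s p).length ≤ (l i).length) (hlc : ∀ i, c ≤ (l i).length)
    {beta : List Bool} (hlb : ∀ i, beta.length ≤ (l i).length)
    (hbeta : beta = [] ∨ (F.Nonempty ∧ L F beta)) :
    ∃ θ : Item, θ.OK T L β ∧ θ.c = c ∧ θ.act = none ∧ θ.b = b1 ∧ θ.u = v ∧ θ.src = F ∧ θ.Z = Z ∧
      (∀ e, ∃ i, ∀ C ∈ Z, θ.r e C = r i C) ∧
      (∀ C ∈ Z, ∀ C' ∈ Z, Inc (θ.r false C) (θ.r true C')) ∧
      ∀ e, ∀ C ∈ Z, beta <+: θ.r e C := by
  have hwF : ∀ C ∈ Z, ∀ x ∈ C, ∀ z, z < b1 → T z x = w z := fun C hC x hx z hz =>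
    ((hZF C hC).2.1 hx).2 z hz
  have hCb : ∀ C ∈ Z, ∀ x ∈ C, b1 ≤ x := fun C hC x hx => ((hZF C hC).2.1 hx).1
  have hAb : ∀ p, ∀ x ∈ A p, b ≤ x := fun p x hx => ((hAF p).2.1 hx).1
  have hFlt : ∀ x ∈ F, x < b1 := fun x hx => lt_of_lt_of_le (hF.lt x hx) hb
  have hF1 : Bas T b1 w F := ⟨hFlt, hF.al⟩
  -- the sets `F ∪ A p`
  have hFA : ∀ p, Bas T b1 w (F ∪ A p) := by
    intro p
    refine ⟨fun x hx => ?_, ?_⟩
    · rcases Finset.mem_union.mp hx with hx | hx
      · exact hFlt x hx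
      · exact hAlt p x hx
    · exact al_union_fin st.tour hF.al
        (fun x hx z hz => ((hAF p).2.1 hx).2 z (hF.lt z hz)) (hAF p).2.2 (hAw p)
  have hFAv : ∀ p, Al T (F ∪ A p) v := fun p =>
    al_union_fin st.tour hv
      (fun x hx z hz => by rw [hvw z hz]; exact ((hAF p).2.1 hx).2 z (hF.lt z hz))
      (hAF p).2.2 (hAv p)
  -- the labels extend `beta`
  have hbeta0 : ∀ C ∈ Z, beta <+: r 0 C := by
    intro C hC
    rcases hbeta with h1 | ⟨h1, h2⟩
    · rw [h1]
      exact List.nil_prefix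
    · exact Bas.ext_label st hF1 h1 (hZF C hC).1 (hZE C hC) h2 (hr 0 C hC)
        ((hlb 0).trans (hlr 0 C hC).length_le)
  have hbeta1 : ∀ p, ∀ C ∈ Z, ∀ ρ, L (F ∪ A p ∪ C) ρ → beta.length ≤ ρ.length →
      beta <+: ρ := by
    intro p C hC ρ hρ hl
    rcases hbeta with h1 | ⟨h1, h2⟩
    · rw [h1]
      exact List.nil_prefix
    · obtain ⟨S, hS, hSol, hSeg⟩ := hZE C hC
      have h3 : Pre ρ (Psi (((F ∪ A p : Finset ℕ) : Set ℕ) ∪ S)) :=
        Bas.pre st (hFA p) hS hSol (hZF C hC).1 hSeg hρ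
      have h4 : Sol T (((F ∪ A p : Finset ℕ) : Set ℕ) ∪ S) := Bas.sol st (hFA p) hS hSol
      have h5 : Seg F (((F ∪ A p : Finset ℕ) : Set ℕ) ∪ S) := by
        rw [Finset.coe_union, Set.union_assoc]
        refine seg_left hF.lt fun x hx => ?_
        rcases hx with hx | hx
        · exact hAb p x hx
        · exact hb.trans (hS hx).1
      have h6 := st.sound _ h4 F h1 h5 beta h2
      exact h6.le h3 hl
  have hspre : ∀ p, ∀ C ∈ Z, ∀ ρ, L (F ∪ A p ∪ C) ρ → (s p).length ≤ ρ.length →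
      s p <+: ρ := by
    intro p C hC ρ hρ hl
    have hne : (F ∪ A p).Nonempty := (hAF p).1.mono Finset.subset_union_right
    exact Bas.ext_label st (hFA p) hne (hZF C hC).1 (hZE C hC) (hs p) hρ hl
  -- the choice of `p`
  have hp : ∃ p, Inc (s p) (l 0) := by
    rcases inc_or hinc (hls 0 false) (hls 0 true) with h1 | h1
    · exact ⟨false, h1⟩
    · exact ⟨true, h1⟩
  obtain ⟨p, hp⟩ := hp
  obtain ⟨e0, he0⟩ := hAw p
  let i1 : Fin 3 := if p = false then 1 else 2
  have hi1 : (![F, F ∪ A false, F ∪ A true] : Fin 3 → Finset ℕ) i1 = F ∪ A p := by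
    cases p
    · rfl
    · rfl
  have hr1 : ∀ C ∈ Z, L (F ∪ A p ∪ C) (r i1 C) := by
    intro C hC
    have := hr i1 C hC
    rw [hi1] at this
    exact this
  have hr0 : ∀ C ∈ Z, L (F ∪ C) (r 0 C) := fun C hC => hr 0 C hC
  -- the labels of the two colours are incompatible
  have hI : ∀ C ∈ Z, ∀ C' ∈ Z, Inc (r 0 C) (r i1 C') := by
    intro C hC C' hC'
    have h1 : s p <+: r i1 C' :=
      hspre p C' hC' _ (hr1 C' hC') ((hls i1 p).trans (hlr i1 C' hC').length_le)
    exact (hp.symm.left (hlr 0 C hC)).right h1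
  let Nn : Bool → Finset ℕ := fun e => if e = e0 then F else F ∪ A p
  let rr : Bool → Finset ℕ → List Bool := fun e => if e = e0 then r 0 else r i1
  refine ⟨⟨c, F, b1, v, Nn, Z, rr, none⟩, ?_, rfl, rfl, rfl, rfl, rfl, rfl, ?_, ?_, ?_⟩
  · refine ⟨hb1, ?_, ?_, ?_, ?_, ?_, ?_, ?_⟩
    · intro e x hx
      by_cases h1 : e = e0
      · simp only [Nn, h1, if_true] at hx
        exact hFlt x hx
      · simp only [Nn, h1, if_false] at hx
        exact (hFA p).lt x hx
    · intro e
      by_cases h1 : e = e0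
      · simp only [Nn, h1, if_true]
        exact seg_refl F
      · simp only [Nn, h1, if_false]
        exact seg_left_fin hF.lt (hAb p)
    · exact fun C hC => (hZF C hC).1
    · exact fun C hC x hx => ⟨hCb C hC x hx, hZlt C hC x hx⟩
    · intro e _ C hC v' hv' hvC
      simp only at hv'
      by_cases h1 : e = e0
      · simp only [Nn, h1, if_true]
        refine al_union_fin st.tour (hv.congr fun x hx => hv' x (hFlt x hx))
          (fun x hx z hz => ?_) (hZF C hC).2.2 ⟨e, hvC⟩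
        rw [hwF C hC x hx z (hFlt z hz), hv' z (hFlt z hz), hvw z hz]
      · simp only [Nn, h1, if_false]
        have h2 : e = !e0 := by
          cases e <;> cases e0 <;> simp_all
        refine al_flip (w := w) (e0 := e0) st.tour (hFA p).al
          ((hFAv p).congr fun x hx => hv' x ((hFA p).lt x hx)) (fun x hx => ?_) he0
          (fun x hx z hz => hwF C hC x hx z ((hFA p).lt z hz)) (hZF C hC).2.2 (fun x hx => ?_)
        · rw [hv' x (hFlt x hx), hvw x hx]
        · rw [hvC x hx, h2]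
    · intro e _ C hC
      by_cases h1 : e = e0
      · simp only [Nn, rr, h1, if_true]
        exact ⟨hr0 C hC, (hlc 0).trans (hlr 0 C hC).length_le⟩
      · simp only [Nn, rr, h1, if_false]
        exact ⟨hr1 C hC, (hlc i1).trans (hlr i1 C hC).length_le⟩
    · simp only [if_true]
      exact hZ
  · intro e
    by_cases h1 : e = e0
    · exact ⟨0, fun C _ => by simp only [rr, h1, if_true]⟩
    · exact ⟨i1, fun C _ => by simp only [rr, h1, if_false]⟩
  · intro C hC C' hC'
    cases e0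
    · simp only [rr, if_true, Bool.true_eq_false, if_false]
      exact hI C hC C' hC'
    · simp only [rr, if_true, Bool.false_eq_true, if_false]
      exact (hI C' hC' C hC).symm
  · intro e C hC
    by_cases h1 : e = e0
    · simp only [rr, h1, if_true]
      exact hbeta0 C hC
    · simp only [rr, h1, if_false]
      exact hbeta1 p C hC _ (hr1 C hC) ((hlb i1).trans (hlr i1 C hC).length_le)

end Pool.Agent.helper6.GE
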