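import Mathlib.Computability.RecursiveIn
import Mathlib.Topology.Constructions
import Pool.Agent.helper6.GE.Main

/-!
# `GEN_1` is not Weihrauch reducible to the Erdős–Moser principle, even by continuous functionals

There are no continuous functionals `Φ` (from reals to tournaments on `ℕ`) and `Ψ` (from pairs
of a real `X` and an infinite `Φ X`-transitive set `H` to reals) such that `Ψ (X, H)` is `1`-generic
relative to `X` for all such `X, H`.
-/

namespace Pool.Agent.helper6.GE.NotWeihrauch

/-- the initial segment of length `n` of the real `g` -/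
def initialSegment (g : ℕ → Bool) (n : ℕ) : List Bool := (List.range n).map g

/-- the real `g` meets the set `D` of strings: some initial segment of `g` is in `D` -/
def Meets (g : ℕ → Bool) (D : Set (List Bool)) : Prop := ∃ n, initialSegment g n ∈ D

/-- the real `g` avoids the set `D` of strings: some initial segment of `g` has no extension in
`D` -/
def Avoids (g : ℕ → Bool) (D : Set (List Bool)) : Prop := ∃ n, ∀ τ ∈ D, ¬ initialSegment g n <+: τ

/-- the set `D` of strings is `Σ⁰₁` relative to the real `X`: it is the domain of a partial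
function which is recursive in the characteristic function of `X` -/
def SigmaOneIn (X : ℕ → Bool) (D : Set (List Bool)) : Prop :=
  ∃ f : ℕ →. ℕ, Nat.RecursiveIn {fun n => Part.some (if X n = true then 1 else 0)} f ∧
    ∀ ρ : List Bool, ρ ∈ D ↔ (f (Encodable.encode ρ)).Dom

/-- the real `g` is `1`-generic relative to the real `X` -/
def OneGeneric (X g : ℕ → Bool) : Prop :=
  ∀ D : Set (List Bool), SigmaOneIn X D → Meets g D ∨ Avoids g D

/-- `T` (with `T x y = true` for an arrow from `x` to `y`) is a tournament on `ℕ` -/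
def IsTournament (T : ℕ → ℕ → Bool) : Prop :=
  (∀ x, T x x = false) ∧ ∀ x y, x ≠ y → T x y = !T y x

/-- `H` is an infinite set which is transitive for `T` -/
def IsSolution (T : ℕ → ℕ → Bool) (H : ℕ → Bool) : Prop :=
  {x | H x = true}.Infinite ∧ ∀ x y z, H x = true → H y = true → H z = true →
    T x y = true → T y z = true → T x z = true

theorem result :
    ¬ ∃ (Φ : (ℕ → Bool) → ℕ → ℕ → Bool) (Ψ : (ℕ → Bool) × (ℕ → Bool) → ℕ → Bool),
      Continuous Φ ∧ (∀ X, IsTournament (Φ X)) ∧
      ContinuousOn Ψ {z | IsSolution (Φ z.1) z.2} ∧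
      ∀ X H, IsSolution (Φ X) H → OneGeneric X (Ψ (X, H)) := by
  rintro ⟨Φ, Ψ, h1, h2, h3, h4⟩
  have hd : {z : (ℕ → Bool) × (ℕ → Bool) | IsSolution (Φ z.1) z.2} =
      Pool.Agent.helper6.GE.Doms Φ := by
    ext z
    constructor
    · rintro ⟨h5, h6⟩
      exact ⟨h5, fun x hx y hy w hw => h6 x y w hx hy hw⟩
    · rintro ⟨h5, h6⟩
      exact ⟨h5, fun x y w hx hy hw => h6 x hx y hy w hw⟩
  rw [hd] at h3
  refine Pool.Agent.helper6.GE.no_reduction ⟨Φ, Ψ, h1, h2, h3, fun z hz D hD => ?_⟩
  rw [← hd] at hz
  exact h4 z.1 z.2 hz D hD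

end Pool.Agent.helper6.GE.NotWeihrauch
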