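import Pool.Agent.helper6.GE.LimV
import Pool.Agent.helper6.GE.HS

/-! # GE-Off: labels off a finite set of reals

PROOF of `off_ibig`.  Otherwise there are `K, m, c : ℕ → Fin K` such that no `c`-constant
`B ∈ Fam T R` beyond `m` (`R = Res T b w`) has labels `r i` of `N i ∪ B` off `G`.

(1) For every solution `S ⊆ R`, `c`-constant and beyond `m`, there is `i` with
`Psi (N i ∪ S) ∈ G`: otherwise for large `n` all strings `ini (Psi (N i ∪ S)) n` are off `G` and
`lab_at` (with `B = ∅`) gives `B' ∈ Fam T R` beyond `m`, `c`-constant, with these labels.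

(2) Let `G'` be the set of the `g ∈ G` with `Dec g (Dset (VV T L p) q P n1)` for all `p, q, P, n1`; by
`Stat.gen` we have `Psi (N i ∪ S) ∈ G'` in (1) (`N i ∪ S` is a solution, `Bas.sol`).

(3) Let `m', c'` be from `key_mono` for `c, m`.  Put
`p = ⟨b, (Finset.range b).filter fun v => w v = true, N, K * 2, m'⟩`, `V = VV T L p`; note
`Res T b (fun v => decide (v ∈ p.w)) = R` (`res_congr`).  `V n` is not empty: `lim_vec` for
`A = Fam T R` (`fam_ibig`), then `big_finite` for the members beyond `m'`.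

(4) `hitting` for `V, G', n0 = 0`: let `l ∈ V n` with the finite family `A`, `Big (K * 2) A`; the
colouring `c'` (with `Fin K × Bool ≃ Fin (K * 2)`, `big_fintype`) is constant on some `B ∈ A`;
`key_mono` gives a solution `S` with `Seg B S`, `c`-constant, beyond `m`; (2) gives `i` with
`Psi (N i ∪ S) ∈ G'`, and `Pre (l i) (Psi (N i ∪ S))` by `Bas.pre`. -/

namespace Pool.Agent.helper6.GE

variable {T : ℕ → ℕ → Bool} {L : Finset ℕ → List Bool → Prop} {Psi : Set ℕ → ℕ → Bool}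

theorem off_ibig (st : Stat T L Psi) {b : ℕ} {w : ℕ → Bool} (hR : (Res T b w).Infinite)
    {N : Fin 3 → Finset ℕ} (hN : ∀ i, Bas T b w (N i)) (G : Finset (ℕ → Bool)) :
    IBig {B | B ∈ Fam T (Res T b w) ∧ ∀ i, ∃ r, L (N i ∪ B) r ∧ ∀ g ∈ G, ¬ Pre r g} := by
  classical
  intro K m
  by_contra hcon
  unfold Big at hcon
  push Not at hcon
  obtain ⟨c, hc⟩ := hcon
  -- (1)
  have h1 : ∀ S : Set ℕ, S ⊆ Res T b w → Sol T S → (∀ x ∈ S, m < x) → (∃ k, ∀ x ∈ S, c x = k) →
      ∃ i, Psi ((N i : Set ℕ) ∪ S) ∈ G := by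
    intro S hS hSol hm hk
    by_contra hno
    rw [not_exists] at hno
    -- a level where all initial segments are off `G`
    have h2 : ∃ n, ∀ i, ∀ g ∈ G, ini (Psi ((N i : Set ℕ) ∪ S)) n ≠ ini g n := by
      have h3 : ∀ i, ∀ g ∈ G, ∃ n, ∀ n', n ≤ n' →
          ini (Psi ((N i : Set ℕ) ∪ S)) n' ≠ ini g n' := by
        intro i g hg
        refine exists_ne_of_ne fun h => hno i ?_
        rw [h]
        exact hg
      choose! f hf using h3
      refine ⟨Finset.univ.sup fun i => G.sup fun g => f i g, fun i g hg => hf i g hg _ ?_⟩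
      exact (Finset.le_sup (f := fun g => f i g) hg).trans
        (Finset.le_sup (f := fun i => G.sup fun g => f i g) (Finset.mem_univ i))
    obtain ⟨n, hn⟩ := h2
    obtain ⟨B', -, hB', hne, hL⟩ := lab_at st hN hS hSol (B := ∅)
      ⟨by simp, fun x _ _ z hz => absurd hz (Finset.notMem_empty z)⟩ n
    obtain ⟨k, hk⟩ := hk
    have hoff : ∀ i, ∀ g ∈ G, ¬ Pre (ini (Psi ((N i : Set ℕ) ∪ S)) n) g :=
      fun i g hg hpre => hn i g hg (hpre.eq_ini (ini_length _ n))
    obtain ⟨x, hx, hx'⟩ := hc B' ⟨⟨⟨hne, hB'.1.trans hS, hSol.2.mono hB'.1⟩, fun i =>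
      ⟨_, hL i, hoff i⟩⟩, fun x hx => hm x (hB'.1 hx)⟩ k
    exact hx' (hk x (hB'.1 hx))
  -- (2)
  let G' : Finset (ℕ → Bool) := G.filter fun g =>
    ∀ (p : Par) (q : ℕ) (P : Fin (q + 1) → List Bool) (n1 : ℕ), Dec g (Dset (VV T L p) q P n1)
  -- (3)
  obtain ⟨m', hmm', c', hc'⟩ := key_mono st.tour (Res T b w) c m
  let p : Par := ⟨b, (Finset.range b).filter fun v => w v = true, N, K * 2, m'⟩
  have hres : Res T p.b (fun v => decide (v ∈ p.w)) = Res T b w := by
    refine res_congr fun v hv => ?_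
    simp only [p, Finset.mem_filter, Finset.mem_range]
    cases hwv : w v
    · simp
    · simp only [and_true, decide_eq_true_eq]
      exact hv
  have hne : ∀ n, (VV T L p n).Nonempty := by
    intro n
    obtain ⟨g, hg⟩ := lim_vec st hN (fam_ibig T st.tour hR) subset_rfl
    obtain ⟨A, hA, hAb⟩ := big_finite (hg n (K * 2) m')
    refine ⟨fun i => ini (g i) n, fun i => ini_length _ _, A, hAb, fun B hB => ?_⟩
    have h2 := hA hB
    rw [hres]
    exact ⟨h2.1.1, h2.2, h2.1.2.2.2⟩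
  refine hitting (VV T L p) (fun n l hl => hl.1) hne G'
    (fun g hg q P n1 => (Finset.mem_filter.mp hg).2 p q P n1) 0 ?_
  intro n _ l hl
  obtain ⟨-, A, hAb, hA⟩ := hl
  have h2 : Big (Fintype.card (Fin K × Bool)) (A : Set (Finset ℕ)) := by
    simpa using hAb
  obtain ⟨B, hB, k, hk⟩ := big_fintype h2 c'
  obtain ⟨hB1, hB2, hB3⟩ := hA B hB
  rw [hres] at hB1
  obtain ⟨S, hS, hSol, hSeg, hm, hk'⟩ := hc' B hB1 hB2 ⟨k, hk⟩
  obtain ⟨i, hi⟩ := h1 S hS hSol hm hk'
  refine ⟨i, _, Finset.mem_filter.mpr ⟨hi, fun p q P n1 => ?_⟩,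
    Bas.pre st (hN i) hS hSol hB1.1 hSeg (hB3 i)⟩
  exact st.gen _ (Bas.sol st (hN i) hS hSol) p q P n1

end Pool.Agent.helper6.GE
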