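import Pool.Agent.helper6.GE.Str

/-! # GE-Open: the sets which have to be decided are uniformly open in the instance

`Φ X` is the tournament, `Ψ X (chi H)` the real computed from the solution `H`.

PROOF of `dset_open`.  (1) `{X | Lab Φ Ψ X F ρ}` is open: if `t` is a witness for `X` it is a witness
for all `X'` which agree with `X` below `t`.  (2) `{X | l ∈ VV (Φ X) (Lab Φ Ψ X) p n}` is open: union
over the finite sets `A` with `Big p.K A` of finite intersections of open sets (for fixed `B` the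
condition `B ∈ Fam (Φ X) (Res (Φ X) b w)` is clopen: finitely many values of `Φ X`).  (3) The
complement of the set in question is everything (if `¬ P 0 <+: ρ`) or the image under the projection
of the closed subset of `(ℕ → Bool) × (Fin (q + 1) → ℕ → Bool)` of all `(X, x)` with
`∀ j, Pre (P j) (x j)`, `Pre ρ (x 0)`, and for all `n ≥ n1` and all `l`:
`l ∉ VV … n ∨ ∃ i j, Pre (l i) (x j)`.  The second factor is compact, so the projection is closed
(`isClosedMap_fst_of_compactSpace`). -/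

namespace Pool.Agent.helper6.GE

/-- indicator function -/
noncomputable def chi (S : Set ℕ) (n : ℕ) : Bool := by
  classical exact decide (n ∈ S)

/-- the string `ρ` is forced by the finite initial segment `F` of the solution, for all instances near
`X` -/
def Lab (Φ : (ℕ → Bool) → ℕ → ℕ → Bool) (Ψ : (ℕ → Bool) → (ℕ → Bool) → ℕ → Bool)
    (X : ℕ → Bool) (F : Finset ℕ) (ρ : List Bool) : Prop :=
  ∃ t : ℕ, ∀ X' : ℕ → Bool, (∀ n < t, X' n = X n) → ∀ S, Sol (Φ X') S → Seg F S →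
    Pre ρ (Ψ X' (chi S))

theorem pre_clopen (σ : List Bool) : IsClopen {g : ℕ → Bool | Pre σ g} := by
  have h1 : {g : ℕ → Bool | Pre σ g} =
      ⋂ i : Fin σ.length, (fun g : ℕ → Bool => g i) ⁻¹' {σ[i]} := by
    ext g
    simp only [Set.mem_setOf_eq, Set.mem_iInter, Set.mem_preimage, Set.mem_singleton_iff]
    rw [pre_iff]
    constructor
    · intro h i
      exact (h i i.2).symm
    · intro h i hi
      exact (h ⟨i, hi⟩).symm
  rw [h1]
  exact isClopen_iInter_of_finite fun i =>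
    (isClopen_discrete _).preimage (continuous_apply (i : ℕ))

theorem Open_cyl (X : ℕ → Bool) (t : ℕ) : IsOpen {X' : ℕ → Bool | ∀ n < t, X' n = X n} := by
  have h1 : {X' : ℕ → Bool | ∀ n < t, X' n = X n} = {g : ℕ → Bool | Pre (ini X t) g} := by
    ext X'
    simp only [Set.mem_setOf_eq]
    unfold Pre
    rw [ini_length, ini_eq_iff]
  rw [h1]
  exact (pre_clopen _).2

theorem lab_open (Φ : (ℕ → Bool) → ℕ → ℕ → Bool) (Ψ : (ℕ → Bool) → (ℕ → Bool) → ℕ → Bool)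
    (F : Finset ℕ) (ρ : List Bool) : IsOpen {X | Lab Φ Ψ X F ρ} := by
  rw [isOpen_iff_forall_mem_open]
  rintro X ⟨t, ht⟩
  refine ⟨{X' : ℕ → Bool | ∀ n < t, X' n = X n}, ?_, Open_cyl X t, fun n _ => rfl⟩
  intro X' hX'
  refine ⟨t, fun X'' hX'' => ht X'' fun n hn => ?_⟩
  rw [hX'' n hn, hX' n hn]

theorem Open_loc {Φ : (ℕ → Bool) → ℕ → ℕ → Bool} (hΦ : Continuous Φ) (X : ℕ → Bool) (M : ℕ) :
    IsOpen {X' | ∀ x < M, ∀ y < M, Φ X' x y = Φ X x y} := by
  have h1 : ∀ x y, IsOpen {X' | Φ X' x y = Φ X x y} := by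
    intro x y
    have h2 : Continuous fun X' => Φ X' x y :=
      (continuous_apply y).comp ((continuous_apply x).comp hΦ)
    exact (isOpen_discrete {Φ X x y}).preimage h2
  have h2 : {X' | ∀ x < M, ∀ y < M, Φ X' x y = Φ X x y} =
      ⋂ x ∈ Set.Iio M, ⋂ y ∈ Set.Iio M, {X' | Φ X' x y = Φ X x y} := by
    ext X'
    simp
  rw [h2]
  exact (Set.finite_Iio M).isOpen_biInter fun x _ =>
    (Set.finite_Iio M).isOpen_biInter fun y _ => h1 x y

theorem Open_fam {Φ : (ℕ → Bool) → ℕ → ℕ → Bool} (hΦ : Continuous Φ) (b : ℕ) (w : ℕ → Bool)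
    (B : Finset ℕ) : IsOpen {X | B ∈ Fam (Φ X) (Res (Φ X) b w)} := by
  rw [isOpen_iff_forall_mem_open]
  rintro X ⟨h1, h2, h3⟩
  obtain ⟨M, hM⟩ : ∃ M, ∀ x ∈ B, x < M := ⟨B.sup id + 1, fun x hx =>
    Nat.lt_succ_of_le (Finset.le_sup (f := id) hx)⟩
  refine ⟨{X' | ∀ x < max M b, ∀ y < max M b, Φ X' x y = Φ X x y}, ?_, Open_loc hΦ X _,
    fun x _ y _ => rfl⟩
  intro X' hX'
  have hB : ∀ x ∈ B, x < max M b := fun x hx => (hM x hx).trans_le (le_max_left _ _)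
  refine ⟨h1, fun x hx => ?_, fun x hx y hy z hz => ?_⟩
  · have hx' : x ∈ B := hx
    obtain ⟨h4, h5⟩ := h2 hx
    refine ⟨h4, fun v hv => ?_⟩
    rw [hX' v (hv.trans_le (le_max_right _ _)) x (hB x hx')]
    exact h5 v hv
  · rw [hX' x (hB x hx) y (hB y hy), hX' y (hB y hy) z (hB z hz), hX' x (hB x hx) z (hB z hz)]
    exact h3 x hx y hy z hz

theorem vv_open {Φ : (ℕ → Bool) → ℕ → ℕ → Bool} (hΦ : Continuous Φ)
    (Ψ : (ℕ → Bool) → (ℕ → Bool) → ℕ → Bool) (p : Par) (n : ℕ) (l : Fin 3 → List Bool) :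
    IsOpen {X | l ∈ VV (Φ X) (Lab Φ Ψ X) p n} := by
  have h1 : {X | l ∈ VV (Φ X) (Lab Φ Ψ X) p n} = {X | (∀ i, (l i).length = n) ∧
      ∃ A : Finset (Finset ℕ), Big p.K (A : Set (Finset ℕ)) ∧ ∀ B ∈ A,
        B ∈ Fam (Φ X) (Res (Φ X) p.b fun v => decide (v ∈ p.w)) ∧ (∀ x ∈ B, p.m < x) ∧
          ∀ i, Lab Φ Ψ X (p.N i ∪ B) (l i)} := rfl
  rw [h1]
  refine IsOpen.inter isOpen_const ?_
  have h2 : {X | ∃ A : Finset (Finset ℕ), Big p.K (A : Set (Finset ℕ)) ∧ ∀ B ∈ A,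
        B ∈ Fam (Φ X) (Res (Φ X) p.b fun v => decide (v ∈ p.w)) ∧ (∀ x ∈ B, p.m < x) ∧
          ∀ i, Lab Φ Ψ X (p.N i ∪ B) (l i)} =
      ⋃ A : Finset (Finset ℕ), {X | Big p.K (A : Set (Finset ℕ))} ∩
        ⋂ B ∈ A, ({X | B ∈ Fam (Φ X) (Res (Φ X) p.b fun v => decide (v ∈ p.w))} ∩
          ({X | ∀ x ∈ B, p.m < x} ∩ ⋂ i, {X | Lab Φ Ψ X (p.N i ∪ B) (l i)})) := by
    ext X
    simp only [Set.mem_setOf_eq, Set.mem_iUnion, Set.mem_inter_iff, Set.mem_iInter]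
  show IsOpen {X | ∃ A : Finset (Finset ℕ), Big p.K (A : Set (Finset ℕ)) ∧ ∀ B ∈ A,
        B ∈ Fam (Φ X) (Res (Φ X) p.b fun v => decide (v ∈ p.w)) ∧ (∀ x ∈ B, p.m < x) ∧
          ∀ i, Lab Φ Ψ X (p.N i ∪ B) (l i)}
  rw [h2]
  refine isOpen_iUnion fun A => isOpen_const.inter (isOpen_biInter_finset fun B _ => ?_)
  exact (Open_fam hΦ _ _ B).inter (isOpen_const.inter
    (isOpen_iInter_of_finite fun i => lab_open Φ Ψ _ _))

theorem dset_open {Φ : (ℕ → Bool) → ℕ → ℕ → Bool} (hΦ : Continuous Φ)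
    (Ψ : (ℕ → Bool) → (ℕ → Bool) → ℕ → Bool) (p : Par) (q : ℕ) (P : Fin (q + 1) → List Bool)
    (n1 : ℕ) (ρ : List Bool) :
    IsOpen {X | ρ ∈ Dset (VV (Φ X) (Lab Φ Ψ X) p) q P n1} := by
  set C : Set ((ℕ → Bool) × (Fin (q + 1) → ℕ → Bool)) :=
    {z | (∀ j, Pre (P j) (z.2 j)) ∧ Pre ρ (z.2 0) ∧
      ∀ n, n1 ≤ n → ∀ l, l ∈ VV (Φ z.1) (Lab Φ Ψ z.1) p n → ∃ i j, Pre (l i) (z.2 j)} with hC
  have hpre : ∀ (σ : List Bool) (j : Fin (q + 1)),
      IsClosed {z : (ℕ → Bool) × (Fin (q + 1) → ℕ → Bool) | Pre σ (z.2 j)} := by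
    intro σ j
    have h2 : Continuous fun z : (ℕ → Bool) × (Fin (q + 1) → ℕ → Bool) => z.2 j :=
      (continuous_apply j).comp continuous_snd
    exact (pre_clopen σ).1.preimage h2
  have hCc : IsClosed C := by
    have h1 : C = (⋂ j, {z | Pre (P j) (z.2 j)}) ∩ ({z | Pre ρ (z.2 0)} ∩
        ⋂ (n : ℕ), ⋂ (_ : n1 ≤ n), ⋂ (l : Fin 3 → List Bool),
          ({z | l ∈ VV (Φ z.1) (Lab Φ Ψ z.1) p n}ᶜ ∪ ⋃ (i : Fin 3), ⋃ (j : Fin (q + 1)),
            {z | Pre (l i) (z.2 j)})) := by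
      ext z
      simp only [hC, Set.mem_setOf_eq, Set.mem_inter_iff, Set.mem_iInter, Set.mem_union,
        Set.mem_compl_iff, Set.mem_iUnion]
      simp only [imp_iff_not_or]
    rw [h1]
    refine (isClosed_iInter fun j => hpre _ _).inter ((hpre _ _).inter ?_)
    refine isClosed_iInter fun n => isClosed_iInter fun _ => isClosed_iInter fun l => ?_
    refine IsClosed.union ?_ ?_
    · rw [isClosed_compl_iff]
      exact (vv_open hΦ Ψ p n l).preimage continuous_fst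
    · exact isClosed_iUnion_of_finite fun i => isClosed_iUnion_of_finite fun j => hpre _ _
  have himg : IsClosed (Prod.fst '' C) := isClosedMap_fst_of_compactSpace C hCc
  have h1 : {X | ρ ∈ Dset (VV (Φ X) (Lab Φ Ψ X) p) q P n1} =
      {X | P 0 <+: ρ} ∩ (Prod.fst '' C)ᶜ := by
    ext X
    simp only [Dset, Set.mem_setOf_eq, Set.mem_inter_iff, Set.mem_compl_iff]
    refine and_congr_right fun _ => not_congr ?_
    constructor
    · rintro ⟨x, h2, h3, h4⟩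
      exact ⟨(X, x), ⟨h2, h3, h4⟩, rfl⟩
    · rintro ⟨⟨X', x⟩, ⟨h2, h3, h4⟩, h5⟩
      have h6 : X' = X := h5
      subst h6
      exact ⟨x, h2, h3, h4⟩
  rw [h1]
  exact isOpen_const.inter himg.isOpen_compl

end Pool.Agent.helper6.GE
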