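import Pool.Agent.helper6.GE.Tour

/-! # GE-Ram: infinite transitive sets and the key colouring

PROOF of `exists_sol`: `U` an ultrafilter with `R ∈ U` and `U ≤ cofinite`, `w = pat T U`, `e` with
`{x | w x = e} ∈ U`; `exists_seq_of_forall_finset_exists` with `P x = (x ∈ R ∧ w x = e)` and
`r x y = (x < y ∧ T x y = e)` gives a sequence `f`; its range is a solution.

PROOF of `key_mono`: for every colour `k` such that `{x ∈ R | c x = k}` is infinite let `U k` be an
ultrafilter `≤ cofinite` containing this set (any ultrafilter `≤ cofinite` otherwise); `m' ≥ m` is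
larger than all elements of the finite ones among the sets `{x ∈ R | c x = k}`;
`c' x = (c x, pat T (U (c x)) x)`.  If `B ∈ Fam T R` is beyond `m'` and `c' = (k, e)` on `B`, then
`{x ∈ R | c x = k}` is infinite (as `B` is nonempty), the set `Y` of the `y ∈ R` with `c y = k`, larger
than `m` and all elements of `B` and with `T x y = e` for `x ∈ B`, is in `U k`, thus infinite; let
`S' ⊆ Y` be a solution (`exists_sol`), `S = B ∪ S'`; it is transitive by `al_union` with the constant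
pattern `e`. -/

namespace Pool.Agent.helper6.GE

variable {T : ℕ → ℕ → Bool}

theorem Ram_ultra {R : Set ℕ} (hR : R.Infinite) :
    ∃ U : Ultrafilter ℕ, (U : Filter ℕ) ≤ Filter.cofinite ∧ R ∈ (U : Filter ℕ) := by
  have : (Filter.cofinite ⊓ Filter.principal R).NeBot := hR.cofinite_inf_principal_neBot
  refine ⟨Ultrafilter.of (Filter.cofinite ⊓ Filter.principal R), ?_, ?_⟩
  · exact (Ultrafilter.of_le _).trans inf_le_left
  · exact Filter.le_principal_iff.1 ((Ultrafilter.of_le _).trans inf_le_right)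

theorem Ram_gt {U : Ultrafilter ℕ} (hU : (U : Filter ℕ) ≤ Filter.cofinite) (m : ℕ) :
    ∀ᶠ y in (U : Filter ℕ), m < y := by
  refine hU ?_
  have h : {y : ℕ | m < y}ᶜ.Finite := by
    refine (Set.finite_Iic m).subset fun y hy => ?_
    simpa using hy
  exact h

theorem Ram_infinite {U : Ultrafilter ℕ} (hU : (U : Filter ℕ) ≤ Filter.cofinite) {Y : Set ℕ}
    (hY : Y ∈ (U : Filter ℕ)) : Y.Infinite := by
  intro hfin
  have h1 : Yᶜ ∈ (U : Filter ℕ) := hU hfin.compl_mem_cofinite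
  have h2 := Filter.inter_mem hY h1
  rw [Set.inter_compl_self] at h2
  exact Filter.empty_notMem (U : Filter ℕ) h2

theorem exists_sol (hT : Tour T) {R : Set ℕ} (hR : R.Infinite) : ∃ S : Set ℕ, S ⊆ R ∧ Sol T S := by
  obtain ⟨U, hU, hRU⟩ := Ram_ultra hR
  obtain ⟨e, he⟩ : ∃ e : Bool, ∀ᶠ x in (U : Filter ℕ), pat T U x = e := by
    by_cases h : {x | pat T U x = true} ∈ (U : Filter ℕ)
    · exact ⟨true, h⟩
    · refine ⟨false, ?_⟩
      have h1 : {x | pat T U x = true}ᶜ ∈ (U : Filter ℕ) := Ultrafilter.compl_mem_iff_notMem.2 h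
      filter_upwards [h1] with x hx
      simpa using hx
  obtain ⟨f, hf, hr⟩ := exists_seq_of_forall_finset_exists
    (fun x => x ∈ R ∧ pat T U x = e) (fun x y => x < y ∧ T x y = e) (by
      intro s hs
      have h1 : ∀ᶠ y in (U : Filter ℕ), ∀ x ∈ s, x < y ∧ T x y = e := by
        rw [Filter.eventually_all_finset]
        intro x hx
        filter_upwards [Ram_gt hU x, pat_spec T U x] with y h2 h3
        exact ⟨h2, by rw [h3]; exact (hs x hx).2⟩
      obtain ⟨y, h2, h3, h4⟩ := (h1.and ((Filter.eventually_mem_set.2 hRU).and he)).exists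
      exact ⟨y, ⟨h3, h4⟩, h2⟩)
  have hmono : StrictMono f := fun a b hab => (hr a b hab).1
  have hlt : ∀ a b, a < b → T (f a) (f b) = e := fun a b hab => (hr a b hab).2
  have hgt : ∀ a b, b < a → T (f a) (f b) = !e := by
    intro a b hab
    rw [hT.2 (f a) (f b) (hmono hab).ne', hlt b a hab]
  refine ⟨Set.range f, ?_, Set.infinite_range_of_injective hmono.injective, ?_⟩
  · rintro _ ⟨n, rfl⟩
    exact (hf n).1
  · rintro _ ⟨a, rfl⟩ _ ⟨b, rfl⟩ _ ⟨c, rfl⟩ h1 h2
    have key : ∀ i j, T (f i) (f j) = true → (i < j ∧ e = true) ∨ (j < i ∧ e = false) := by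
      intro i j h
      rcases lt_trichotomy i j with hij | hij | hij
      · left
        rw [hlt i j hij] at h
        exact ⟨hij, h⟩
      · rw [hij, hT.1] at h
        exact absurd h (by simp)
      · right
        rw [hgt i j hij] at h
        refine ⟨hij, ?_⟩
        simpa using h
    rcases key a b h1 with ⟨h3, h4⟩ | ⟨h3, h4⟩
    · rcases key b c h2 with ⟨h5, -⟩ | ⟨-, h6⟩
      · rw [hlt a c (h3.trans h5), h4]
      · rw [h4] at h6
        exact absurd h6 (by simp)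
    · rcases key b c h2 with ⟨-, h6⟩ | ⟨h5, -⟩
      · rw [h4] at h6
        exact absurd h6 (by simp)
      · rw [hgt a c (h5.trans h3), h4]
        rfl

theorem key_mono (hT : Tour T) (R : Set ℕ) {K : ℕ} (c : ℕ → Fin K) (m : ℕ) :
    ∃ m' : ℕ, m ≤ m' ∧ ∃ c' : ℕ → Fin K × Bool, ∀ B : Finset ℕ, B ∈ Fam T R →
      (∀ x ∈ B, m' < x) → (∃ k, ∀ x ∈ B, c' x = k) →
      ∃ S : Set ℕ, S ⊆ R ∧ Sol T S ∧ Seg B S ∧ (∀ x ∈ S, m < x) ∧ ∃ k, ∀ x ∈ S, c x = k := by
  classical
  have hU : ∀ k : Fin K, ∃ U : Ultrafilter ℕ, (U : Filter ℕ) ≤ Filter.cofinite ∧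
      ({x | x ∈ R ∧ c x = k}.Infinite → {x | x ∈ R ∧ c x = k} ∈ (U : Filter ℕ)) := by
    intro k
    by_cases h : {x | x ∈ R ∧ c x = k}.Infinite
    · obtain ⟨U, h1, h2⟩ := Ram_ultra h
      exact ⟨U, h1, fun _ => h2⟩
    · obtain ⟨U, h1, -⟩ := Ram_ultra (R := Set.univ) Set.infinite_univ
      exact ⟨U, h1, fun h' => absurd h' h⟩
  choose U hU1 hU2 using hU
  have hbd : ∀ k : Fin K, ∃ b : ℕ, ¬ {x | x ∈ R ∧ c x = k}.Infinite →
      ∀ x, x ∈ R → c x = k → x ≤ b := by
    intro k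
    by_cases h : {x | x ∈ R ∧ c x = k}.Infinite
    · exact ⟨0, fun h' => absurd h h'⟩
    · obtain ⟨b, hb⟩ := (Set.not_infinite.1 h).bddAbove
      exact ⟨b, fun _ x hx hk => hb ⟨hx, hk⟩⟩
  choose b hb using hbd
  refine ⟨m + ∑ k, b k, Nat.le_add_right _ _, fun x => (c x, pat T (U (c x)) x), ?_⟩
  rintro B ⟨hBne, hBR, hBT⟩ hBm ⟨⟨k, e⟩, hk⟩
  have hck : ∀ x ∈ B, c x = k := fun x hx => congrArg Prod.fst (hk x hx)
  have hpe : ∀ x ∈ B, pat T (U k) x = e := by
    intro x hx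
    have h1 := congrArg Prod.snd (hk x hx)
    simp only [hck x hx] at h1
    exact h1
  have hinf : {x | x ∈ R ∧ c x = k}.Infinite := by
    by_contra h
    obtain ⟨x, hx⟩ := hBne
    have h1 := hb k h x (hBR hx) (hck x hx)
    have h2 := hBm x hx
    have h3 : b k ≤ ∑ k, b k := Finset.single_le_sum (fun _ _ => Nat.zero_le _) (Finset.mem_univ k)
    omega
  have hY : {y | (y ∈ R ∧ c y = k) ∧ (∀ x ∈ B, x < y ∧ T x y = e) ∧ m < y} ∈
      (U k : Filter ℕ) := by
    have h1 : ∀ᶠ y in (U k : Filter ℕ), ∀ x ∈ B, x < y ∧ T x y = e := by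
      rw [Filter.eventually_all_finset]
      intro x hx
      filter_upwards [Ram_gt (hU1 k) x, pat_spec T (U k) x] with y h2 h3
      exact ⟨h2, by rw [h3]; exact hpe x hx⟩
    filter_upwards [hU2 k hinf, h1, Ram_gt (hU1 k) m] with y h2 h3 h4
    exact ⟨h2, h3, h4⟩
  obtain ⟨S', hS'Y, hS'inf, hS'T⟩ := exists_sol hT (Ram_infinite (hU1 k) hY)
  refine ⟨(B : Set ℕ) ∪ S', ?_, ⟨?_, ?_⟩, ⟨?_, ?_⟩, ?_, k, ?_⟩
  · rintro x (hx | hx)
    · exact hBR hx
    · exact (hS'Y hx).1.1
  · exact hS'inf.mono Set.subset_union_right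
  · refine al_union hT (w := fun _ => e) ⟨hBT, fun _ _ _ _ _ h => h⟩ ?_ hS'T
    intro x hx v hv
    exact ((hS'Y hx).2.1 v hv).2
  · exact Set.subset_union_left
  · rintro x (hx | hx) hxB z hz
    · exact absurd hx hxB
    · exact ((hS'Y hx).2.1 z hz).1
  · rintro x (hx | hx)
    · have := hBm x hx
      omega
    · exact (hS'Y hx).2.2
  · rintro x (hx | hx)
    · exact hck x hx
    · exact (hS'Y hx).1.2

end Pool.Agent.helper6.GE
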