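import Pool.Agent.helper6.GE.MkItem

/-! # GE-Spawn: the spawning lemma

PROOF.  Let `w = pat T U`; all sets `Res T b' w` are infinite (`res_pat_infinite`).

(1) `bl` in `Res T b w` for the index type `I × Bool`, `N (i, p) = (F i, F i, F i)`, `K = 4`, `n0 = 0`:
`4`-big finite families `J (i, p)` with labels `s (i, p) B` of `F i ∪ B`, those for `(i, false)` and
`(i, true)` being incompatible.  Let `b1 ≥ b` be a bound for all elements of all these sets.

(2) Let `κ` be the (finite) type of the pairs `(v, i)`, `v : Fin b1 → Bool`, such that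
`Asg (ext v) i`, where `ext v x = v x` for `x < b1` and `= false` otherwise.  For `(v, i)` and `p`
choose `A p ∈ J (i, p)` on which `w` and `ext v` are constant (the family is `4`-big, colour
`x` by `(w x, ext v x)`, `big_fintype`).

(3) `bl` in `Res T b1 w` for the index type `κ ⊕ I`: the triple of `(v, i)` is
`(F i, F i ∪ A false, F i ∪ A true)`, the triple of `i` is `(F i, F i, F i)`; `K = 32`, `n0` larger than
`c`, all `(beta i).length` and the lengths of all labels in (1).  (`Bas T b1 w (F i ∪ A p)` by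
`al_union_fin`.)  Let `β ≥ b1` be a bound for all elements of all these sets.

(4) `mk_item` for every `(v, i) : κ`; `S` is the set of these items (the range over the finite type
`κ`).  `tau i` is the label `r 0 B` for some `B` in the family of `i` (it is not empty, being
`32`-big); it extends `beta i` by `Bas.ext_label`.  `sep`: different items (or different colours of one
item): for `(v, i) ≠ (v', i')` the labels are incompatible by (3), for `(v, i) = (v', i')` the items are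
equal, the colours are different, and `mk_item` gives the incompatibility.  `cover`: if `Asg v' i`
then `v = v'` restricted to `Fin b1` has `Asg (ext v) i` by `hAc`, and the item of `(v, i)` has
`Dom v'` (`act = none`). -/

namespace Pool.Agent.helper6.GE

variable {T : ℕ → ℕ → Bool} {L : Finset ℕ → List Bool → Prop} {Psi : Set ℕ → ℕ → Bool}

/-- the output of the spawning lemma: new items with sources `F i` -/
structure SpOut (T : ℕ → ℕ → Bool) (L : Finset ℕ → List Bool → Prop) (b c : ℕ) {I : Type}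
    (F : I → Finset ℕ) (beta : I → List Bool) (Asg : (ℕ → Bool) → I → Prop) where
  β : ℕ
  S : Set Item
  tau : I → List Bool
  fin : S.Finite
  hβ : b ≤ β
  ok : ∀ θ ∈ S, θ.OK T L β
  hc : ∀ θ ∈ S, θ.c = c
  act : ∀ θ ∈ S, θ.act = none
  src : ∀ θ ∈ S, ∃ i, θ.src = F i ∧ ∀ e, ∀ C ∈ θ.Z, beta i <+: θ.r e C
  sep : Sep S
  cover : ∀ v i, Asg v i → ∃ θ ∈ S, θ.Dom v
  tau_ext : ∀ i, beta i <+: tau i
  tau_inc : ∀ i, ∀ θ ∈ S, ∀ e, ∀ C ∈ θ.Z, Inc (tau i) (θ.r e C)

/-- a bound for the elements of finitely many finite sets -/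
theorem Spawn_bound {ι : Type} [Finite ι] (A : ι → Finset (Finset ℕ)) (b : ℕ) :
    ∃ b1, b ≤ b1 ∧ ∀ a, ∀ B ∈ A a, ∀ x ∈ B, x < b1 := by
  have hfin : (⋃ a, ⋃ B ∈ (A a : Set (Finset ℕ)), (B : Set ℕ)).Finite := by
    refine Set.finite_iUnion fun a => ?_
    exact Set.Finite.biUnion (A a).finite_toSet fun B _ => B.finite_toSet
  obtain ⟨m, hm⟩ := hfin.bddAbove
  refine ⟨max b (m + 1), le_max_left _ _, fun a B hB x hx => ?_⟩
  have h1 : x ≤ m := hm (Set.mem_iUnion.mpr ⟨a, Set.mem_iUnion₂.mpr ⟨B, hB, hx⟩⟩)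
  exact lt_of_lt_of_le (Nat.lt_succ_of_le h1) (le_max_right _ _)

/-- a bound for the lengths of finitely many strings -/
theorem Spawn_len {ι : Type} [Finite ι] (A : ι → Finset (Finset ℕ))
    (r : ι → Finset ℕ → List Bool) : ∃ n, ∀ a, ∀ B ∈ A a, (r a B).length ≤ n := by
  have hfin : (⋃ a, (fun B => (r a B).length) '' (A a : Set (Finset ℕ))).Finite :=
    Set.finite_iUnion fun a => (A a).finite_toSet.image _
  obtain ⟨m, hm⟩ := hfin.bddAbove
  exact ⟨m, fun a B hB => hm (Set.mem_iUnion.mpr ⟨a, Set.mem_image_of_mem _ hB⟩)⟩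

/-- the extension of a finite pattern -/
def Spawn_ext (b1 : ℕ) (v : Fin b1 → Bool) (x : ℕ) : Bool :=
  if h : x < b1 then v ⟨x, h⟩ else false

theorem Spawn_ext_eq {b1 : ℕ} (v : ℕ → Bool) {x : ℕ} (hx : x < b1) :
    Spawn_ext b1 (fun y => v y) x = v x := by
  unfold Spawn_ext
  rw [dif_pos hx]

theorem spawn (st : Stat T L Psi) {U : Ultrafilter ℕ} (hU : (U : Filter ℕ) ≤ Filter.cofinite)
    (b c : ℕ) {I : Type} [Finite I] (F : I → Finset ℕ) (beta : I → List Bool)
    (Asg : (ℕ → Bool) → I → Prop) (hF : ∀ i, Bas T b (pat T U) (F i))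
    (hbeta : ∀ i, beta i = [] ∨ ((F i).Nonempty ∧ L (F i) (beta i)))
    (hAc : ∀ v v' i, (∀ x < b, v x = v' x) → Asg v i → Asg v' i)
    (hA : ∀ v i, Asg v i → Al T (F i) v ∧ ∀ x ∈ F i, v x = pat T U x) :
    Nonempty (SpOut T L b c F beta Asg) := by
  classical
  set w := pat T U with hw
  -- step 1
  obtain ⟨J⟩ := bl st (res_pat_infinite T hU b) (ι := I × Bool) (fun a _ => F a.1)
    (fun a _ => hF a.1) 4 0
  obtain ⟨b1, hbb1, hb1⟩ := Spawn_bound J.A b
  -- step 2
  let κ : Type := {vi : (Fin b1 → Bool) × I // Asg (Spawn_ext b1 vi.1) vi.2}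
  have : Finite κ := Subtype.finite
  have hch : ∀ (k : κ) (p : Bool), ∃ B ∈ J.A (k.1.2, p), (∃ e, ∀ x ∈ B, w x = e) ∧
      ∃ e, ∀ x ∈ B, Spawn_ext b1 k.1.1 x = e := by
    intro k p
    have h4 : Big (Fintype.card (Bool × Bool)) (J.A (k.1.2, p) : Set (Finset ℕ)) := by
      have : Fintype.card (Bool × Bool) = 4 := by decide
      rw [this]
      exact J.big _
    obtain ⟨B, hB, e, he⟩ := big_fintype h4 fun x => (w x, Spawn_ext b1 k.1.1 x)
    exact ⟨B, hB, ⟨e.1, fun x hx => by rw [← he x hx]⟩, ⟨e.2, fun x hx => by rw [← he x hx]⟩⟩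
  choose A hAJ hAw hAv using hch
  -- step 3
  obtain ⟨n1, hn1⟩ := Spawn_len J.A (fun a => J.r a 0)
  obtain ⟨n2, hn2⟩ : ∃ n, ∀ i, (beta i).length ≤ n := by
    obtain ⟨m, hm⟩ := (Set.finite_range fun i => (beta i).length).bddAbove
    exact ⟨m, fun i => hm ⟨i, rfl⟩⟩
  have hF1 : ∀ i, Bas T b1 w (F i) := fun i =>
    ⟨fun x hx => lt_of_lt_of_le ((hF i).lt x hx) hbb1, (hF i).al⟩
  have hAfam : ∀ k p, A k p ∈ Fam T (Res T b w) := fun k p => J.fam _ _ (hAJ k p)
  have hAlt : ∀ k p, ∀ x ∈ A k p, x < b1 := fun k p x hx => hb1 _ _ (hAJ k p) x hx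
  have hFA : ∀ (k : κ) p, Bas T b1 w (F k.1.2 ∪ A k p) := by
    intro k p
    refine ⟨fun x hx => ?_, ?_⟩
    · rcases Finset.mem_union.mp hx with hx | hx
      · exact (hF1 _).lt x hx
      · exact hAlt k p x hx
    · exact al_union_fin st.tour (hF k.1.2).al
        (fun x hx z hz => ((hAfam k p).2.1 hx).2 z ((hF k.1.2).lt z hz)) (hAfam k p).2.2
        (hAw k p)
  let N2 : κ ⊕ I → Fin 3 → Finset ℕ := Sum.elim
    (fun k => ![F k.1.2, F k.1.2 ∪ A k false, F k.1.2 ∪ A k true]) (fun i _ => F i)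
  have hN2 : ∀ a i, Bas T b1 w (N2 a i) := by
    rintro (k | i) j
    · fin_cases j
      · exact hF1 _
      · exact hFA k false
      · exact hFA k true
    · exact hF1 _
  obtain ⟨J2⟩ := bl st (res_pat_infinite T hU b1) N2 hN2 32 (max c (max n1 n2))
  obtain ⟨β, hb1β, hβ⟩ := Spawn_bound J2.A b1
  have hc2 : ∀ a i, c ≤ (J2.l a i).length := fun a i =>
    le_trans (le_max_left _ _) (J2.len a i)
  have hn1' : ∀ a i, n1 ≤ (J2.l a i).length := fun a i =>
    le_trans (le_trans (le_max_left _ _) (le_max_right _ _)) (J2.len a i)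
  have hn2' : ∀ a i, n2 ≤ (J2.l a i).length := fun a i =>
    le_trans (le_trans (le_max_right _ _) (le_max_right _ _)) (J2.len a i)
  -- step 4: the items
  have hitem : ∀ k : κ, ∃ θ : Item, θ.OK T L β ∧ θ.c = c ∧ θ.act = none ∧ θ.b = b1 ∧
      θ.u = Spawn_ext b1 k.1.1 ∧ θ.src = F k.1.2 ∧ θ.Z = J2.A (Sum.inl k) ∧
      (∀ e, ∃ i, ∀ C ∈ J2.A (Sum.inl k), θ.r e C = J2.r (Sum.inl k) i C) ∧
      (∀ C ∈ J2.A (Sum.inl k), ∀ C' ∈ J2.A (Sum.inl k), Inc (θ.r false C) (θ.r true C')) ∧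
      ∀ e, ∀ C ∈ J2.A (Sum.inl k), beta k.1.2 <+: θ.r e C := by
    intro k
    have hk := hA _ _ k.2
    exact mk_item st hbb1 hb1β (hF k.1.2) hk.1 hk.2 (A := A k) (hAfam k) (hAlt k)
      (hAw k) (hAv k) (s := fun p => J.r (k.1.2, p) 0 (A k p))
      (fun p => J.lab (k.1.2, p) 0 _ (hAJ k p))
      (J.inc (k.1.2, false) (k.1.2, true) (by simp) 0 0 _ (hAJ k false) _ (hAJ k true))
      (J2.big (Sum.inl k)) (J2.fam _) (J2.ext _) (hβ _) (J2.pre _)
      (fun i C hC => J2.lab (Sum.inl k) i C hC)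
      (fun i p => (hn1 _ _ (hAJ k p)).trans (hn1' _ _)) (hc2 _)
      (fun i => (hn2 _).trans (hn2' _ _)) (hbeta _)
  choose θ h1 h2 h3 h4 h5 h6 h7 h8 h9 h10 using hitem
  -- the strings `tau`
  have hB : ∀ i : I, ∃ B, B ∈ J2.A (Sum.inr i) := by
    intro i
    obtain ⟨B, hB, -⟩ := J2.big (Sum.inr i) fun _ => 0
    exact ⟨B, hB⟩
  choose B hB using hB
  refine ⟨⟨β, Set.range θ, fun i => J2.r (Sum.inr i) 0 (B i), Set.finite_range θ,
    hbb1.trans hb1β, ?_, ?_, ?_, ?_, ?_, ?_, ?_, ?_⟩⟩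
  · rintro _ ⟨k, rfl⟩
    exact h1 k
  · rintro _ ⟨k, rfl⟩
    exact h2 k
  · rintro _ ⟨k, rfl⟩
    exact h3 k
  · rintro _ ⟨k, rfl⟩
    refine ⟨k.1.2, h6 k, fun e C hC => ?_⟩
    rw [h7 k] at hC
    exact h10 k e C hC
  · rintro _ ⟨k, rfl⟩ _ ⟨k', rfl⟩ e e' - - hne C hC C' hC'
    rw [h7 k] at hC
    rw [h7 k'] at hC'
    by_cases hkk : k = k'
    · subst hkk
      have hee : e ≠ e' := by
        rcases hne with hne | hne
        · exact absurd rfl hne
        · exact hne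
      cases e <;> cases e'
      · exact absurd rfl hee
      · exact h9 k C hC C' hC'
      · exact (h9 k C' hC' C hC).symm
      · exact absurd rfl hee
    · obtain ⟨i, hi⟩ := h8 k e
      obtain ⟨i', hi'⟩ := h8 k' e'
      rw [hi C hC, hi' C' hC']
      exact J2.inc _ _ (fun hc => hkk (Sum.inl_injective hc)) i i' C hC C' hC'
  · intro v i hv
    have hv' : Asg (Spawn_ext b1 fun y => v y) i :=
      hAc v _ i (fun x hx => (Spawn_ext_eq v (lt_of_lt_of_le hx hbb1)).symm) hv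
    refine ⟨θ ⟨(fun y => v y, i), hv'⟩, ⟨_, rfl⟩, ?_, ?_⟩
    · intro x hx
      rw [h4] at hx
      rw [h5]
      exact (Spawn_ext_eq v hx).symm
    · intro e he
      rw [h3] at he
      exact absurd he (by simp)
  · intro i
    rcases hbeta i with hb0 | ⟨hne, hL⟩
    · rw [hb0]
      exact List.nil_prefix
    · have hl : (beta i).length ≤ (J2.r (Sum.inr i) 0 (B i)).length :=
        ((hn2 i).trans (hn2' (Sum.inr i) 0)).trans (J2.pre (Sum.inr i) 0 _ (hB i)).length_le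
      exact Bas.ext_label st (hF1 i) hne (J2.fam _ _ (hB i)).1 (J2.ext _ _ (hB i)) hL
        (J2.lab (Sum.inr i) 0 _ (hB i)) hl
  · rintro i _ ⟨k, rfl⟩ e C hC
    rw [h7 k] at hC
    obtain ⟨j, hj⟩ := h8 k e
    rw [hj C hC]
    exact J2.inc _ _ (by simp) 0 j _ (hB i) C hC

end Pool.Agent.helper6.GE
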