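import Pool.Agent.helper6.GE.Spawn

/-! # GE-Start: stability and the start of the construction

PROOF of `stable`: the finite parts: `Arena.Tloc` for `β`, `Arena.Lloc` for the finitely many labels; `t`
is the maximum.

PROOF of `exists_start`: `y = fun _ => false`, `spawn` with `U = hyperfilter ℕ`, `b = c = 0`,
`I = Unit`, `F = ∅`, `beta = []`, `Asg v i = True` (`al_empty`); `t` from `stable` for the new items. -/

namespace Pool.Agent.helper6.GE

theorem le_cd (j : ℕ) (ρ : List Bool) (s : ℕ) : s ≤ cd j ρ s :=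
  (Nat.right_le_pair _ _).trans (Nat.right_le_pair _ _)

theorem cd_inj {j j' : ℕ} {ρ ρ' : List Bool} {s s' : ℕ} (h : cd j ρ s = cd j' ρ' s') :
    j = j' ∧ ρ = ρ' ∧ s = s' := by
  unfold cd at h
  rw [Nat.pair_eq_pair, Nat.pair_eq_pair] at h
  exact ⟨h.1, Encodable.encode_injective h.2.1, h.2.2⟩

theorem stable (A : Arena) (y : ℕ → Bool) (β : ℕ) {S : Set Item} (hS : S.Finite)
    (hL : ∀ θ ∈ S, θ.OK (A.T y) (A.L y) β) (t0 : ℕ) :
    ∃ t, t0 ≤ t ∧ ∀ y', (∀ m < t, y' m = y m) → (∀ x < β, ∀ z < β, A.T y' x z = A.T y x z) ∧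
      ∀ θ ∈ S, ∀ e, θ.Actv e → ∀ C ∈ θ.Z, A.L y' (θ.N e ∪ C) (θ.r e C) := by
  classical
  obtain ⟨t1, ht1⟩ := A.Tloc y β
  have hfin : (⋃ θ ∈ S, ⋃ e : Bool, ⋃ C ∈ (θ.Z : Set (Finset ℕ)),
      ({(θ, e, C)} : Set (Item × Bool × Finset ℕ))).Finite := by
    refine Set.Finite.biUnion hS fun θ _ => ?_
    refine Set.finite_iUnion fun e => ?_
    exact Set.Finite.biUnion θ.Z.finite_toSet fun C _ => Set.finite_singleton _
  have hex : ∀ x : Item × Bool × Finset ℕ, ∃ t : ℕ, x.1 ∈ S → x.1.Actv x.2.1 → x.2.2 ∈ x.1.Z →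
      ∀ y', (∀ n < t, y' n = y n) → A.L y' (x.1.N x.2.1 ∪ x.2.2) (x.1.r x.2.1 x.2.2) := by
    intro x
    by_cases hx : x.1 ∈ S ∧ x.1.Actv x.2.1 ∧ x.2.2 ∈ x.1.Z
    · obtain ⟨t, ht⟩ := A.Lloc y _ _ ((hL x.1 hx.1).lab x.2.1 hx.2.1 x.2.2 hx.2.2).1
      exact ⟨t, fun _ _ _ => ht⟩
    · exact ⟨0, fun h1 h2 h3 => absurd ⟨h1, h2, h3⟩ hx⟩
  choose t ht using hex
  obtain ⟨t2, ht2⟩ := (hfin.image t).bddAbove
  refine ⟨max t0 (max t1 t2), le_max_left _ _, fun y' hy' => ⟨?_, ?_⟩⟩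
  · exact ht1 y' fun n hn => hy' n
      (lt_of_lt_of_le hn ((le_max_left _ _).trans (le_max_right _ _)))
  · intro θ hθ e he C hC
    refine ht (θ, e, C) hθ he hC y' fun n hn => hy' n (lt_of_lt_of_le hn ?_)
    refine le_trans (ht2 ⟨(θ, e, C), ?_, rfl⟩) ((le_max_right _ _).trans (le_max_right _ _))
    simp only [Set.mem_iUnion]
    exact ⟨θ, hθ, e, C, hC, rfl⟩

theorem exists_start (A : Arena) : Nonempty (St A 0) := by
  obtain ⟨o⟩ := spawn (A.stat fun _ => false) (U := Filter.hyperfilter ℕ)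
    (by exact Filter.hyperfilter_le_cofinite) 0 0 (I := Unit) (fun _ => ∅) (fun _ => [])
    (fun _ _ => True) (fun _ => ⟨by simp, al_empty _ _⟩) (fun _ => Or.inl rfl)
    (fun _ _ _ _ _ => trivial) (fun v _ _ => ⟨al_empty _ _, by simp⟩)
  obtain ⟨t, -, ht⟩ := stable A (fun _ => false) o.β o.fin o.ok 0
  exact ⟨{
    y := fun _ => false
    t := t
    β := o.β
    S := o.S
    fin := o.fin
    y0 := fun _ _ => rfl
    tn := Nat.zero_le _
    Tst := fun y' hy' => (ht y' hy').1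
    Lst := fun y' hy' => (ht y' hy').2
    ok := fun θ hθ => ⟨o.ok θ hθ, (o.hc θ hθ).le⟩
    sep := o.sep
    sepW := by
      rintro θ _ e _ C _ τ ⟨s, hs⟩
      exact absurd hs Bool.false_ne_true
    cover := fun w => o.cover w () trivial }⟩

end Pool.Agent.helper6.GE
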