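import Pool.Agent.helper6.GE.Spawn

/-! # GE-Static: the static part of a step

PROOF.  `U = Filter.hyperfilter ℕ`, `w = pat T U`.  By `cover` there is `θ ∈ S` with `θ.Dom w`.

Case 1, `θ.act = none`: by `big_colour` there is `e` such that `Z' = {C ∈ θ.Z | w = e on C}` is `4`-big.
`half` is `θ` with `act := some (!e)`, `Z := Z'`.
Case 2, `θ.act = some e`: `Z' = {C ∈ θ.Z | w = e on C}`; `half` is `θ` with `act := some e` (not used).

In both cases `θ.Actv e`.  `spawn` with `b = β`, `c = n + 1`, `I = {C // C ∈ Z'}`, `F C = θ.N e ∪ C`,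
`beta C = θ.r e C`, `Asg v C = ((∀ x < θ.b, v x = θ.u x) ∧ ∀ x ∈ C, v x = e)`: `Bas T β w (F C)` by
`Item.OK.al` and `θ.Dom w`, `Al T (F C) v` by `Item.OK.al`; for `x ∈ θ.N e` we have
`v x = θ.u x = w x`, for `x ∈ C` we have `v x = e = w x`.

`S' = (S \ {θ}) ∪ (new items) ∪ ({half} in case 1, ∅ in case 2)`.

* `ok`: for old items `Item.OK.congr` (bound `β' ≥ β`); `half`: direct (`big`: `4`-big).
* `sep`: old/old: `sep`; half/half: the only active colour is `!e`, nothing to do; half/old: the labels of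
  `half` are labels of `θ` for the active colour `!e`; new/new: spawn; new/old: the labels of the
  new item extend `θ.r e C` for some `C ∈ Z'` (`src`), which is incompatible with the labels of the
  old item `≠ θ`; new/half: `θ.r e C` and `θ.r (!e) C'` are incompatible (`sep` for `θ, θ`, colours
  `e ≠ !e`, both active in case 1).
* `cover`: let `w'` be a pattern, `θ0 ∈ S` with `θ0.Dom w'`.  If `θ0 ≠ θ` it is in `S'`.  If `θ0 = θ`: if
  there is `C ∈ Z'` with `w' = e` on `C`, then `Asg w' C`, so there is a new item.  Otherwise in case 1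
  `half.Dom w'`.  In case 2 `θ.Z` is `4`-big, so there is `C ∈ θ.Z` on which `w` and `w'` are constant
  (colour by `(w x, w' x)`); as `w, w'` are in `θ.Dom` the constants are not `!e`, so they are `e`; so
  `C ∈ Z'` and `w' = e` on `C`, a contradiction.
* `htau`, `tau_inc`, `keep`: from `tau_ext`, `tau_inc` of `SpOut`, `sep`, and `Inc.right`, `Inc.left`. -/

namespace Pool.Agent.helper6.GE

variable {T : ℕ → ℕ → Bool} {L : Finset ℕ → List Bool → Prop} {Psi : Set ℕ → ℕ → Bool}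

theorem Item.OK.congr {T' : ℕ → ℕ → Bool} {L' : Finset ℕ → List Bool → Prop} {β β' : ℕ} {θ : Item}
    (h : θ.OK T L β) (hβ : β ≤ β') (hT : ∀ x < β, ∀ z < β, T' x z = T x z)
    (hL : ∀ e, θ.Actv e → ∀ C ∈ θ.Z, L' (θ.N e ∪ C) (θ.r e C)) : θ.OK T' L' β' := by
  have lt : ∀ e, ∀ C ∈ θ.Z, ∀ x ∈ θ.N e ∪ C, x < β := by
    intro e C hC x hx
    rcases Finset.mem_union.1 hx with h1 | h1
    · exact (h.N_lt e x h1).trans_le h.hb
    · exact (h.Zlt C hC x h1).2
  refine ⟨h.hb.trans hβ, h.N_lt, h.seg, h.Zne, fun C hC x hx =>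
    ⟨(h.Zlt C hC x hx).1, (h.Zlt C hC x hx).2.trans_le hβ⟩, ?_,
    fun e he C hC => ⟨hL e he C hC, (h.lab e he C hC).2⟩, h.big⟩
  intro e he C hC w hw hwC
  obtain ⟨h1, h2⟩ := h.al e he C hC w hw hwC
  have key := lt e C hC
  refine ⟨fun x hx y hy z hz hxy hyz => ?_, fun x hx z hz hxz hwz => ?_⟩
  · have hx' := Finset.mem_coe.1 hx
    have hy' := Finset.mem_coe.1 hy
    have hz' := Finset.mem_coe.1 hz
    rw [hT x (key x hx') z (key z hz')]
    rw [hT x (key x hx') y (key y hy')] at hxy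
    rw [hT y (key y hy') z (key z hz')] at hyz
    exact h1 x hx y hy z hz hxy hyz
  · rw [hT x (key x hx) z (key z hz)] at hxz
    exact h2 x hx z hz hxz hwz

/-- the static part of a step -/
structure Stp (T : ℕ → ℕ → Bool) (L : Finset ℕ → List Bool → Prop) (n β : ℕ) (S : Set Item) where
  θ : Item
  e : Bool
  Z' : Finset (Finset ℕ)
  half : Item
  tau : Finset ℕ → List Bool
  β' : ℕ
  S' : Set Item
  mem : θ ∈ S
  actv : θ.Actv e
  sub : Z' ⊆ θ.Z
  hβ : β ≤ β'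
  fin : S'.Finite
  ok : ∀ θ' ∈ S', θ'.OK T L β' ∧ θ'.c ≤ n + 1
  sep : Sep S'
  cover : ∀ w : ℕ → Bool, ∃ θ' ∈ S', θ'.Dom w
  htau : ∀ C ∈ Z', θ.r e C <+: tau C
  tau_inc : ∀ C ∈ Z', ∀ θ' ∈ S', ∀ e', θ'.Actv e' → ∀ C' ∈ θ'.Z, Inc (tau C) (θ'.r e' C')
  keep : ∀ τ, (∀ θ' ∈ S, ∀ e', θ'.Actv e' → ∀ C' ∈ θ'.Z, Inc τ (θ'.r e' C')) →
    ∀ θ' ∈ S', ∀ e', θ'.Actv e' → ∀ C' ∈ θ'.Z, Inc τ (θ'.r e' C')
  half_c : half.c = θ.c
  half_src : half.src = θ.src
  half_act : half.act ≠ none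
  new : ∀ θ' ∈ S', (θ' ∈ S ∧ θ' ≠ θ) ∨ (θ.act = none ∧ θ' = half) ∨
    (θ'.c = n + 1 ∧ ∃ C ∈ Z', θ'.src = θ.N e ∪ C)

theorem Static_sep_union {A B : Set Item} (hA : Sep A) (hB : Sep B)
    (h : ∀ θ ∈ A, ∀ θ' ∈ B, ∀ e e', θ.Actv e → θ'.Actv e' →
      ∀ C ∈ θ.Z, ∀ C' ∈ θ'.Z, Inc (θ.r e C) (θ'.r e' C')) : Sep (A ∪ B) := by
  intro θ hθ θ' hθ' e e' he he' hne C hC C' hC'
  rcases hθ with h1 | h1
  · rcases hθ' with h2 | h2
    · exact hA θ h1 θ' h2 e e' he he' hne C hC C' hC'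
    · exact h θ h1 θ' h2 e e' he he' C hC C' hC'
  · rcases hθ' with h2 | h2
    · exact (h θ' h2 θ h1 e' e he' he C' hC' C hC).symm
    · exact hB θ h1 θ' h2 e e' he he' hne C hC C' hC'

theorem Static_spawn (st : Stat T L Psi) {U : Ultrafilter ℕ}
    (hU : (U : Filter ℕ) ≤ Filter.cofinite) (n : ℕ) {β : ℕ} {θ : Item} (hok : θ.OK T L β)
    {e : Bool} (he : θ.Actv e) (hD : θ.Dom (pat T U)) (Z' : Finset (Finset ℕ))
    (hZ' : ∀ C ∈ Z', C ∈ θ.Z ∧ ∀ x ∈ C, pat T U x = e) :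
    Nonempty (SpOut T L β (n + 1) (fun C : {C // C ∈ Z'} => θ.N e ∪ C.1)
      (fun C => θ.r e C.1) (fun v C => (∀ x < θ.b, v x = θ.u x) ∧ ∀ x ∈ C.1, v x = e)) := by
  refine spawn st hU β (n + 1) _ _ _ ?_ ?_ ?_ ?_
  · rintro ⟨C, hC⟩
    obtain ⟨hC1, hC2⟩ := hZ' C hC
    refine ⟨fun x hx => ?_, hok.al e he C hC1 _ hD.1 hC2⟩
    rcases Finset.mem_union.1 hx with h1 | h1
    · exact (hok.N_lt e x h1).trans_le hok.hb
    · exact (hok.Zlt C hC1 x h1).2
  · rintro ⟨C, hC⟩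
    obtain ⟨hC1, hC2⟩ := hZ' C hC
    refine Or.inr ⟨?_, (hok.lab e he C hC1).1⟩
    exact (hok.Zne C hC1).mono Finset.subset_union_right
  · rintro v v' ⟨C, hC⟩ hvv ⟨h1, h2⟩
    obtain ⟨hC1, hC2⟩ := hZ' C hC
    refine ⟨fun x hx => ?_, fun x hx => ?_⟩
    · rw [← hvv x (hx.trans_le hok.hb)]
      exact h1 x hx
    · rw [← hvv x (hok.Zlt C hC1 x hx).2]
      exact h2 x hx
  · rintro v ⟨C, hC⟩ ⟨h1, h2⟩
    obtain ⟨hC1, hC2⟩ := hZ' C hC
    refine ⟨hok.al e he C hC1 v h1 h2, fun x hx => ?_⟩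
    rcases Finset.mem_union.1 hx with h3 | h3
    · rw [h1 x (hok.N_lt e x h3), hD.1 x (hok.N_lt e x h3)]
    · rw [h2 x h3, hC2 x h3]

theorem step_static (st : Stat T L Psi) {n β : ℕ} {S : Set Item} (fin : S.Finite)
    (ok : ∀ θ ∈ S, θ.OK T L β ∧ θ.c ≤ n) (sep : Sep S)
    (cover : ∀ w : ℕ → Bool, ∃ θ ∈ S, θ.Dom w) : Nonempty (Stp T L n β S) := by
  classical
  have hU : (Filter.hyperfilter ℕ : Filter ℕ) ≤ Filter.cofinite := Filter.hyperfilter_le_cofinite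
  set U : Ultrafilter ℕ := Filter.hyperfilter ℕ with hUdef
  obtain ⟨θ, hθ, hD⟩ := cover (pat T U)
  have hok := (ok θ hθ).1
  -- the old items
  have hsub : S \ {θ} ⊆ S := Set.sdiff_subset
  have sep0 : Sep (S \ {θ}) := fun θ1 h1 θ2 h2 => sep θ1 (hsub h1) θ2 (hsub h2)
  -- the common part: colour `e` is served
  have main : ∀ (e : Bool), θ.Actv e → ∀ (Z' : Finset (Finset ℕ)),
      (∀ C ∈ Z', C ∈ θ.Z ∧ ∀ x ∈ C, pat T U x = e) → ∀ H : Set Item, H.Finite →
      (∀ θ' ∈ H, θ'.OK T L β ∧ θ'.c ≤ n) → Sep H →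
      (∀ θ' ∈ H, θ.act = none ∧ θ'.c = θ.c ∧ θ'.src = θ.src ∧ θ'.act ≠ none) →
      (∀ θ' ∈ H, ∀ e', θ'.Actv e' → θ.Actv e' ∧ e' ≠ e ∧ ∀ C ∈ θ'.Z, C ∈ θ.Z ∧ θ'.r e' C = θ.r e' C) →
      (∀ half ∈ H, ∀ half' ∈ H, half = half') →
      (∀ w' : ℕ → Bool, θ.Dom w' → (∃ C ∈ Z', ∀ x ∈ C, w' x = e) ∨ ∃ θ' ∈ H, θ'.Dom w') →
      Nonempty (Stp T L n β S) := by
    intro e he Z' hZ' H Hfin Hok Hsep Hhalf Hlab Huniq Hcov
    obtain ⟨sp⟩ := Static_spawn st hU n hok he hD Z' hZ'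
    obtain ⟨half, hhalf1, hhalf2⟩ : ∃ half : Item, (half.c = θ.c ∧ half.src = θ.src ∧
        half.act ≠ none) ∧ ∀ θ' ∈ H, θ' = half := by
      by_cases hH : H.Nonempty
      · obtain ⟨half, hh⟩ := hH
        exact ⟨half, (Hhalf half hh).2, fun θ' h' => Huniq θ' h' half hh⟩
      · refine ⟨{θ with act := some e}, ⟨rfl, rfl, by simp⟩, fun θ' h' => ?_⟩
        exact absurd ⟨θ', h'⟩ hH
    -- labels of new items extend labels of `θ`
    have hnew : ∀ θ' ∈ sp.S, ∃ C ∈ Z', θ'.src = θ.N e ∪ C ∧ ∀ e', ∀ C' ∈ θ'.Z,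
        θ.r e C <+: θ'.r e' C' := by
      intro θ' h'
      obtain ⟨⟨C, hC⟩, h1, h2⟩ := sp.src θ' h'
      exact ⟨C, hC, h1, h2⟩
    have hold : ∀ θ' ∈ S \ {θ}, ∀ e', θ'.Actv e' → ∀ C' ∈ θ'.Z, ∀ e'', θ.Actv e'' → ∀ C ∈ θ.Z,
        Inc (θ.r e'' C) (θ'.r e' C') := by
      intro θ' h' e' he' C' hC' e'' he'' C hC
      refine sep θ hθ θ' h'.1 e'' e' he'' he' (Or.inl ?_) C hC C' hC'
      exact fun h => h'.2 (by rw [h]; rfl)
    have hH : ∀ θ' ∈ H, ∀ e', θ'.Actv e' → ∀ C' ∈ θ'.Z, ∀ C ∈ θ.Z,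
        Inc (θ.r e C) (θ'.r e' C') := by
      intro θ' h' e' he' C' hC' C hC
      obtain ⟨h1, h2, h3⟩ := Hlab θ' h' e' he'
      obtain ⟨h4, h5⟩ := h3 C' hC'
      rw [h5]
      exact sep θ hθ θ hθ e e' he h1 (Or.inr (Ne.symm h2)) C hC C' h4
    refine ⟨{ θ := θ, e := e, Z' := Z', half := half,
              tau := fun C => if h : C ∈ Z' then sp.tau ⟨C, h⟩ else [],
              β' := sp.β, S' := ((S \ {θ}) ∪ H) ∪ sp.S, mem := hθ, actv := he,
              sub := fun C hC => (hZ' C hC).1, hβ := sp.hβ,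
              fin := ((fin.subset hsub).union Hfin).union sp.fin,
              ok := ?_, sep := ?_, cover := ?_, htau := ?_, tau_inc := ?_, keep := ?_,
              half_c := hhalf1.1, half_src := hhalf1.2.1, half_act := hhalf1.2.2,
              new := ?_ }⟩
    · rintro θ' ((h' | h') | h')
      · obtain ⟨h1, h2⟩ := ok θ' (hsub h')
        exact ⟨h1.congr sp.hβ (fun _ _ _ _ => rfl) fun e' he' C hC => (h1.lab e' he' C hC).1,
          by omega⟩
      · obtain ⟨h1, h2⟩ := Hok θ' h'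
        exact ⟨h1.congr sp.hβ (fun _ _ _ _ => rfl) fun e' he' C hC => (h1.lab e' he' C hC).1,
          by omega⟩
      · exact ⟨sp.ok θ' h', (sp.hc θ' h').le⟩
    · refine Static_sep_union (Static_sep_union sep0 Hsep ?_) sp.sep ?_
      · intro θ1 h1 θ2 h2 e1 e2 he1 he2 C1 hC1 C2 hC2
        obtain ⟨h3, -, h4⟩ := Hlab θ2 h2 e2 he2
        obtain ⟨h5, h6⟩ := h4 C2 hC2
        rw [h6]
        exact (hold θ1 h1 e1 he1 C1 hC1 e2 h3 C2 h5).symm
      · rintro θ1 (h1 | h1) θ2 h2 e1 e2 he1 he2 C1 hC1 C2 hC2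
        · obtain ⟨C, hC, -, h3⟩ := hnew θ2 h2
          exact ((hold θ1 h1 e1 he1 C1 hC1 e he C (hZ' C hC).1).left (h3 e2 C2 hC2)).symm
        · obtain ⟨C, hC, -, h3⟩ := hnew θ2 h2
          exact ((hH θ1 h1 e1 he1 C1 hC1 C (hZ' C hC).1).left (h3 e2 C2 hC2)).symm
    · intro w'
      obtain ⟨θ0, hθ0, hD0⟩ := cover w'
      by_cases hne : θ0 = θ
      · subst hne
        rcases Hcov w' hD0 with ⟨C, hC, h1⟩ | ⟨θ', h', h1⟩
        · obtain ⟨θ', h', h2⟩ := sp.cover w' ⟨C, hC⟩ ⟨hD0.1, h1⟩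
          exact ⟨θ', Or.inr h', h2⟩
        · exact ⟨θ', Or.inl (Or.inr h'), h1⟩
      · exact ⟨θ0, Or.inl (Or.inl ⟨hθ0, hne⟩), hD0⟩
    · intro C hC
      simp only [dif_pos hC]
      exact sp.tau_ext ⟨C, hC⟩
    · intro C hC θ' h' e' he' C' hC'
      simp only [dif_pos hC]
      rcases h' with (h' | h') | h'
      · exact (hold θ' h' e' he' C' hC' e he C (hZ' C hC).1).left (sp.tau_ext ⟨C, hC⟩)
      · exact (hH θ' h' e' he' C' hC' C (hZ' C hC).1).left (sp.tau_ext ⟨C, hC⟩)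
      · exact sp.tau_inc ⟨C, hC⟩ θ' h' e' C' hC'
    · intro τ hτ θ' h' e' he' C' hC'
      rcases h' with (h' | h') | h'
      · exact hτ θ' (hsub h') e' he' C' hC'
      · obtain ⟨h3, -, h4⟩ := Hlab θ' h' e' he'
        obtain ⟨h5, h6⟩ := h4 C' hC'
        rw [h6]
        exact hτ θ hθ e' h3 C' h5
      · obtain ⟨C, hC, -, h3⟩ := hnew θ' h'
        exact (hτ θ hθ e he C (hZ' C hC).1).right (h3 e' C' hC')
    · rintro θ' ((h' | h') | h')
      · exact Or.inl ⟨hsub h', fun h => h'.2 (by rw [h]; rfl)⟩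
      · exact Or.inr (Or.inl ⟨(Hhalf θ' h').1, hhalf2 θ' h'⟩)
      · obtain ⟨C, hC, h3, -⟩ := hnew θ' h'
        exact Or.inr (Or.inr ⟨sp.hc θ' h', C, hC, h3⟩)
  -- the two cases
  rcases hact : θ.act with _ | e
  · have hbig : Big 32 (θ.Z : Set (Finset ℕ)) := by
      have := hok.big
      rw [if_pos hact] at this
      exact this
    obtain ⟨e, he⟩ := big_colour hbig (pat T U)
    have hA : ∀ e', θ.Actv e' := fun e' => Or.inl hact
    set Z' : Finset (Finset ℕ) := θ.Z.filter fun C => ∀ x ∈ C, pat T U x = e with hZdef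
    have hZ' : ∀ C ∈ Z', C ∈ θ.Z ∧ ∀ x ∈ C, pat T U x = e := by
      intro C hC
      rw [hZdef, Finset.mem_filter] at hC
      exact hC
    have hZ'' : (Z' : Set (Finset ℕ)) = {C | C ∈ θ.Z ∧ ∀ x ∈ C, pat T U x = e} := by
      ext C
      simp [hZdef]
    let half : Item := {θ with act := some (!e), Z := Z'}
    have hhact : ∀ e', half.Actv e' → e' = !e := by
      intro e' h'
      rcases h' with h' | h'
      · simp [half] at h'
      · simpa [half, eq_comm] using h'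
    refine main e (hA e) Z' hZ' {half} (Set.finite_singleton _) ?_ ?_ ?_ ?_ ?_ ?_
    · intro θ' h'
      rw [Set.mem_singleton_iff] at h'
      subst h'
      refine ⟨⟨hok.hb, hok.N_lt, hok.seg, fun C hC => hok.Zne C (hZ' C hC).1,
        fun C hC => hok.Zlt C (hZ' C hC).1, fun e' _ C hC => hok.al e' (hA e') C (hZ' C hC).1,
        fun e' _ C hC => hok.lab e' (hA e') C (hZ' C hC).1, ?_⟩, (ok θ hθ).2⟩
      have h1 : half.act ≠ none := by simp [half]
      rw [if_neg h1]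
      show Big 4 (Z' : Set (Finset ℕ))
      rw [hZ'']
      exact he
    · intro θ1 h1 θ2 h2 e1 e2 he1 he2 hne C1 hC1 C2 hC2
      rw [Set.mem_singleton_iff] at h1 h2
      subst h1
      subst h2
      rcases hne with hne | hne
      · exact absurd rfl hne
      · exact absurd ((hhact e1 he1).trans (hhact e2 he2).symm) hne
    · intro θ' h'
      rw [Set.mem_singleton_iff] at h'
      subst h'
      exact ⟨hact, rfl, rfl, by simp [half]⟩
    · intro θ' h' e' he'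
      rw [Set.mem_singleton_iff] at h'
      subst h'
      refine ⟨hA e', ?_, fun C hC => ⟨(hZ' C hC).1, rfl⟩⟩
      rw [hhact e' he']
      simp
    · intro a ha b hb
      rw [Set.mem_singleton_iff] at ha hb
      rw [ha, hb]
    · intro w' hw'
      by_cases h1 : ∃ C ∈ Z', ∀ x ∈ C, w' x = e
      · exact Or.inl h1
      · refine Or.inr ⟨half, rfl, hw'.1, ?_⟩
        intro e' he' C hC h2
        have h3 : (!e) = e' := by
          have : some (!e) = some e' := he'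
          exact Option.some.inj this
        refine h1 ⟨C, hC, fun x hx => ?_⟩
        rw [h2 x hx, ← h3, Bool.not_not]
  · have hbig : Big 4 (θ.Z : Set (Finset ℕ)) := by
      have := hok.big
      rw [if_neg (by rw [hact]; simp)] at this
      exact this
    set Z' : Finset (Finset ℕ) := θ.Z.filter fun C => ∀ x ∈ C, pat T U x = e with hZdef
    have hZ' : ∀ C ∈ Z', C ∈ θ.Z ∧ ∀ x ∈ C, pat T U x = e := by
      intro C hC
      rw [hZdef, Finset.mem_filter] at hC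
      exact hC
    refine main e (Or.inr hact) Z' hZ' ∅ Set.finite_empty ?_ ?_ ?_ ?_ ?_ ?_
    · intro θ' h'
      exact absurd h' (Set.notMem_empty _)
    · intro θ' h'
      exact absurd h' (Set.notMem_empty _)
    · intro θ' h'
      exact absurd h' (Set.notMem_empty _)
    · intro θ' h'
      exact absurd h' (Set.notMem_empty _)
    · intro θ' h'
      exact absurd h' (Set.notMem_empty _)
    · intro w' hw'
      left
      have hbig' : Big (Fintype.card (Bool × Bool)) (θ.Z : Set (Finset ℕ)) := by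
        simpa using hbig
      obtain ⟨C, hC, k, hk⟩ := big_fintype hbig' fun x => (pat T U x, w' x)
      have hC' : C ∈ θ.Z := hC
      have h1 : ∀ x ∈ C, pat T U x = k.1 := fun x hx => congrArg Prod.fst (hk x hx)
      have h2 : ∀ x ∈ C, w' x = k.2 := fun x hx => congrArg Prod.snd (hk x hx)
      have h3 : k.1 = e := by
        by_contra hne
        refine hD.2 e hact C hC' fun x hx => ?_
        rw [h1 x hx]
        exact Bool.eq_not_of_ne hne
      have h4 : k.2 = e := by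
        by_contra hne
        refine hw'.2 e hact C hC' fun x hx => ?_
        rw [h2 x hx]
        exact Bool.eq_not_of_ne hne
      refine ⟨C, ?_, fun x hx => by rw [h2 x hx, h4]⟩
      rw [hZdef, Finset.mem_filter]
      exact ⟨hC', fun x hx => by rw [h1 x hx, h3]⟩

end Pool.Agent.helper6.GE
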