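import Pool.Agent.helper6.GE.Static
import Pool.Agent.helper6.GE.Start

/-! # GE-Step: the step of the construction

PROOF of `exists_next`: `step_static` for `A.T s.y`, `A.L s.y`; `t1` from `stable` for `s.y`, `β'`, `S'`,
also `t1 ≥ s.t`, `t1 ≥ n + 1`.  `s'.y m = s.y m || decide (∃ C ∈ Z', m = cd 0 (tau C) t1)`; the new ones
are at positions `≥ t1` (`le_cd`).  `s'.t > ` all these positions.  `W s'.y` is the union of `W s.y` and
the strings `tau C`, `C ∈ Z'` (`cd_inj`).  `sepW` from `keep` and `tau_inc`; `Tst, Lst` from `t1` (a `y'`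
which agrees with `s'.y` below `s'.t` agrees with `s.y` below `t1`); `ok` by `Item.OK.congr`.

`exists_run`: recursion (`Nat.rec`, `Classical.choose`). -/

namespace Pool.Agent.helper6.GE

theorem exists_next {A : Arena} {n : ℕ} (s : St A n) : ∃ s' : St A (n + 1), Nonempty (Nxt s s') := by
  classical
  obtain ⟨P⟩ := step_static (A.stat s.y) s.fin s.ok s.sep s.cover
  obtain ⟨t1, ht1, hst⟩ := stable A s.y P.β' P.fin (fun θ hθ => (P.ok θ hθ).1) (max s.t (n + 1))
  have hts : s.t ≤ t1 := (le_max_left _ _).trans ht1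
  have htn : n + 1 ≤ t1 := (le_max_right _ _).trans ht1
  let y' : ℕ → Bool := fun m => s.y m || decide (∃ C ∈ P.Z', m = cd 0 (P.tau C) t1)
  have hy1 : ∀ m, m < t1 → y' m = s.y m := by
    intro m hm
    have h1 : ¬ ∃ C ∈ P.Z', m = cd 0 (P.tau C) t1 := by
      rintro ⟨C, -, h⟩
      have := le_cd 0 (P.tau C) t1
      omega
    simp only [y', h1, decide_false, Bool.or_false]
  have hy2 : ∀ m, y' m = true → s.y m = true ∨ ∃ C ∈ P.Z', m = cd 0 (P.tau C) t1 := by
    intro m hm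
    simpa [y'] using hm
  have hy3 : ∀ C ∈ P.Z', y' (cd 0 (P.tau C) t1) = true := by
    intro C hC
    have h1 : ∃ C' ∈ P.Z', cd 0 (P.tau C) t1 = cd 0 (P.tau C') t1 := ⟨C, hC, rfl⟩
    simp only [y', h1, decide_true, Bool.or_true]
  obtain ⟨t', ht', hbd⟩ : ∃ t', t1 ≤ t' ∧ ∀ C ∈ P.Z', cd 0 (P.tau C) t1 < t' := by
    refine ⟨max t1 (P.Z'.sup (fun C => cd 0 (P.tau C) t1) + 1), le_max_left _ _, fun C hC => ?_⟩
    have h1 : cd 0 (P.tau C) t1 ≤ P.Z'.sup (fun C => cd 0 (P.tau C) t1) :=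
      Finset.le_sup (f := fun C => cd 0 (P.tau C) t1) hC
    have h2 := le_max_right t1 (P.Z'.sup (fun C => cd 0 (P.tau C) t1) + 1)
    omega
  have hy0 : ∀ m, t' ≤ m → y' m = false := by
    intro m hm
    have h1 : ¬ ∃ C ∈ P.Z', m = cd 0 (P.tau C) t1 := by
      rintro ⟨C, hC, h⟩
      have := hbd C hC
      omega
    simp only [y', h1, decide_false, Bool.or_false]
    exact s.y0 m (by omega)
  have hagree : ∀ y'' : ℕ → Bool, (∀ m < t', y'' m = y' m) → ∀ m < t1, y'' m = s.y m := by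
    intro y'' h m hm
    rw [h m (by omega), hy1 m hm]
  have hY := hst y' (fun m hm => hy1 m hm)
  refine ⟨{
    y := y'
    t := t'
    β := P.β'
    S := P.S'
    fin := P.fin
    y0 := hy0
    tn := htn.trans ht'
    Tst := ?_
    Lst := ?_
    ok := ?_
    sep := P.sep
    sepW := ?_
    cover := P.cover }, ⟨{
      θ := P.θ
      e := P.e
      Z' := P.Z'
      half := P.half
      tau := P.tau
      mem := P.mem
      actv := P.actv
      sub := P.sub
      agree := fun m hm => hy1 m (lt_of_lt_of_le hm hts)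
      ht := hts.trans ht'
      hβ := P.hβ
      htau := fun C hC => ⟨P.htau C hC, ⟨t1, hy3 C hC⟩⟩
      half_c := P.half_c
      half_src := P.half_src
      half_act := P.half_act
      new := P.new }⟩⟩
  · intro y'' h x hx z hz
    rw [(hst y'' (hagree y'' h)).1 x hx z hz, hY.1 x hx z hz]
  · intro y'' h
    exact (hst y'' (hagree y'' h)).2
  · intro θ hθ
    exact ⟨Item.OK.congr (P.ok θ hθ).1 le_rfl hY.1 (hY.2 θ hθ), (P.ok θ hθ).2⟩
  · rintro θ hθ e he C hC τ ⟨u, hu⟩
    rcases hy2 _ hu with h1 | ⟨C', hC', h1⟩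
    · exact P.keep τ (fun θ' hθ' e' he' C' hC' => s.sepW θ' hθ' e' he' C' hC' τ ⟨u, h1⟩)
        θ hθ e he C hC
    · rw [(cd_inj h1).2.1]
      exact P.tau_inc C' hC' θ hθ e he C hC

theorem exists_run (A : Arena) :
    ∃ s : ∀ n, St A n, Nonempty (∀ n, Nxt (s n) (s (n + 1))) := by
  obtain ⟨s0⟩ := exists_start A
  have h : ∀ (n : ℕ) (s : St A n), ∃ s' : St A (n + 1), Nonempty (Nxt s s') :=
    fun n s => exists_next s
  choose nxt hnxt using h
  let seq : ∀ n, St A n := fun n => Nat.rec s0 (fun n s => nxt n s) n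
  exact ⟨seq, ⟨fun n => Classical.choice (hnxt n (seq n))⟩⟩

end Pool.Agent.helper6.GE
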